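import Mathlib

set_option autoImplicit false

/-!
# [H40 GC DIA] THEOREM G (MP_1bad5e_ag), chapter CNT: changing the diagonal

PROOF.  Induction on `m`.  `m = 0`: the determinant is `1`, `1 ≤ 1`.  Step `m + 1`: for `d : Fin (m + 1) → k` write
`d = Fin.cons x e`.  Then `det (M + diagonal d) = x * det (M' + diagonal e) + det (M + diagonal (Fin.cons 0 e))`, where
`M' = M.submatrix Fin.succ Fin.succ`: expand along the row `0` (`Matrix.det_succ_row_zero`; the submatrices for the other
columns and the other entries of the row do not contain `x`), or write the row `0` as a sum (`Matrix.det_updateRow_add`):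
the determinant of the matrix with row `0` replaced by `x • e_0` is `x` times the minor.
So for each of the at least `(q - 1) ^ m` vectors `e` with `det (M' + diagonal e) ≠ 0` (induction) there is at most one `x`
with determinant `0`, at least `q - 1` other values `x`.  Hence at least `(q - 1) * (q - 1) ^ m` vectors `d`
(use the injection `(e, x) ↦ Fin.cons x e`; `Nat.card_sigma`, `Finset.card_sigma`, or `Fin.consEquiv`).
-/

namespace Pool.Agent.H40.GC

private theorem det_cons {k : Type} [Field k] {m : ℕ} (M : Matrix (Fin (m + 1)) (Fin (m + 1)) k) (x : k)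
    (e : Fin m → k) :
    (M + Matrix.diagonal (Fin.cons x e : Fin (m + 1) → k)).det =
      (M + Matrix.diagonal (Fin.cons 0 e : Fin (m + 1) → k)).det +
        x * (M.submatrix Fin.succ Fin.succ + Matrix.diagonal e).det := by
  obtain ⟨A, hA⟩ : ∃ A : Matrix (Fin (m + 1)) (Fin (m + 1)) k,
      A = M + Matrix.diagonal (Fin.cons 0 e : Fin (m + 1) → k) := ⟨_, rfl⟩
  have h1 : M + Matrix.diagonal (Fin.cons x e : Fin (m + 1) → k) =
      A.updateRow 0 (A 0 + x • Pi.single 0 1) := by
    ext i j
    refine Fin.cases ?_ (fun i => ?_) i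
    · rw [Matrix.updateRow_self, hA]
      refine Fin.cases ?_ (fun j => ?_) j
      · simp [Matrix.diagonal_apply_eq]
      · simp [Matrix.diagonal_apply_ne _ (Fin.succ_ne_zero j).symm]
    · rw [Matrix.updateRow_ne (Fin.succ_ne_zero i), hA]
      refine Fin.cases ?_ (fun j => ?_) j
      · simp [Matrix.diagonal_apply_ne _ (Fin.succ_ne_zero i)]
      · simp [Matrix.diagonal_apply]
  have h2 : A.submatrix Fin.succ Fin.succ = M.submatrix Fin.succ Fin.succ + Matrix.diagonal e := by
    ext i j
    rw [hA]
    simp [Matrix.diagonal_apply]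
  have h3 : (A.updateRow 0 (Pi.single 0 1)).det = (A.submatrix Fin.succ Fin.succ).det := by
    rw [← Matrix.adjugate_apply, Matrix.adjugate_fin_succ_eq_det_submatrix]
    simp
  rw [h1, Matrix.det_updateRow_add, Matrix.det_updateRow_smul, Matrix.updateRow_eq_self, h3, h2, hA]

theorem dia {k : Type} [Field k] [Finite k] (m : ℕ) (M : Matrix (Fin m) (Fin m) k) :
    (Nat.card k - 1) ^ m ≤ Nat.card {d : Fin m → k // (M + Matrix.diagonal d).det ≠ 0} := by
  classical
  have hfin : Fintype k := Fintype.ofFinite k
  induction m with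
  | zero =>
    have h1 : Nat.card {d : Fin 0 → k // (M + Matrix.diagonal d).det ≠ 0} ≠ 0 := by
      rw [Nat.card_ne_zero]
      refine ⟨⟨⟨Fin.elim0, ?_⟩⟩, inferInstance⟩
      rw [Matrix.det_isEmpty]
      exact one_ne_zero
    rw [pow_zero]
    omega
  | succ m ih =>
    have h1 := ih (M.submatrix Fin.succ Fin.succ)
    let G := {e : Fin m → k // (M.submatrix Fin.succ Fin.succ + Matrix.diagonal e).det ≠ 0}
    let F : G → Type := fun e => {x : k // (M + Matrix.diagonal (Fin.cons x e.1 : Fin (m + 1) → k)).det ≠ 0}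
    have hF : ∀ e : G, Nat.card k - 1 ≤ Nat.card (F e) := by
      intro e
      have h2 : Nat.card {x : k // (M + Matrix.diagonal (Fin.cons x e.1 : Fin (m + 1) → k)).det = 0} ≤ 1 := by
        rw [Nat.card_eq_fintype_card, Fintype.card_le_one_iff_subsingleton]
        refine ⟨fun a b => Subtype.ext ?_⟩
        have ha := a.2
        have hb := b.2
        rw [det_cons] at ha hb
        have h3 : (a.1 - b.1) * (M.submatrix Fin.succ Fin.succ + Matrix.diagonal e.1).det = 0 := by
          linear_combination ha - hb
        exact sub_eq_zero.1 ((mul_eq_zero.1 h3).resolve_right e.2)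
      have h3 : Nat.card (F e) = Nat.card k -
          Nat.card {x : k // (M + Matrix.diagonal (Fin.cons x e.1 : Fin (m + 1) → k)).det = 0} := by
        rw [Nat.card_eq_fintype_card, Nat.card_eq_fintype_card, Nat.card_eq_fintype_card]
        exact Fintype.card_subtype_compl _
      rw [h3]
      omega
    have hinj : Function.Injective (fun p : (Σ e : G, F e) =>
        (⟨Fin.cons p.2.1 p.1.1, p.2.2⟩ : {d : Fin (m + 1) → k // (M + Matrix.diagonal d).det ≠ 0})) := by
      rintro ⟨⟨e, he⟩, ⟨x, hx⟩⟩ ⟨⟨e', he'⟩, ⟨x', hx'⟩⟩ h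
      have h2 := Subtype.mk.inj h
      obtain ⟨h3, h4⟩ := Fin.cons_inj.1 h2
      subst h3
      subst h4
      rfl
    have h2 := Nat.card_le_card_of_injective _ hinj
    refine le_trans ?_ h2
    rw [Nat.card_sigma]
    calc (Nat.card k - 1) ^ (m + 1) = (Nat.card k - 1) ^ m * (Nat.card k - 1) := pow_succ _ _
      _ ≤ Nat.card G * (Nat.card k - 1) := Nat.mul_le_mul_right _ h1
      _ = ∑ _e : G, (Nat.card k - 1) := by
        rw [Finset.sum_const, Finset.card_univ, smul_eq_mul, Nat.card_eq_fintype_card]
      _ ≤ ∑ e : G, Nat.card (F e) := Finset.sum_le_sum fun e _ => hF e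

end Pool.Agent.H40.GC
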