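import Mathlib

set_option autoImplicit false

/-!
# [H40 GC NDf] THEOREM G (MP_1bad5e_ag), chapter CNT: types and exponents

A type is the vector `n_0 ≤ n_1 ≤ … ≤ n_(2g)` of the successive minima of a self-dual bundle with an operator of
height `h`.
-/

namespace Pool.Agent.H40.GC

/-- the pairs `i ≤ j` -/
def ps (m : ℕ) : Finset (Fin m × Fin m) := Finset.univ.filter fun p => p.1 ≤ p.2

/-- the pairs `i < j` -/
def pl (m : ℕ) : Finset (Fin m × Fin m) := Finset.univ.filter fun p => p.1 < p.2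

/-- number of the free coefficients of a monic polynomial of degree `m` and height `h` -/
def Mh (m h : ℕ) : ℕ := ∑ i : Fin m, ((m - (i : ℕ)) * h + 1)

/-- exponent of the number of the symmetric matrices with `deg G_ij ≤ n_i + n_j` -/
def eG {m : ℕ} (n : Fin m → ℤ) : ℕ := ∑ p ∈ ps m, (n p.1 + n p.2 + 1).toNat

/-- exponent of the number of the symmetric matrices with `deg B_ij ≤ h + n_i + n_j` -/
def eB {m : ℕ} (h : ℕ) (n : Fin m → ℤ) : ℕ := ∑ p ∈ ps m, ((h : ℤ) + n p.1 + n p.2 + 1).toNat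

/-- exponent of the number of the matrices with `deg P_ij ≤ n_j - n_i` -/
def eA {m : ℕ} (n : Fin m → ℤ) : ℕ := ∑ p : Fin m × Fin m, (n p.2 - n p.1 + 1).toNat

/-- the exponent of the share of the pairs (polynomial, class) of type `n` -/
def Ee {m : ℕ} (h : ℕ) (n : Fin m → ℤ) : ℤ :=
  ∑ p ∈ ps m, ((- n p.1 - n p.2 - h - 1).toNat : ℤ) - ∑ p ∈ pl m, ((n p.1 + n p.2 - 1).toNat : ℤ)

/-- types which belong to classes different from the trivial one -/
structure IsType (g h : ℕ) (n : Fin (2 * g + 1) → ℤ) : Prop where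
  mono : Monotone n
  anti : ∀ i, n i.rev = - n i
  gap : ∀ i : Fin (2 * g), n i.succ - n i.castSucc ≤ h
  top : ∀ i : Fin (2 * g + 1), (i : ℕ) + 1 = g → 0 ≤ (h : ℤ) + 2 * n i

/-- the type `(-1, 0, …, 0, 1)` -/
def e1 (g : ℕ) (i : Fin (2 * g + 1)) : ℤ := if i = 0 then -1 else if i = Fin.last (2 * g) then 1 else 0

open Classical in
/-- the finite set of the types -/
noncomputable def tys (g h : ℕ) : Finset (Fin (2 * g + 1) → ℤ) :=
  (Fintype.piFinset fun _ => Finset.Icc (-((g : ℤ) * h)) ((g : ℤ) * h)).filter (IsType g h)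

end Pool.Agent.H40.GC
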