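import Pool.Agent.H40.GC.EQC
import Pool.Agent.H94.GG.Defs
import Pool.Agent.H40.GC.NDf

set_option autoImplicit false

/-!
# [H40 GC FMC] THEOREM G (MP_1bad5e_ag), chapter CNT: the family with local conditions

`Fam m h f`, `lead m h f` are those of `H94/GG/Defs`.

PROOF.  `J = Fin m`, `d i = (m - i) * h` (`≥ h ≥ N` as `i < m`).  The map
`p ↦ X ^ m + ∑ i : Fin m, C (p i) * X ^ i` is a bijection from the families `p : Fin m → R` onto the monic polynomials of
degree `m` over a commutative ring `R ≠ 0` (its inverse is `f ↦ f.coeff`); it commutes with ring homomorphisms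
(`Polynomial.map`).  For `R = F[X]` the conditions `Fam m h f` mean `natDegree (p i) ≤ (m - i) * h`; `f.map (φ s)` is the
polynomial which belongs to the family `φ s (p i)`, and `lead m h f` the one which belongs to `(p i).coeff ((m - i) * h)`
(`lead` is the sum over `i ∈ range (m + 1)`; the term `i = m` is `C ((1 : F[X]).coeff 0) * X ^ m = X ^ m`).
Apply `eqc` with `R s` = the set of the families whose polynomial is in `T s` (`Nat.card` = number of the elements of `T s`
which are monic of degree `m`, by the bijection), `R'` similarly.  `Fintype.card (Fin m) = m`.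
`fmc_all` is `eqa`, with the same bijection.  A helper lemma
`Equiv : (Fin m → R) ≃ {f : R[X] // f.Monic ∧ f.natDegree = m}` is useful (`Polynomial.coeff` of the sum:
`finset_sum_coeff`, `coeff_C_mul_X_pow`; see also `Polynomial.Monic.as_sum`, `degreeLTEquiv`).
-/

namespace Pool.Agent.H40.GC

open Polynomial
open Pool.Agent.H94.GG (Fam lead)

/-- the monic polynomials of degree `m` in `T` -/
def mon {k : Type} [Field k] (m : ℕ) (T : Set k[X]) : Set k[X] := {p | p ∈ T ∧ p.Monic ∧ p.natDegree = m}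

section pol

variable {R : Type} [CommRing R]

/-- the monic polynomial with the coefficients `p` -/
private noncomputable def pol (m : ℕ) (p : Fin m → R) : R[X] := X ^ m + ∑ i : Fin m, C (p i) * X ^ (i : ℕ)

private theorem pol_coeff (m : ℕ) (p : Fin m → R) (n : ℕ) :
    (pol m p).coeff n = (if n = m then 1 else 0) + ∑ i : Fin m, if n = i then p i else 0 := by
  unfold pol
  rw [coeff_add, coeff_X_pow, finsetSum_coeff]
  congr 1
  exact Finset.sum_congr rfl fun i _ => by rw [coeff_C_mul_X_pow]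

private theorem pol_coeff_lt (m : ℕ) (p : Fin m → R) (i : Fin m) : (pol m p).coeff i = p i := by
  rw [pol_coeff, if_neg (by have := i.2; omega), zero_add, Finset.sum_eq_single i]
  · rw [if_pos rfl]
  · intro j _ hj
    rw [if_neg fun h => hj (Fin.ext h.symm)]
  · intro h
    exact absurd (Finset.mem_univ _) h

private theorem pol_coeff_self (m : ℕ) (p : Fin m → R) : (pol m p).coeff m = 1 := by
  rw [pol_coeff, if_pos rfl, Finset.sum_eq_zero, add_zero]
  intro i _
  rw [if_neg (by have := i.2; omega)]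

private theorem pol_coeff_gt (m : ℕ) (p : Fin m → R) {n : ℕ} (h : m < n) : (pol m p).coeff n = 0 := by
  rw [pol_coeff, if_neg (by omega), Finset.sum_eq_zero, zero_add]
  intro i _
  rw [if_neg (by have := i.2; omega)]

private theorem pol_deg_le (m : ℕ) (p : Fin m → R) : (pol m p).natDegree ≤ m :=
  natDegree_le_iff_coeff_eq_zero.2 fun _ h => pol_coeff_gt m p h

private theorem pol_deg [Nontrivial R] (m : ℕ) (p : Fin m → R) : (pol m p).natDegree = m :=
  le_antisymm (pol_deg_le m p) (le_natDegree_of_ne_zero (by rw [pol_coeff_self]; exact one_ne_zero))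

private theorem pol_monic (m : ℕ) (p : Fin m → R) : (pol m p).Monic :=
  monic_of_natDegree_le_of_coeff_eq_one m (pol_deg_le m p) (pol_coeff_self m p)

private theorem pol_surj (m : ℕ) (f : R[X]) (h1 : f.Monic) (h2 : f.natDegree = m) :
    pol m (fun i : Fin m => f.coeff i) = f := by
  ext n
  rcases lt_trichotomy n m with h | h | h
  · exact pol_coeff_lt m (fun i : Fin m => f.coeff i) ⟨n, h⟩
  · rw [h, pol_coeff_self, ← h2]
    exact h1.symm
  · rw [pol_coeff_gt m _ h, coeff_eq_zero_of_natDegree_lt (by omega)]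

private theorem pol_map {S : Type} [CommRing S] (φ : R →+* S) (m : ℕ) (p : Fin m → R) :
    (pol m p).map φ = pol m (fun i => φ (p i)) := by
  unfold pol
  rw [Polynomial.map_add, Polynomial.map_pow, map_X, Polynomial.map_sum]
  congr 1
  exact Finset.sum_congr rfl fun i _ => by rw [Polynomial.map_mul, map_C, Polynomial.map_pow, map_X]

/-- counting of polynomials -/
private theorem pol_card [Nontrivial R] (m : ℕ) (P : R[X] → Prop) (Q : (Fin m → R) → Prop)
    (h : ∀ f, P f → f.Monic ∧ f.natDegree = m) (hPQ : ∀ p, P (pol m p) ↔ Q p) :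
    Nat.card {f : R[X] // P f} = Nat.card {p : Fin m → R // Q p} := by
  refine Nat.card_congr
    { toFun := fun f => ⟨fun i => f.1.coeff i, ?_⟩
      invFun := fun p => ⟨pol m p.1, (hPQ _).2 p.2⟩
      left_inv := ?_
      right_inv := ?_ }
  · obtain ⟨h1, h2⟩ := h _ f.2
    rw [← hPQ, pol_surj m f.1 h1 h2]
    exact f.2
  · intro f
    obtain ⟨h1, h2⟩ := h _ f.2
    exact Subtype.ext (pol_surj m f.1 h1 h2)
  · intro p
    exact Subtype.ext (funext fun i => pol_coeff_lt m p.1 i)

end pol

private theorem pol_fam {F : Type} [Field F] (m h : ℕ) (p : Fin m → F[X]) :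
    Fam m h (pol m p) ↔ ∀ i : Fin m, (p i).natDegree ≤ (m - (i : ℕ)) * h := by
  constructor
  · intro h1 i
    have h2 := h1.coeff i i.2
    rwa [pol_coeff_lt] at h2
  · intro h1
    refine ⟨pol_monic m p, pol_deg m p, fun i hi => ?_⟩
    have h2 := h1 ⟨i, hi⟩
    rwa [← pol_coeff_lt m p ⟨i, hi⟩] at h2

private theorem pol_lead {F : Type} [Field F] (m h : ℕ) (p : Fin m → F[X]) :
    lead m h (pol m p) = pol m (fun i => (p i).coeff ((m - (i : ℕ)) * h)) := by
  unfold lead
  rw [Finset.sum_range_succ, pol_coeff_self, Nat.sub_self, zero_mul, coeff_one_zero, C_1, one_mul,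
    Finset.sum_range, add_comm]
  conv_rhs => unfold pol
  congr 1
  exact Finset.sum_congr rfl fun i _ => by rw [pol_coeff_lt]

private theorem mon_card {k : Type} [Field k] (m : ℕ) (T : Set k[X]) :
    Nat.card (mon m T) = Nat.card ({y : Fin m → k | pol m y ∈ T} : Set (Fin m → k)) :=
  pol_card m (fun f => f ∈ mon m T) (fun y => pol m y ∈ T) (fun _ h => h.2)
    fun p => ⟨fun h => h.1, fun h => ⟨h, pol_monic m p, pol_deg m p⟩⟩

theorem fmc_all (F : Type) [Field F] [Finite F] (m h : ℕ) :
    Nat.card {f : F[X][X] // Fam m h f} = Nat.card F ^ Mh m h := by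
  rw [pol_card m (fun f => Fam m h f) (fun p => ∀ i : Fin m, (p i).natDegree ≤ (m - (i : ℕ)) * h)
    (fun f hf => ⟨hf.monic, hf.deg⟩) (pol_fam m h), eqa]
  rfl

theorem fmc {F : Type} [Field F] [Finite F] {S : Type} [Fintype S] (k : S → Type) [∀ s, Field (k s)]
    [∀ s, Finite (k s)] (φ : ∀ s, F[X] →+* k s) {N : ℕ} (hN : Eqd k φ N) (m h : ℕ) (hh : N ≤ h)
    (T : ∀ s, Set (k s)[X]) (T' : Set F[X]) :
    (Nat.card {f : F[X][X] // Fam m h f ∧ (∀ s, f.map (φ s) ∈ T s) ∧ lead m h f ∈ T'} : ℝ) =
      (∏ s, ((Nat.card (mon m (T s)) : ℝ) / (Nat.card (k s) : ℝ) ^ m)) *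
        ((Nat.card (mon m T') : ℝ) / (Nat.card F : ℝ) ^ m) * (Nat.card F : ℝ) ^ Mh m h := by
  have h1 := eqc k φ hN (J := Fin m) (fun i => (m - (i : ℕ)) * h) (fun i => by
    have h2 : 1 ≤ m - (i : ℕ) := by
      have := i.2
      omega
    nlinarith) (fun s => {y | pol m y ∈ T s}) {y | pol m y ∈ T'}
  have h2 : Nat.card {f : F[X][X] // Fam m h f ∧ (∀ s, f.map (φ s) ∈ T s) ∧ lead m h f ∈ T'} =
      Nat.card {p : Fin m → F[X] // (∀ j, (p j).natDegree ≤ (m - (j : ℕ)) * h) ∧
        (∀ s, (fun j => φ s (p j)) ∈ ({y | pol m y ∈ T s} : Set (Fin m → k s))) ∧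
        (fun j : Fin m => (p j).coeff ((m - (j : ℕ)) * h)) ∈ ({y | pol m y ∈ T'} : Set (Fin m → F))} := by
    refine pol_card m _ _ (fun f hf => ⟨hf.1.monic, hf.1.deg⟩) fun p => ?_
    simp only [Set.mem_ofPred_eq]
    rw [pol_fam, pol_lead]
    simp only [pol_map]
  rw [h2, h1, Fintype.card_fin, mon_card]
  congr 2
  congr 1
  exact funext fun s => by rw [mon_card]

end Pool.Agent.H40.GC
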