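import Pool.Agent.H40.GC.DLC

set_option autoImplicit false

/-!
# [H40 GC GCN] THEOREM G (MP_1bad5e_ag), chapter CNT: the number of the forms of type `n`

PROOF.  Let `ε ∈ F` be a nonsquare (`FiniteField.exists_nonsquare`, characteristic not 2), `U` the finite set of all
symmetric `G` with `DLe (n i + n j) (G i j)` (`#U = q ^ eG n`, `dlc_sym`; it is finite because this number is not `0`:
`Nat.card` of an infinite type is `0`), `A ⊆ U` the set of those with `det G = C ((-1) ^ (m / 2) * a ^ 2)`, `a ≠ 0`.  The map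
`G ↦ C ε • G` maps `U` into `U` and is injective; it maps `A` into the complement of `A`: `det (C ε • G) = C ε ^ m * det G =
C ((-1) ^ (m / 2) * (ε ^ m * a ^ 2))`, and `ε ^ m * a ^ 2` is not a square, as `m` is odd (`ε ^ m = ε * (ε ^ (m / 2)) ^ 2`,
`a ≠ 0`).  So `2 * #A ≤ #U`.
-/

namespace Pool.Agent.H40.GC

open Polynomial Matrix
open Pool.Agent.H3.GG (DLe)

/-- the forms of type `n` -/
def IsG {F : Type} [Field F] {m : ℕ} (n : Fin m → ℤ) (G : Matrix (Fin m) (Fin m) F[X]) : Prop :=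
  Gᵀ = G ∧ (∀ i j, DLe (n i + n j) (G i j)) ∧ ∃ a : F, a ≠ 0 ∧ G.det = C ((-1) ^ (m / 2) * a ^ 2)

private theorem gcn_finU (F : Type) [Field F] [Finite F] {m : ℕ} (n : Fin m → ℤ) :
    Finite {M : Matrix (Fin m) (Fin m) F[X] // Mᵀ = M ∧ ∀ i j, DLe (n i + n j) (M i j)} := by
  have h1 := dlc_sym F (fun i j => n i + n j) (fun i j => add_comm _ _)
  apply Nat.finite_of_card_ne_zero
  rw [h1]
  exact pow_ne_zero _ Nat.card_pos.ne'

theorem gcn_fin (F : Type) [Field F] [Finite F] {m : ℕ} (n : Fin m → ℤ) :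
    {G : Matrix (Fin m) (Fin m) F[X] | IsG n G}.Finite := by
  have h2 : {M : Matrix (Fin m) (Fin m) F[X] | Mᵀ = M ∧ ∀ i j, DLe (n i + n j) (M i j)}.Finite :=
    gcn_finU F n
  exact h2.subset fun G hG => ⟨hG.1, hG.2.1⟩

theorem gcn (F : Type) [Field F] [Finite F] (h2 : (2 : F) ≠ 0) {m : ℕ} (hm : Odd m) (n : Fin m → ℤ) :
    2 * Nat.card {G : Matrix (Fin m) (Fin m) F[X] // IsG n G} ≤ Nat.card F ^ eG n := by
  have hU := dlc_sym F (fun i j => n i + n j) (fun i j => add_comm _ _)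
  have hfU := gcn_finU F n
  have hfA : Finite {G : Matrix (Fin m) (Fin m) F[X] // IsG n G} := gcn_fin F n
  obtain ⟨ε, hε⟩ := FiniteField.exists_nonsquare (F := F) (by
    intro h
    apply h2
    have h3 : (2 : F) = ((2 : ℕ) : F) := by norm_num
    rw [h3, ← h]
    exact CharP.cast_eq_zero F (ringChar F))
  have hε0 : ε ≠ 0 := by
    rintro rfl
    exact hε ⟨0, by simp⟩
  have hC : (C ε : F[X]) ≠ 0 := C_ne_zero.mpr hε0
  have hcard : Nat.card {M : Matrix (Fin m) (Fin m) F[X] // Mᵀ = M ∧ ∀ i j, DLe (n i + n j) (M i j)} =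
      Nat.card F ^ eG n := hU
  rw [← hcard, two_mul, ← Nat.card_sum]
  let f : {G : Matrix (Fin m) (Fin m) F[X] // IsG n G} ⊕ {G : Matrix (Fin m) (Fin m) F[X] // IsG n G} →
      {M : Matrix (Fin m) (Fin m) F[X] // Mᵀ = M ∧ ∀ i j, DLe (n i + n j) (M i j)} := fun x =>
    match x with
    | Sum.inl G => ⟨G.1, G.2.1, G.2.2.1⟩
    | Sum.inr G => ⟨C ε • G.1, by rw [Matrix.transpose_smul, G.2.1], fun i j => by
        have h4 := G.2.2.1 i j
        rw [Matrix.smul_apply, smul_eq_mul]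
        rcases h4 with h4 | h4
        · left; rw [h4, mul_zero]
        · right
          rw [natDegree_C_mul hε0]
          exact h4⟩
  have key : ∀ G G' : {G : Matrix (Fin m) (Fin m) F[X] // IsG n G}, G.1 ≠ C ε • G'.1 := by
    intro G G' h
    obtain ⟨a, ha, hdet⟩ := G.2.2.2
    obtain ⟨b, hb, hdet'⟩ := G'.2.2.2
    rw [h, Matrix.det_smul, hdet', Fintype.card_fin, ← C_pow, ← C_mul] at hdet
    have h5 := C_injective hdet
    obtain ⟨k, hk⟩ := hm
    have h6 : ((-1 : F)) ^ (m / 2) ≠ 0 := pow_ne_zero _ (by simp)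
    have h7 : ε ^ m * b ^ 2 = a ^ 2 := by
      apply mul_left_cancel₀ h6
      rw [← h5]; ring
    apply hε
    have h8 : ε ^ k * b ≠ 0 := mul_ne_zero (pow_ne_zero _ hε0) hb
    refine ⟨a / (ε ^ k * b), ?_⟩
    rw [div_mul_div_comm, eq_div_iff (mul_ne_zero h8 h8)]
    calc ε * (ε ^ k * b * (ε ^ k * b)) = ε ^ m * b ^ 2 := by rw [hk]; ring
      _ = a * a := by rw [h7]; ring
  have hinj : Function.Injective f := by
    intro x y h
    have h0 : (f x).1 = (f y).1 := by rw [h]
    rcases x with G | G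
    · rcases y with G' | G'
      · have h9 : G.1 = G'.1 := h0
        rw [Subtype.ext h9]
      · exact absurd h0 (key G G')
    · rcases y with G' | G'
      · exact absurd h0.symm (key G' G)
      · have h9 : C ε • G.1 = C ε • G'.1 := h0
        have h10 : G.1 = G'.1 := smul_right_injective _ hC h9
        rw [Subtype.ext h10]
  exact Nat.card_le_card_of_injective f hinj

end Pool.Agent.H40.GC
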