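import Pool.Agent.H40.GC.TOP

set_option autoImplicit false

/-!
# [H40 GC LDF] THEOREM G (MP_1bad5e_ag), chapter CNT: leading form and reductions of `det (x G - B)`

`CharEq f G B : (X • G.map C - B.map C).det = C G.det * f` (`H3/GG/CDefs`), `lead m h f` (`H94/GG/Defs`).

PROOF.
`ldf_map`: apply the ring homomorphism `Polynomial.mapRingHom φ : F[X][X] → k[X]` to the equation: `RingHom.map_det`,
and `(X • G.map C - B.map C)` is mapped to `X • (G.map φ).map C - (B.map φ).map C` entry by entry; `G.det` to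
`(G.map φ).det`.
`ldf`: for `p ∈ F[t][x]`, `d ∈ ℤ` let `W d p : ∀ i, DLe (d - i * h) (p.coeff i)`, and let `lf d p ∈ F[x]` be the polynomial
with the coefficients `tc (d - i * h) (p.coeff i)` (`∑ i ∈ range (natDegree p + 1), C (tc ..) * X ^ i`, or
`p.sum`).  If `W d p`, `W e q` then `W (d + e) (p q)` and `lf (d + e) (p q) = lf d p * lf e q`
(`coeff_mul`, `dle_mul`, `tc_mul`, `tc_sum`: `(d - i h) + (e - j h) = d + e - (i + j) h`); `lf d` is additive.  So, as in
`top_det`, for a matrix `M` over `F[t][x]` with `W (u i + v j) (M i j)`: `lf (∑ u + ∑ v) (det M) = det (lf (u i + v j) (M i j))`.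
For `M i j = x G i j - B i j`, `u i = h + n i`, `v j = n j`: `W (h + n i + n j) (M i j)`: coefficient `1`: `G i j` with
`DLe (n i + n j)`, coefficient `0`: `- B i j` with `DLe (h + n i + n j)`; `lf = x tc (n i + n j) (G i j) - tc (h + n i + n j) (B i j)`.
`∑ u + ∑ v = m h` (`∑ n = 0`).  On the other side `G.det` is constant (`top_det` with `u = v = n`, `top_const`), equal to
`C (det (tc (n i + n j) (G i j)))`, `W 0 (C G.det)`, `W (m h) f` because of `Fam m h f` (the coefficient of `x ^ m` is `1`, the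
coefficients above `m` are `0`), and `lf (m h) f = lead m h f` (`m h - i h = (m - i) h` for `i ≤ m`).
`∑ n = 0` from `n (rev i) = - n i` (`Equiv.sum_comp Fin.revPerm`).
-/

namespace Pool.Agent.H40.GC

open Polynomial Matrix
open Pool.Agent.H3.GG (DLe CharEq)
open Pool.Agent.H94.GG (Fam lead)

/-- the equation for matrices over a field -/
def CharE {k : Type} [CommRing k] {m : ℕ} (f : k[X]) (G B : Matrix (Fin m) (Fin m) k) : Prop :=
  ((X : k[X]) • G.map C - B.map C).det = C G.det * f

theorem ldf_map {F : Type} [Field F] {k : Type} [CommRing k] (φ : F[X] →+* k) {m : ℕ} {f : F[X][X]}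
    {G B : Matrix (Fin m) (Fin m) F[X]} (h : CharEq f G B) : CharE (f.map φ) (G.map φ) (B.map φ) := by
  have h1 := congrArg (mapRingHom φ) h
  rw [RingHom.map_det, map_mul] at h1
  have h2 : (mapRingHom φ).mapMatrix ((X : F[X][X]) • G.map C - B.map C) =
      (X : k[X]) • (G.map φ).map C - (B.map φ).map C := by
    ext1 i j
    rw [RingHom.mapMatrix_apply, map_apply, Matrix.sub_apply, Matrix.smul_apply, map_apply, map_apply, Matrix.sub_apply, Matrix.smul_apply,
      map_apply, map_apply, map_apply, map_apply, smul_eq_mul, smul_eq_mul, map_sub, map_mul, coe_mapRingHom,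
      map_X, map_C, map_C]
  rw [h2, coe_mapRingHom, map_C, RingHom.map_det] at h1
  exact h1

/-- matrix of the top coefficients -/
def topM {F : Type} [Field F] {m : ℕ} (h : ℤ) (n : Fin m → ℤ) (G : Matrix (Fin m) (Fin m) F[X]) :
    Matrix (Fin m) (Fin m) F := Matrix.of fun i j => tc (h + n i + n j) (G i j)

theorem sum_anti {m : ℕ} {n : Fin m → ℤ} (hn : ∀ i, n i.rev = - n i) : ∑ i, n i = 0 := by
  have h1 : ∑ i : Fin m, n i.rev = ∑ i, n i := Equiv.sum_comp Fin.revPerm n
  have h2 : ∑ i : Fin m, n i.rev = - ∑ i, n i := by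
    rw [← Finset.sum_neg_distrib]
    exact Finset.sum_congr rfl fun i _ => hn i
  omega

theorem ldf_det {F : Type} [Field F] {m : ℕ} {n : Fin m → ℤ} (hn : ∀ i, n i.rev = - n i)
    {G : Matrix (Fin m) (Fin m) F[X]} (hG : ∀ i j, DLe (n i + n j) (G i j)) : G.det = C (topM 0 n G).det := by
  obtain ⟨h1, h2⟩ := top_det n n G hG
  rw [sum_anti hn, add_zero] at h1 h2
  rw [top_const h1, h2]
  congr 2
  unfold topM
  ext1 i j
  rw [of_apply, of_apply, zero_add]

section lf

variable {F : Type} [Field F]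

/-- weights of polynomials in two variables -/
def W (h : ℤ) (d : ℤ) (p : F[X][X]) : Prop := ∀ i : ℕ, DLe (d - i * h) (p.coeff i)

/-- leading form of weight `d` -/
noncomputable def lf (h : ℤ) (d : ℤ) (p : F[X][X]) : F[X] :=
  ∑ i ∈ p.support, monomial i (tc (d - i * h) (p.coeff i))

theorem lf_coeff (h d : ℤ) (p : F[X][X]) (i : ℕ) : (lf h d p).coeff i = tc (d - i * h) (p.coeff i) := by
  unfold lf
  rw [finsetSum_coeff]
  rw [Finset.sum_eq_single i]
  · rw [coeff_monomial, if_pos rfl]
  · intro j _ hj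
    rw [coeff_monomial, if_neg hj]
  · intro hi
    rw [notMem_support_iff.1 hi, tc_zero, monomial_zero_right, coeff_zero]

theorem W_mul {h d e : ℤ} {p q : F[X][X]} (hp : W h d p) (hq : W h e q) : W h (d + e) (p * q) := by
  intro k
  rw [coeff_mul]
  refine dle_sum _ _ fun x hx => ?_
  have hk : x.1 + x.2 = k := Finset.HasAntidiagonal.mem_antidiagonal.1 hx
  have h1 := dle_mul (hp x.1) (hq x.2)
  have h2 : d - x.1 * h + (e - x.2 * h) = d + e - k * h := by
    rw [← hk]
    push_cast
    ring
  rwa [h2] at h1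

theorem lf_mul {h d e : ℤ} {p q : F[X][X]} (hp : W h d p) (hq : W h e q) :
    lf h (d + e) (p * q) = lf h d p * lf h e q := by
  ext1 k
  rw [lf_coeff, coeff_mul, tc_sum, coeff_mul]
  refine Finset.sum_congr rfl fun x hx => ?_
  have hk : x.1 + x.2 = k := Finset.HasAntidiagonal.mem_antidiagonal.1 hx
  have h1 := tc_mul (hp x.1) (hq x.2)
  have h2 : d - x.1 * h + (e - x.2 * h) = d + e - k * h := by
    rw [← hk]
    push_cast
    ring
  rw [h2] at h1
  rw [h1, lf_coeff, lf_coeff]

theorem W_sum {h d : ℤ} {ι : Type} (s : Finset ι) (p : ι → F[X][X]) (hp : ∀ i ∈ s, W h d (p i)) :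
    W h d (∑ i ∈ s, p i) := by
  intro k
  rw [finsetSum_coeff]
  exact dle_sum _ _ fun i hi => hp i hi k

theorem lf_sum (h d : ℤ) {ι : Type} (s : Finset ι) (p : ι → F[X][X]) :
    lf h d (∑ i ∈ s, p i) = ∑ i ∈ s, lf h d (p i) := by
  ext1 k
  rw [lf_coeff, finsetSum_coeff, tc_sum, finsetSum_coeff]
  exact Finset.sum_congr rfl fun i _ => (lf_coeff _ _ _ _).symm

theorem W_neg {h d : ℤ} {p : F[X][X]} (hp : W h d p) : W h d (-p) := by
  intro k
  rw [coeff_neg]
  exact dle_negp (hp k)

theorem lf_neg (h d : ℤ) (p : F[X][X]) : lf h d (-p) = - lf h d p := by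
  ext1 k
  rw [lf_coeff, coeff_neg, tc_neg, coeff_neg, lf_coeff]

theorem W_one (h : ℤ) : W h 0 (1 : F[X][X]) := by
  intro k
  rw [coeff_one]
  split_ifs with hk
  · subst hk
    exact Or.inr (by rw [natDegree_one]; simp)
  · exact dle_zero _

theorem lf_one (h : ℤ) : lf h 0 (1 : F[X][X]) = 1 := by
  ext1 k
  rw [lf_coeff, coeff_one, coeff_one]
  split_ifs with hk
  · subst hk
    have := tc_nat 0 (1 : F[X])
    rw [Nat.cast_zero] at this ⊢
    rw [zero_mul, sub_zero, this, coeff_one_zero]
  · exact tc_zero _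

theorem W_prod {h : ℤ} {ι : Type} (s : Finset ι) (d : ι → ℤ) (p : ι → F[X][X])
    (hp : ∀ i ∈ s, W h (d i) (p i)) : W h (∑ i ∈ s, d i) (∏ i ∈ s, p i) := by
  classical
  induction s using Finset.induction_on with
  | empty =>
    rw [Finset.sum_empty, Finset.prod_empty]
    exact W_one h
  | insert a s ha ih =>
    rw [Finset.sum_insert ha, Finset.prod_insert ha]
    exact W_mul (hp a (Finset.mem_insert_self a s)) (ih fun i hi => hp i (Finset.mem_insert_of_mem hi))

theorem lf_prod {h : ℤ} {ι : Type} (s : Finset ι) (d : ι → ℤ) (p : ι → F[X][X])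
    (hp : ∀ i ∈ s, W h (d i) (p i)) : lf h (∑ i ∈ s, d i) (∏ i ∈ s, p i) = ∏ i ∈ s, lf h (d i) (p i) := by
  classical
  induction s using Finset.induction_on with
  | empty =>
    rw [Finset.sum_empty, Finset.prod_empty, Finset.prod_empty]
    exact lf_one h
  | insert a s ha ih =>
    have h1 : ∀ i ∈ s, W h (d i) (p i) := fun i hi => hp i (Finset.mem_insert_of_mem hi)
    rw [Finset.sum_insert ha, Finset.prod_insert ha, Finset.prod_insert ha,
      lf_mul (hp a (Finset.mem_insert_self a s)) (W_prod s d p h1), ih h1]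

/-- leading form of a determinant -/
theorem lf_detM {m : ℕ} (h : ℤ) (u v : Fin m → ℤ) (M : Matrix (Fin m) (Fin m) F[X][X])
    (hM : ∀ i j, W h (u i + v j) (M i j)) :
    lf h (∑ i, u i + ∑ i, v i) M.det = (Matrix.of fun i j => lf h (u i + v j) (M i j)).det := by
  classical
  have hD : ∀ σ : Equiv.Perm (Fin m), ∑ i, u i + ∑ i, v i = ∑ i, (u (σ i) + v i) := by
    intro σ
    rw [Finset.sum_add_distrib, Equiv.sum_comp σ u]
  rw [det_apply, det_apply, lf_sum]
  refine Finset.sum_congr rfl fun σ _ => ?_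
  have h1 : lf h (∑ i, u i + ∑ i, v i) (∏ i, M (σ i) i) = ∏ i, lf h (u (σ i) + v i) (M (σ i) i) := by
    rw [hD σ]
    exact lf_prod _ _ _ fun i _ => hM _ _
  rcases Int.units_eq_one_or (Equiv.Perm.sign σ) with h | h
  · rw [h, one_smul, one_smul]
    exact h1
  · rw [h, Units.neg_smul, one_smul, Units.neg_smul, one_smul, lf_neg]
    exact congrArg Neg.neg h1

theorem lf_lead {m h : ℕ} {f : F[X][X]} (hf : Fam m h f) : W (h : ℤ) (m * h) f ∧ lf (h : ℤ) (m * h) f = lead m h f := by
  have hc : ∀ i : ℕ, i ≤ m → ((m : ℤ) * h - i * h) = (((m - i) * h : ℕ) : ℤ) := by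
    intro i hi
    push_cast [Nat.cast_sub hi]
    ring
  have hgt : ∀ i : ℕ, m < i → f.coeff i = 0 := by
    intro i hi
    exact coeff_eq_zero_of_natDegree_lt (by rw [hf.deg]; exact hi)
  have htop : f.coeff m = 1 := by
    have := hf.monic
    rw [Monic, leadingCoeff, hf.deg] at this
    exact this
  constructor
  · intro i
    rcases lt_trichotomy i m with hi | hi | hi
    · rw [hc i hi.le, dle_nat]
      exact hf.coeff i hi
    · subst hi
      rw [hc i (le_refl _), htop, dle_nat, natDegree_one]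
      exact Nat.zero_le _
    · rw [hgt i hi]
      exact dle_zero _
  · ext1 i
    rw [lf_coeff]
    unfold lead
    rw [finsetSum_coeff]
    rcases le_or_gt i m with hi | hi
    · rw [Finset.sum_eq_single i]
      · rw [hc i hi, tc_nat, coeff_C_mul_X_pow, if_pos rfl]
      · intro j _ hj
        rw [coeff_C_mul_X_pow, if_neg (Ne.symm hj)]
      · intro h1
        exact absurd (Finset.mem_range.2 (by omega)) h1
    · rw [hgt i hi, tc_zero]
      symm
      refine Finset.sum_eq_zero fun j hj => ?_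
      have := Finset.mem_range.1 hj
      rw [coeff_C_mul_X_pow, if_neg (by omega)]

end lf

theorem ldf {F : Type} [Field F] {m h : ℕ} {n : Fin m → ℤ} (hn : ∀ i, n i.rev = - n i) {f : F[X][X]}
    (hf : Fam m h f) {G B : Matrix (Fin m) (Fin m) F[X]} (hG : ∀ i j, DLe (n i + n j) (G i j))
    (hB : ∀ i j, DLe (h + n i + n j) (B i j)) (hc : CharEq f G B) :
    CharE (lead m h f) (topM 0 n G) (topM h n B) := by
  obtain ⟨hW, hL⟩ := lf_lead hf
  have hentry : ∀ i j, ((X : F[X][X]) • G.map C - B.map C) i j = X * C (G i j) - C (B i j) := by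
    intro i j
    rw [Matrix.sub_apply, Matrix.smul_apply, map_apply, map_apply, smul_eq_mul]
  have hcoef : ∀ (i j : Fin m) (k : ℕ), (X * C (G i j) - C (B i j) : F[X][X]).coeff k =
      if k = 0 then - B i j else if k = 1 then G i j else 0 := by
    intro i j k
    rw [coeff_sub, mul_comm, coeff_C_mul, coeff_X, coeff_C]
    rcases k with _ | _ | k
    · simp
    · simp
    · simp
  have hM : ∀ i j, W (h : ℤ) (((h : ℤ) + n i) + n j) (((X : F[X][X]) • G.map C - B.map C) i j) := by
    intro i j k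
    rw [hentry, hcoef]
    split_ifs with h0 h1
    · subst h0
      have := dle_negp (hB i j)
      rwa [Nat.cast_zero, zero_mul, sub_zero]
    · subst h1
      have := hG i j
      have e : (h : ℤ) + n i + n j - ((1 : ℕ) : ℤ) * h = n i + n j := by
        push_cast
        ring
      rwa [e]
    · exact dle_zero _
  have hdet := lf_detM (h : ℤ) (fun i => (h : ℤ) + n i) n _ hM
  have hsum : ∑ i, ((h : ℤ) + n i) + ∑ i, n i = (m : ℤ) * h := by
    rw [Finset.sum_add_distrib, sum_anti hn, add_zero, add_zero, Finset.sum_const, Finset.card_univ,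
      Fintype.card_fin, nsmul_eq_mul]
  rw [hsum] at hdet
  have hmat : (Matrix.of fun i j => lf (h : ℤ) ((h : ℤ) + n i + n j) (((X : F[X][X]) • G.map C - B.map C) i j)) =
      (X : F[X]) • (topM 0 n G).map C - (topM h n B).map C := by
    ext1 i j
    rw [of_apply, hentry, Matrix.sub_apply, Matrix.smul_apply, map_apply, map_apply, smul_eq_mul]
    ext1 k
    rw [lf_coeff, hcoef, coeff_sub, mul_comm X (C _), coeff_C_mul, coeff_X, coeff_C]
    unfold topM
    rw [of_apply, of_apply]
    rcases k with _ | _ | k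
    · simp [tc_neg]
    · simp only [Nat.reduceAdd, one_ne_zero, if_false, if_true, Nat.cast_one, one_mul, zero_add, mul_one, sub_zero]
      congr 1
      ring
    · simp [tc_zero]
  rw [hmat] at hdet
  have hc' : ((X : F[X][X]) • G.map C - B.map C).det = C G.det * f := hc
  rw [hc', ldf_det hn hG] at hdet
  have hW0 : ∀ a : F, W (h : ℤ) 0 (C (C a) : F[X][X]) := by
    intro a k
    rw [coeff_C]
    split_ifs with hk
    · subst hk
      exact Or.inr (by rw [natDegree_C]; simp)
    · exact dle_zero _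
  have hl0 : ∀ a : F, lf (h : ℤ) 0 (C (C a) : F[X][X]) = C a := by
    intro a
    ext1 k
    rw [lf_coeff, coeff_C, coeff_C]
    split_ifs with hk
    · subst hk
      have := tc_nat 0 (C a : F[X])
      rw [Nat.cast_zero] at this ⊢
      rw [zero_mul, sub_zero, this, coeff_C_zero]
    · exact tc_zero _
  have hmul := lf_mul (hW0 (topM 0 n G).det) hW
  rw [zero_add] at hmul
  rw [hmul, hl0, hL] at hdet
  exact hdet.symm

end Pool.Agent.H40.GC
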