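import Pool.Agent.H40.GC.SYE
import Pool.Agent.H40.GC.LDF
import Pool.Agent.H40.GC.GCN
import Pool.Agent.H40.GC.FMC

set_option autoImplicit false

/-!
# [H40 GC CNB] THEOREM G (MP_1bad5e_ag), chapter CNT: number of the operators for a fixed form, with local conditions

`Rs G T b`: symmetric matrices `B` over a field with `det (x G - B) = det G * f₀` for a monic `f₀ ∈ T` of degree `m`, and
trivial class if `b`.  `LocB k m c T b`: for all symmetric nondegenerate `G` there are at most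
`c * #(mon m T) * |k| ^ (m (m - 1) / 2)` such `B`.

PROOF of `cnb`.  Let `B` be in the set on the left.  For `s : S`: `B.map (φ s) ∈ Rs (G.map (φ s)) (T s) (s ∈ P)`: `f.map (φ s)`
is monic of degree `m` (`Monic.map`, `Monic.natDegree_map`), the equation is `ldf_map`; transposition commutes with
`map`.  At infinity: `topM h n B ∈ Rs (topM 0 n G) T' False`: `lead m h f` is monic of degree `m` (coefficient of `X ^ m`: the
leading coefficient `1` of `f` at `t ^ 0`), the equation is `ldf`; `topM` of a symmetric matrix is symmetric.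
`G.map (φ s)` is symmetric with determinant `φ s (det G) = φ s (C ((-1) ^ (m/2) a ^ 2)) ≠ 0` (the ring homomorphism
`(φ s).comp C` of the field `F` is injective); `topM 0 n G` is symmetric with determinant `≠ 0` (`ldf_det`: `det G = C (det topM)`,
`det G ≠ 0`).  So by `sye` (`d i j = h + n i + n j ≥ N`; a subset of a finite set: the set in `sye` is finite by `dlc_sym`)
the number is at most
`∏ s, (#Rs s / |k s| ^ (m (m-1)/2 + m)) * (#Rs' / q ^ (m (m-1)/2 + m)) * q ^ eB h n`, and `LocB` gives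
`#Rs s / |k s| ^ (m (m-1)/2 + m) ≤ c s * #(mon m (T s)) / |k s| ^ m`, similarly at infinity (`card_ps`; the factors are
nonnegative, `Finset.prod_le_prod`, `Finset.prod_mul_distrib`).
-/

namespace Pool.Agent.H40.GC

open Polynomial Matrix
open Pool.Agent.H3.GG (DLe CharEq TrivC)
open Pool.Agent.H94.GG (Fam lead)

/-- symmetric `B` with `det (x G - B) / det G ∈ T`, and trivial class if `b` -/
def Rs {k : Type} [Field k] {m : ℕ} (G : Matrix (Fin m) (Fin m) k) (T : Set k[X]) (b : Prop) :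
    Set (Matrix (Fin m) (Fin m) k) :=
  {B | Bᵀ = B ∧ (∃ f0 ∈ mon m T, CharE f0 G B) ∧ (b → TrivC G B)}

/-- bound for the local numbers -/
def LocB (k : Type) [Field k] (m : ℕ) (c : ℝ) (T : Set k[X]) (b : Prop) : Prop :=
  ∀ G : Matrix (Fin m) (Fin m) k, Gᵀ = G → G.det ≠ 0 →
    (Nat.card (Rs G T b) : ℝ) ≤ c * Nat.card (mon m T) * (Nat.card k : ℝ) ^ (m * (m - 1) / 2)

/-- the local conditions on a polynomial of the family -/
def FamT {F : Type} [Field F] {S : Type} (k : S → Type) [∀ s, Field (k s)] (φ : ∀ s, F[X] →+* k s)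
    (m h : ℕ) (T : ∀ s, Set (k s)[X]) (T' : Set F[X]) (f : F[X][X]) : Prop :=
  Fam m h f ∧ (∀ s, f.map (φ s) ∈ T s) ∧ lead m h f ∈ T'

/-- density of the local conditions -/
noncomputable def dens {F : Type} [Field F] {S : Type} [Fintype S] (k : S → Type) [∀ s, Field (k s)]
    (m : ℕ) (T : ∀ s, Set (k s)[X]) (T' : Set F[X]) : ℝ :=
  (∏ s, ((Nat.card (mon m (T s)) : ℝ) / (Nat.card (k s) : ℝ) ^ m)) *
    ((Nat.card (mon m T') : ℝ) / (Nat.card F : ℝ) ^ m)

theorem cnb {F : Type} [Field F] [Finite F] {S : Type} [Fintype S] (k : S → Type) [∀ s, Field (k s)]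
    [∀ s, Finite (k s)] (φ : ∀ s, F[X] →+* k s) {N : ℕ} (hN : Eqd k φ N) {m h : ℕ} {n : Fin m → ℤ}
    (hn : ∀ i, n i.rev = - n i) (hh : ∀ i j, (N : ℤ) ≤ h + n i + n j)
    (T : ∀ s, Set (k s)[X]) (T' : Set F[X]) (P : Set S) (c : S → ℝ) (c' : ℝ)
    (hc : ∀ s, LocB (k s) m (c s) (T s) (s ∈ P)) (hc' : LocB F m c' T' False)
    {G : Matrix (Fin m) (Fin m) F[X]} (hG : IsG n G) :
    (Nat.card {B : Matrix (Fin m) (Fin m) F[X] // Bᵀ = B ∧ (∀ i j, DLe (h + n i + n j) (B i j)) ∧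
        (∃ f, FamT k φ m h T T' f ∧ CharEq f G B) ∧
        ∀ s ∈ P, TrivC (G.map (φ s)) (B.map (φ s))} : ℝ) ≤
      (∏ s, c s) * c' * dens k m T T' * (Nat.card F : ℝ) ^ eB h n := by
  classical
  obtain ⟨hGs, hGd, a, ha, hGdet⟩ := hG
  have hsymd : ∀ i j, (fun i j : Fin m => (h : ℤ) + n i + n j) i j =
      (fun i j : Fin m => (h : ℤ) + n i + n j) j i := fun i j => by
    show (h : ℤ) + n i + n j = h + n j + n i
    ring
  have hdet0 : ∀ s, (G.map (φ s)).det ≠ 0 := by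
    intro s
    have h1 : (G.map (φ s)).det = φ s G.det := (RingHom.map_det (φ s) G).symm
    rw [h1, hGdet]
    have h2 : ((φ s).comp C) ((-1) ^ (m / 2) * a ^ 2) ≠ 0 := by
      intro h3
      have h4 := (injective_iff_map_eq_zero ((φ s).comp C)).1 ((φ s).comp C).injective _ h3
      exact mul_ne_zero (pow_ne_zero _ (neg_ne_zero.2 one_ne_zero)) (pow_ne_zero _ ha) h4
    exact h2
  have hsym : ∀ s, (G.map (φ s))ᵀ = G.map (φ s) := fun s => by
    rw [← Matrix.transpose_map, hGs]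
  have htop : (topM 0 n G)ᵀ = topM 0 n G := by
    ext i j
    show tc (0 + n j + n i) (G j i) = tc (0 + n i + n j) (G i j)
    rw [add_right_comm, ← congrFun (congrFun hGs i) j]
    rfl
  have htdet : (topM 0 n G).det ≠ 0 := by
    intro h1
    have h2 := ldf_det hn hGd
    rw [h1, C_0, hGdet, C_eq_zero] at h2
    exact mul_ne_zero (pow_ne_zero _ (neg_ne_zero.2 one_ne_zero)) (pow_ne_zero _ ha) h2
  have hsye := sye k φ hN (fun i j : Fin m => (h : ℤ) + n i + n j) hsymd hh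
    (fun s => Rs (G.map (φ s)) (T s) (s ∈ P)) (Rs (topM 0 n G) T' False)
  -- the target is finite
  have hfin0 : Finite {M : Matrix (Fin m) (Fin m) F[X] // Mᵀ = M ∧ ∀ i j, DLe ((h : ℤ) + n i + n j) (M i j)} := by
    refine Nat.finite_of_card_ne_zero ?_
    rw [dlc_sym F (fun i j : Fin m => (h : ℤ) + n i + n j) hsymd]
    exact pow_ne_zero _ Nat.card_pos.ne'
  have hfin : Finite {B : Matrix (Fin m) (Fin m) F[X] // Bᵀ = B ∧
      (∀ i j, DLe ((h : ℤ) + n i + n j) (B i j)) ∧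
      (∀ s, B.map (φ s) ∈ Rs (G.map (φ s)) (T s) (s ∈ P)) ∧
      (Matrix.of fun i j => tc ((h : ℤ) + n i + n j) (B i j)) ∈ Rs (topM 0 n G) T' False} := by
    refine Finite.of_injective (fun B => (⟨B.1, B.2.1, B.2.2.1⟩ : {M : Matrix (Fin m) (Fin m) F[X] //
      Mᵀ = M ∧ ∀ i j, DLe ((h : ℤ) + n i + n j) (M i j)})) ?_
    intro B B' hBB
    have hB2 := Subtype.ext_iff.1 hBB
    exact Subtype.ext hB2
  have hlead : ∀ f : F[X][X], Fam m h f → (lead m h f).Monic ∧ (lead m h f).natDegree = m := by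
    intro f hf
    have hc1 : ∀ j, (lead m h f).coeff j = if j ≤ m then (f.coeff j).coeff ((m - j) * h) else 0 := by
      intro j
      unfold lead
      rw [finsetSum_coeff]
      have h1 : ∀ i ∈ Finset.range (m + 1), (C ((f.coeff i).coeff ((m - i) * h)) * X ^ i : F[X]).coeff j =
          if j = i then (f.coeff j).coeff ((m - j) * h) else 0 := by
        intro i _
        rw [coeff_C_mul_X_pow]
        by_cases hji : j = i
        · rw [if_pos hji, if_pos hji, hji]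
        · rw [if_neg hji, if_neg hji]
      rw [Finset.sum_congr rfl h1, Finset.sum_ite_eq]
      by_cases hj : j ≤ m
      · rw [if_pos hj, if_pos (Finset.mem_range.2 (by omega))]
      · rw [if_neg hj, if_neg (fun h2 => hj (by have := Finset.mem_range.1 h2; omega))]
    have h1 : (lead m h f).coeff m = 1 := by
      rw [hc1, if_pos le_rfl, Nat.sub_self, zero_mul]
      have h2 : f.coeff m = 1 := by
        rw [← hf.deg]
        exact hf.monic
      rw [h2, coeff_one_zero]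
    have h2 : (lead m h f).natDegree ≤ m := by
      rw [natDegree_le_iff_coeff_eq_zero]
      intro j hj
      rw [hc1, if_neg (by omega)]
    exact ⟨monic_of_natDegree_le_of_coeff_eq_one m h2 h1,
      le_antisymm h2 (le_natDegree_of_ne_zero (by rw [h1]; exact one_ne_zero))⟩
  have hle : Nat.card {B : Matrix (Fin m) (Fin m) F[X] // Bᵀ = B ∧ (∀ i j, DLe (h + n i + n j) (B i j)) ∧
        (∃ f, FamT k φ m h T T' f ∧ CharEq f G B) ∧
        ∀ s ∈ P, TrivC (G.map (φ s)) (B.map (φ s))} ≤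
      Nat.card {B : Matrix (Fin m) (Fin m) F[X] // Bᵀ = B ∧
      (∀ i j, DLe ((h : ℤ) + n i + n j) (B i j)) ∧
      (∀ s, B.map (φ s) ∈ Rs (G.map (φ s)) (T s) (s ∈ P)) ∧
      (Matrix.of fun i j => tc ((h : ℤ) + n i + n j) (B i j)) ∈ Rs (topM 0 n G) T' False} := by
    refine Nat.card_le_card_of_injective (fun B => ⟨B.1, B.2.1, B.2.2.1, ?_, ?_⟩) ?_
    · intro s
      obtain ⟨f, ⟨hf, hfs, _⟩, hc⟩ := B.2.2.2.1
      refine ⟨by rw [← Matrix.transpose_map, B.2.1], ⟨f.map (φ s), ⟨hfs s, hf.monic.map _, ?_⟩,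
        ldf_map (φ s) hc⟩, fun hs => B.2.2.2.2 s hs⟩
      rw [hf.monic.natDegree_map, hf.deg]
    · obtain ⟨f, ⟨hf, _, hft⟩, hc⟩ := B.2.2.2.1
      refine ⟨?_, ⟨lead m h f, ⟨hft, hlead f hf⟩, ldf hn hf hGd B.2.2.1 hc⟩, fun hs => hs.elim⟩
      ext i j
      show tc ((h : ℤ) + n j + n i) (B.1 j i) = tc ((h : ℤ) + n i + n j) (B.1 i j)
      rw [add_right_comm, ← congrFun (congrFun B.2.1 i) j]
      rfl
    · intro B B' hBB
      have hB2 := Subtype.ext_iff.1 hBB
      exact Subtype.ext hB2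
  have hle' : (Nat.card {B : Matrix (Fin m) (Fin m) F[X] // Bᵀ = B ∧ (∀ i j, DLe (h + n i + n j) (B i j)) ∧
        (∃ f, FamT k φ m h T T' f ∧ CharEq f G B) ∧
        ∀ s ∈ P, TrivC (G.map (φ s)) (B.map (φ s))} : ℝ) ≤
      (Nat.card {B : Matrix (Fin m) (Fin m) F[X] // Bᵀ = B ∧
      (∀ i j, DLe ((h : ℤ) + n i + n j) (B i j)) ∧
      (∀ s, B.map (φ s) ∈ Rs (G.map (φ s)) (T s) (s ∈ P)) ∧
      (Matrix.of fun i j => tc ((h : ℤ) + n i + n j) (B i j)) ∈ Rs (topM 0 n G) T' False} : ℝ) := by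
    exact_mod_cast hle
  refine hle'.trans ?_
  rw [hsye]
  have hloc : ∀ (k' : Type) [Field k'] [Finite k'] (c0 : ℝ) (G0 : Matrix (Fin m) (Fin m) k')
      (T0 : Set k'[X]) (b : Prop), LocB k' m c0 T0 b → G0ᵀ = G0 → G0.det ≠ 0 →
      (Nat.card {M : Matrix (Fin m) (Fin m) k' // Mᵀ = M ∧ M ∈ Rs G0 T0 b} : ℝ) /
          (Nat.card k' : ℝ) ^ (ps m).card ≤
        c0 * ((Nat.card (mon m T0) : ℝ) / (Nat.card k' : ℝ) ^ m) := by
    intro k' _ _ c0 G0 T0 b hL h1 h2
    have h3 : Nat.card {M : Matrix (Fin m) (Fin m) k' // Mᵀ = M ∧ M ∈ Rs G0 T0 b} =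
        Nat.card (Rs G0 T0 b) := by
      refine Nat.card_congr (Equiv.subtypeEquivRight fun M => ?_)
      exact ⟨fun h4 => h4.2, fun h4 => ⟨h4.1, h4⟩⟩
    have h4 := hL G0 h1 h2
    have hq : (0 : ℝ) < Nat.card k' := by exact_mod_cast Nat.card_pos
    rw [h3, card_ps, pow_add, div_le_iff₀ (by positivity)]
    refine h4.trans (le_of_eq ?_)
    field_simp
  have hprod : ∏ s, ((Nat.card {M : Matrix (Fin m) (Fin m) (k s) // Mᵀ = M ∧
        M ∈ Rs (G.map (φ s)) (T s) (s ∈ P)} : ℝ) / (Nat.card (k s) : ℝ) ^ (ps m).card) ≤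
      (∏ s, c s) * ∏ s, ((Nat.card (mon m (T s)) : ℝ) / (Nat.card (k s) : ℝ) ^ m) := by
    rw [← Finset.prod_mul_distrib]
    exact Finset.prod_le_prod (fun s _ => by positivity) fun s _ =>
      hloc (k s) (c s) _ (T s) (s ∈ P) (hc s) (hsym s) (hdet0 s)
  have hinf := hloc F c' _ T' False hc' htop htdet
  have h0 : (0 : ℝ) ≤ ∏ s, ((Nat.card {M : Matrix (Fin m) (Fin m) (k s) // Mᵀ = M ∧
        M ∈ Rs (G.map (φ s)) (T s) (s ∈ P)} : ℝ) / (Nat.card (k s) : ℝ) ^ (ps m).card) :=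
    Finset.prod_nonneg fun s _ => by positivity
  have h1 : (∏ s, c s) * c' * dens k m T T' * (Nat.card F : ℝ) ^ eB h n =
      ((∏ s, c s) * ∏ s, ((Nat.card (mon m (T s)) : ℝ) / (Nat.card (k s) : ℝ) ^ m)) *
        (c' * ((Nat.card (mon m T') : ℝ) / (Nat.card F : ℝ) ^ m)) *
        (Nat.card F : ℝ) ^ ∑ p ∈ ps m, ((h : ℤ) + n p.1 + n p.2 + 1).toNat := by
    unfold dens eB
    ring
  rw [h1]
  refine mul_le_mul_of_nonneg_right ?_ (by positivity)
  exact mul_le_mul hprod hinf (by positivity) (h0.trans hprod)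

end Pool.Agent.H40.GC
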