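import Pool.Agent.H40.GC.FMC
import Pool.Agent.H74.FS.PRA
import Pool.Agent.H94.PC.MoMod

set_option autoImplicit false

/-!
# [H40 GC IRC] THEOREM G (MP_1bad5e_ag), chapter CNT: numbers of the reductions of the two types

`Pool.Agent.H74.FS.prn : Nat.card F ^ m ≤ 2 * m * (Pr F m).card` (`Pr F m` = the monic irreducible polynomials of degree
`m`, `Pool.Agent.H94.PC.mem_Pr`), for `1 ≤ m`, `3 ≤ Nat.card F`.

PROOF.  `irc_irr`: `mon m Tirr` is the set `Pr k m`.  `irc_spec`: the map `(c, G) ↦ (X - C c) * G` from `k × Pr k (m - 1)` to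
`mon m Tspec` is well defined (`G` irreducible of degree `m - 1 ≥ 2` has no root: `X - C c ∣ G` would be associated to
`G`) and injective (`c` is the only root of the product; then cancel), so
`#(mon m Tspec) ≥ q * #Pr (m - 1) ≥ q * q ^ (m - 1) / (2 (m - 1)) ≥ q ^ m / (2 m)`.  The set is finite (monic polynomials
of bounded degree, `Pool.Agent.H94.PC.finite_natDegree_le`).
-/

namespace Pool.Agent.H40.GC

open Polynomial

/-- irreducible polynomials -/
def Tirr (k : Type) [Field k] : Set k[X] := {p | Irreducible p}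

/-- (linear) * (irreducible), coprime -/
def Tspec (k : Type) [Field k] : Set k[X] :=
  {p | ∃ (c : k) (G : k[X]), Irreducible G ∧ G.Monic ∧ G.eval c ≠ 0 ∧ p = (X - C c) * G}

theorem finite_mon {k : Type} [Field k] [Finite k] (m : ℕ) (T : Set k[X]) : (mon m T).Finite :=
  (Pool.Agent.H94.PC.finite_Mo k m).subset fun _ hp => ⟨hp.2.1, hp.2.2⟩

theorem card_mon_le {k : Type} [Field k] [Finite k] (m : ℕ) (T : Set k[X]) :
    Nat.card (mon m T) ≤ Nat.card k ^ m := by
  rw [← Pool.Agent.H94.PC.card_Mo (F := k) m, Nat.card_coe_set_eq, ← Set.ncard_coe_finset]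
  refine Set.ncard_le_ncard ?_ (Finset.finite_toSet _)
  intro p hp
  rw [Finset.mem_coe, Pool.Agent.H94.PC.mem_Mo]
  exact ⟨hp.2.1, hp.2.2⟩

theorem irc_irr (k : Type) [Field k] [Finite k] (h3 : 3 ≤ Nat.card k) {m : ℕ} (hm : 3 ≤ m) :
    Nat.card k ^ m ≤ 2 * m * Nat.card (mon m (Tirr k)) := by
  have h1 : mon m (Tirr k) = (Pool.Agent.H94.PC.Pr k m : Set k[X]) := by
    ext p
    rw [Finset.mem_coe, Pool.Agent.H94.PC.mem_Pr]
    constructor
    · rintro ⟨h1, h2, h3⟩
      exact ⟨h2, h3, h1⟩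
    · rintro ⟨h1, h2, h3⟩
      exact ⟨h3, h1, h2⟩
  rw [h1, Nat.card_coe_set_eq, Set.ncard_coe_finset]
  exact Pool.Agent.H74.FS.prn h3 (by omega)

private theorem irc_root {k : Type} [Field k] {G : k[X]} (hi : Irreducible G) {m : ℕ}
    (hd : G.natDegree = m) (hm : 2 ≤ m) (c : k) : G.eval c ≠ 0 := by
  intro h
  have h1 := Polynomial.degree_eq_one_of_irreducible_of_root hi (show IsRoot G c from h)
  have h2 : G.natDegree = 1 := Polynomial.natDegree_eq_of_degree_eq_some h1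
  omega

theorem irc_spec (k : Type) [Field k] [Finite k] (h3 : 3 ≤ Nat.card k) {m : ℕ} (hm : 3 ≤ m) :
    Nat.card k ^ m ≤ 2 * m * Nat.card (mon m (Tspec k)) := by
  have hfin : Finite (mon m (Tspec k)) := (finite_mon m (Tspec k)).to_subtype
  have hmem : ∀ (c : k) (G : Pool.Agent.H94.PC.Pr k (m - 1)), (X - C c) * G.1 ∈ mon m (Tspec k) := by
    intro c G
    obtain ⟨h1, h2, h4⟩ := Pool.Agent.H94.PC.mem_Pr.1 G.2
    refine ⟨⟨c, G.1, h4, h1, irc_root h4 h2 (by omega) c, rfl⟩, (monic_X_sub_C c).mul h1, ?_⟩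
    rw [(monic_X_sub_C c).natDegree_mul h1, natDegree_X_sub_C, h2]
    omega
  have hinj : Function.Injective (fun x : k × Pool.Agent.H94.PC.Pr k (m - 1) =>
      (⟨(X - C x.1) * x.2.1, hmem x.1 x.2⟩ : mon m (Tspec k))) := by
    rintro ⟨c, G⟩ ⟨c', G'⟩ h
    have h1 : (X - C c) * G.1 = (X - C c') * G'.1 := congrArg Subtype.val h
    obtain ⟨-, h2, h4⟩ := Pool.Agent.H94.PC.mem_Pr.1 G'.2
    have h5 := irc_root h4 h2 (by omega) c
    have h6 := congrArg (Polynomial.eval c) h1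
    rw [eval_mul, eval_mul, eval_sub, eval_sub, eval_X, eval_C, eval_C, sub_self, zero_mul] at h6
    have h7 : c = c' := by
      rcases mul_eq_zero.1 h6.symm with h8 | h8
      · exact sub_eq_zero.1 h8
      · exact absurd h8 h5
    subst h7
    have h8 := mul_left_cancel₀ (X_sub_C_ne_zero c) h1
    rw [Prod.mk.injEq]
    exact ⟨rfl, Subtype.ext h8⟩
  have h1 := Nat.card_le_card_of_injective _ hinj
  have h0 : Nat.card (Pool.Agent.H94.PC.Pr k (m - 1)) = (Pool.Agent.H94.PC.Pr k (m - 1)).card := by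
    rw [Nat.card_eq_fintype_card, Fintype.card_coe]
  rw [Nat.card_prod, h0] at h1
  have h2 := Pool.Agent.H74.FS.prn h3 (m := m - 1) (by omega)
  obtain ⟨n, rfl⟩ : ∃ n, m = n + 1 := ⟨m - 1, by omega⟩
  rw [Nat.add_sub_cancel] at h1 h2
  calc Nat.card k ^ (n + 1) = Nat.card k ^ n * Nat.card k := pow_succ _ _
    _ ≤ (2 * n * (Pool.Agent.H94.PC.Pr k n).card) * Nat.card k := Nat.mul_le_mul_right _ h2
    _ = 2 * n * (Nat.card k * (Pool.Agent.H94.PC.Pr k n).card) := by ring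
    _ ≤ 2 * (n + 1) * (Nat.card k * (Pool.Agent.H94.PC.Pr k n).card) :=
        Nat.mul_le_mul_right _ (by omega)
    _ ≤ 2 * (n + 1) * Nat.card (mon (n + 1) (Tspec k)) := Nat.mul_le_mul_left _ h1

end Pool.Agent.H40.GC
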