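import Pool.Agent.H40.GC.DLC
import Pool.Agent.H40.GC.DIA

set_option autoImplicit false

/-!
# [H40 GC ACN] THEOREM G (MP_1bad5e_ag), chapter CNT: lower bound for the order of the group `A_n`

`IsA n P` (`H3/GG/CDefs`): `IsUnit P.det` and `DLe (n j - n i) (P i j)`.

PROOF.
`acn_fin`: a subset of the finite set of `dlc_mat`.
`acn_unit`: by `top_det` with `u = - n`, `v = n`: the determinant of a matrix with `DLe (n j - n i) (P i j)` is the
constant `C (det (tc (n j - n i) (P i j)))` (`top_const`), so it is a unit iff `det (tc ..) ≠ 0`.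
`acn`: write `P = Q + diagonal (C (d i))` with `d i = (P i i).coeff 0` and `Q i i = 0`, `Q i j = P i j` for `i ≠ j`; this is a
bijection between the matrices with `DLe (n j - n i) (P i j)` and the pairs (`Q` with the same bounds and zero diagonal,
`d : Fin m → F`), since `n i - n i = 0`: diagonal entries are constants.  The matrix of the `tc` of `P` is
`M + diagonal d`, `M` the matrix of the `tc` of `Q` (zero diagonal).  By `dia` for each `Q` at least `(q - 1) ^ m` of the `q ^ m`
vectors `d` give `det ≠ 0`, that is `IsA n P`.  The number `N` of the `Q`: `N * q ^ m = q ^ eA n` (`dlc_mat`, the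
bijection).  So `#A_n * q ^ m ≥ N * (q - 1) ^ m * q ^ m = (q - 1) ^ m * q ^ eA n`.
-/

namespace Pool.Agent.H40.GC

open Polynomial Matrix
open Pool.Agent.H3.GG (DLe IsA)

private theorem fin_all (F : Type) [Field F] [Finite F] {m : ℕ} (n : Fin m → ℤ) :
    Finite {P : Matrix (Fin m) (Fin m) F[X] // ∀ i j, DLe (n j - n i) (P i j)} := by
  apply Nat.finite_of_card_ne_zero
  rw [dlc_mat F (fun i j => n j - n i)]
  exact pow_ne_zero _ Nat.card_pos.ne'

private theorem dle_C {F : Type} [Field F] (a : F) : DLe 0 (C a) := by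
  right
  rw [natDegree_C]
  rfl

private theorem dle_z {F : Type} [Field F] (d : ℤ) : DLe d (0 : F[X]) := Or.inl rfl

private theorem tc_C {F : Type} [Field F] (a : F) : tc 0 (C a) = a := by
  unfold tc
  rw [if_pos le_rfl, Int.toNat_zero, coeff_C_zero]

/-- `Q` plus a constant diagonal matrix -/
private noncomputable def ad {F : Type} [Field F] {m : ℕ} (Q : Matrix (Fin m) (Fin m) F[X]) (d : Fin m → F) :
    Matrix (Fin m) (Fin m) F[X] := Q + diagonal fun i => C (d i)

private theorem ad_dle {F : Type} [Field F] {m : ℕ} (n : Fin m → ℤ) {Q : Matrix (Fin m) (Fin m) F[X]}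
    (hQ : ∀ i j, DLe (n j - n i) (Q i j)) (d : Fin m → F) (i j : Fin m) : DLe (n j - n i) (ad Q d i j) := by
  unfold ad
  rw [Matrix.add_apply]
  refine dle_add (hQ i j) ?_
  rw [diagonal_apply]
  split_ifs with h
  · rw [h, sub_self]
    exact dle_C _
  · exact dle_z _

private theorem ad_tc {F : Type} [Field F] {m : ℕ} (n : Fin m → ℤ) (Q : Matrix (Fin m) (Fin m) F[X])
    (d : Fin m → F) : (Matrix.of fun i j => tc (n j - n i) (ad Q d i j)) =
      (Matrix.of fun i j => tc (n j - n i) (Q i j)) + diagonal d := by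
  ext i j
  rw [Matrix.add_apply, of_apply, of_apply]
  unfold ad
  rw [Matrix.add_apply, tc_add]
  congr 1
  rw [diagonal_apply, diagonal_apply]
  split_ifs with h
  · rw [h, sub_self, tc_C]
  · exact tc_zero _

private theorem ad_inj {F : Type} [Field F] {m : ℕ} {Q Q' : Matrix (Fin m) (Fin m) F[X]}
    (hQ : ∀ i, Q i i = 0) (hQ' : ∀ i, Q' i i = 0) {d d' : Fin m → F} (h : ad Q d = ad Q' d') :
    Q = Q' ∧ d = d' := by
  have h1 : d = d' := by
    ext i
    have h2 := congrFun (congrFun h i) i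
    unfold ad at h2
    rw [Matrix.add_apply, Matrix.add_apply, diagonal_apply_eq, diagonal_apply_eq, hQ, hQ', zero_add, zero_add] at h2
    exact C_injective h2
  refine ⟨?_, h1⟩
  rw [h1] at h
  unfold ad at h
  exact add_right_cancel h

/-- the matrices of the type of `P` with zero diagonal -/
private def Qs (F : Type) [Field F] {m : ℕ} (n : Fin m → ℤ) : Type :=
  {Q : Matrix (Fin m) (Fin m) F[X] // (∀ i j, DLe (n j - n i) (Q i j)) ∧ ∀ i, Q i i = 0}

private theorem fin_Q (F : Type) [Field F] [Finite F] {m : ℕ} (n : Fin m → ℤ) : Finite (Qs F n) := by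
  have := fin_all F n
  refine Finite.of_injective (fun Q : Qs F n =>
    (⟨Q.1, Q.2.1⟩ : {P : Matrix (Fin m) (Fin m) F[X] // ∀ i j, DLe (n j - n i) (P i j)})) ?_
  intro Q Q' h
  exact Subtype.ext (Subtype.mk.inj h)

private theorem card_Q (F : Type) [Field F] [Finite F] {m : ℕ} (n : Fin m → ℤ) :
    Nat.card (Qs F n) * Nat.card F ^ m = Nat.card F ^ eA n := by
  have h1 : Nat.card (Qs F n × (Fin m → F)) =
      Nat.card {P : Matrix (Fin m) (Fin m) F[X] // ∀ i j, DLe (n j - n i) (P i j)} := by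
    refine Nat.card_congr (Equiv.ofBijective (fun x => ⟨ad x.1.1 x.2, ad_dle n x.1.2.1 x.2⟩) ⟨?_, ?_⟩)
    · rintro ⟨Q, d⟩ ⟨Q', d'⟩ h
      obtain ⟨h2, h3⟩ := ad_inj Q.2.2 Q'.2.2 (Subtype.mk.inj h)
      exact Prod.ext (Subtype.ext h2) h3
    · rintro ⟨P, hP⟩
      obtain ⟨d, hd⟩ : ∃ d : Fin m → F, d = fun i => tc 0 (P i i) := ⟨_, rfl⟩
      have hdi : ∀ i, P i i = C (d i) := by
        intro i
        rw [hd]
        refine top_const ?_
        have h2 := hP i i
        rwa [sub_self] at h2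
      have hQ : (∀ i j, DLe (n j - n i) ((P - diagonal fun i => C (d i)) i j)) ∧
          ∀ i, (P - diagonal fun i => C (d i)) i i = 0 := by
        have h3 : ∀ i, (P - diagonal fun i => C (d i)) i i = 0 := by
          intro i
          rw [Matrix.sub_apply, diagonal_apply_eq, hdi, sub_self]
        refine ⟨fun i j => ?_, h3⟩
        by_cases hij : i = j
        · rw [← hij, h3]
          exact dle_z _
        · rw [Matrix.sub_apply, diagonal_apply_ne _ hij, sub_zero]
          exact hP i j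
      refine ⟨⟨⟨P - diagonal fun i => C (d i), hQ⟩, d⟩, Subtype.ext ?_⟩
      show P - (diagonal fun i => C (d i)) + (diagonal fun i => C (d i)) = P
      exact sub_add_cancel _ _
  rw [Nat.card_prod, Nat.card_fun, Nat.card_fin, dlc_mat F (fun i j => n j - n i)] at h1
  exact h1

theorem acn_fin (F : Type) [Field F] [Finite F] {m : ℕ} (n : Fin m → ℤ) :
    {P : Matrix (Fin m) (Fin m) F[X] | IsA n P}.Finite := by
  have h1 : {P : Matrix (Fin m) (Fin m) F[X] | ∀ i j, DLe (n j - n i) (P i j)}.Finite := fin_all F n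
  exact h1.subset fun P hP => hP.2

theorem acn_unit {F : Type} [Field F] {m : ℕ} (n : Fin m → ℤ) {P : Matrix (Fin m) (Fin m) F[X]}
    (hP : ∀ i j, DLe (n j - n i) (P i j)) :
    IsUnit P.det ↔ (Matrix.of fun i j => tc (n j - n i) (P i j)).det ≠ 0 := by
  have e : ∀ i j, -n i + n j = n j - n i := fun i j => neg_add_eq_sub _ _
  obtain ⟨h1, h2⟩ := top_det (fun i => -n i) n P fun i j => by
    rw [e]
    exact hP i j
  have h3 : ∑ i, -n i + ∑ i, n i = 0 := by rw [Finset.sum_neg_distrib, neg_add_cancel]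
  simp only [e] at h2
  rw [h3] at h1 h2
  rw [← h2, top_const h1, tc_C]
  constructor
  · intro h4 h5
    rw [h5, C_0] at h4
    exact not_isUnit_zero h4
  · intro h4
    exact isUnit_C.2 (isUnit_iff_ne_zero.2 h4)

theorem acn (F : Type) [Field F] [Finite F] {m : ℕ} (n : Fin m → ℤ) :
    (Nat.card F - 1) ^ m * Nat.card F ^ eA n ≤
      Nat.card {P : Matrix (Fin m) (Fin m) F[X] // IsA n P} * Nat.card F ^ m := by
  classical
  have hfQ := fin_Q F n
  have hFQ : Fintype (Qs F n) := Fintype.ofFinite _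
  have hfA : Finite {P : Matrix (Fin m) (Fin m) F[X] // IsA n P} := acn_fin F n
  let D : Qs F n → Type := fun Q =>
    {d : Fin m → F // ((Matrix.of fun i j => tc (n j - n i) (Q.1 i j)) + diagonal d).det ≠ 0}
  have hA : ∀ (Q : Qs F n) (d : D Q), IsA n (ad Q.1 d.1) := by
    intro Q d
    have h1 := ad_dle n Q.2.1 d.1
    refine ⟨(acn_unit n h1).2 ?_, h1⟩
    rw [ad_tc]
    exact d.2
  have h1 : Nat.card (Σ Q : Qs F n, D Q) ≤ Nat.card {P : Matrix (Fin m) (Fin m) F[X] // IsA n P} := by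
    refine Nat.card_le_card_of_injective
      (fun x => (⟨ad x.1.1 x.2.1, hA x.1 x.2⟩ : {P : Matrix (Fin m) (Fin m) F[X] // IsA n P})) ?_
    rintro ⟨⟨Q, hQ⟩, ⟨d, hd⟩⟩ ⟨⟨Q', hQ'⟩, ⟨d', hd'⟩⟩ h
    obtain ⟨h2, h3⟩ := ad_inj hQ.2 hQ'.2 (Subtype.mk.inj h)
    subst h2
    subst h3
    rfl
  have h2 : Nat.card (Qs F n) * (Nat.card F - 1) ^ m ≤ Nat.card (Σ Q : Qs F n, D Q) := by
    rw [Nat.card_sigma]
    calc Nat.card (Qs F n) * (Nat.card F - 1) ^ m = ∑ _Q : Qs F n, (Nat.card F - 1) ^ m := by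
          rw [Finset.sum_const, Finset.card_univ, smul_eq_mul, Nat.card_eq_fintype_card]
      _ ≤ ∑ Q : Qs F n, Nat.card (D Q) := Finset.sum_le_sum fun Q _ => dia m _
  calc (Nat.card F - 1) ^ m * Nat.card F ^ eA n
      = Nat.card (Qs F n) * (Nat.card F - 1) ^ m * Nat.card F ^ m := by
        rw [← card_Q F n]
        ring
    _ ≤ _ := Nat.mul_le_mul_right _ (h2.trans h1)

end Pool.Agent.H40.GC
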