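import Pool.Agent.H40.GC.NDf

set_option autoImplicit false

/-!
# [H40 GC EXI] THEOREM G (MP_1bad5e_ag), chapter CNT: the exponent

PROOF (write `x⁺ = max x 0 = (x.toNat : ℤ)`, `x⁺ = x + (-x)⁺`; sums over `i`, `j` in `Fin m`; `r = Fin.rev`).
1. `∑_(i,j) (n_j - n_i + 1)⁺ = ∑_(i,j) (n_j + n_i + 1)⁺` (reindex `i ↦ r i` with `hn`; `Fin.revPerm`)
   `= ∑_(i≤j) (n_i + n_j + 1)⁺ + ∑_(i<j) (n_i + n_j + 1)⁺` (the pairs `i > j` are the swapped pairs `i < j`).
2. So `eG + eB - eA = ∑_(i≤j) (h + n_i + n_j + 1)⁺ - ∑_(i<j) (n_i + n_j + 1)⁺`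
   `= ∑_(i≤j) (h + n_i + n_j + 1) + ∑_(i≤j) (-n_i - n_j - h - 1)⁺ - ∑_(i<j) (n_i + n_j + 1)⁺`.
3. `∑_(i≤j) (h + n_i + n_j + 1) = Mh m h + #{i < j}`: `∑_(i≤j) (n_i + n_j) = 0`, because the involution
   `(i, j) ↦ (r j, r i)` of the set `ps m` changes the sign of `n_i + n_j` (`Finset.sum_involution` or
   `2 x = 0`); `#ps m = m + #pl m` (diagonal), and `∑ i : Fin m, ((m - i) * h + 1) = h * #ps m + m`, because the number of the
   `j` with `i ≤ j` is `m - i` (`Fin.card_Ici`).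
4. Let `ψ x = 1 - (x + 1)⁺ + (x - 1)⁺`: it is `-1` for `x ≥ 1`, `0` for `x = 0`, `1` for `x ≤ -1` (integers), so
   `ψ (-x) = - ψ x`, and `∑_(i<j) ψ (n_i + n_j) = 0` by the involution `(i, j) ↦ (r j, r i)` of `pl m`. Hence
   `#pl m - ∑_(i<j) (n_i + n_j + 1)⁺ = - ∑_(i<j) (n_i + n_j - 1)⁺`.
   Together: the claim.  (Checked by computer for `m ≤ 7`.)
-/

namespace Pool.Agent.H40.GC

private def tau (m : ℕ) (p : Fin m × Fin m) : Fin m × Fin m := (p.2.rev, p.1.rev)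

private lemma tau_tau (m : ℕ) (p : Fin m × Fin m) : tau m (tau m p) = p := by
  unfold tau
  simp

private lemma inv_ps {m : ℕ} (n : Fin m → ℤ) (hn : ∀ i, n i.rev = - n i) (F : ℤ → ℤ) :
    ∑ p ∈ ps m, F (n p.1 + n p.2) = ∑ p ∈ ps m, F (-(n p.1 + n p.2)) := by
  refine Finset.sum_nbij' (tau m) (tau m) ?_ ?_ ?_ ?_ ?_
  · intro p hp
    unfold ps tau at *
    simp only [Finset.mem_filter, Finset.mem_univ, true_and] at hp ⊢
    exact Fin.rev_le_rev.2 hp
  · intro p hp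
    unfold ps tau at *
    simp only [Finset.mem_filter, Finset.mem_univ, true_and] at hp ⊢
    exact Fin.rev_le_rev.2 hp
  · intro p _
    exact tau_tau m p
  · intro p _
    exact tau_tau m p
  · intro p _
    unfold tau
    simp only [hn]
    congr 1
    ring

private lemma inv_pl {m : ℕ} (n : Fin m → ℤ) (hn : ∀ i, n i.rev = - n i) (F : ℤ → ℤ) :
    ∑ p ∈ pl m, F (n p.1 + n p.2) = ∑ p ∈ pl m, F (-(n p.1 + n p.2)) := by
  refine Finset.sum_nbij' (tau m) (tau m) ?_ ?_ ?_ ?_ ?_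
  · intro p hp
    unfold pl tau at *
    simp only [Finset.mem_filter, Finset.mem_univ, true_and] at hp ⊢
    exact Fin.rev_lt_rev.2 hp
  · intro p hp
    unfold pl tau at *
    simp only [Finset.mem_filter, Finset.mem_univ, true_and] at hp ⊢
    exact Fin.rev_lt_rev.2 hp
  · intro p _
    exact tau_tau m p
  · intro p _
    exact tau_tau m p
  · intro p _
    unfold tau
    simp only [hn]
    congr 1
    ring

private lemma card_ps (m : ℕ) : (ps m).card = ∑ i : Fin m, (m - (i : ℕ)) := by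
  unfold ps
  rw [Finset.card_filter, Fintype.sum_prod_type]
  refine Finset.sum_congr rfl fun i _ => ?_
  rw [← Finset.card_filter, ← Fin.card_Ici]
  congr 1
  ext j
  simp

private lemma card_pl (m : ℕ) : (pl m).card = ∑ i : Fin m, (m - 1 - (i : ℕ)) := by
  unfold pl
  rw [Finset.card_filter, Fintype.sum_prod_type]
  refine Finset.sum_congr rfl fun i _ => ?_
  rw [← Finset.card_filter, ← Fin.card_Ioi]
  congr 1
  ext j
  simp

private lemma card_ps_pl (m : ℕ) : (ps m).card = (pl m).card + m := by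
  rw [card_ps, card_pl]
  have h1 : ∑ i : Fin m, (m - (i : ℕ)) = ∑ i : Fin m, ((m - 1 - (i : ℕ)) + 1) := by
    refine Finset.sum_congr rfl fun i _ => ?_
    have := i.2
    omega
  rw [h1, Finset.sum_add_distrib]
  simp

private lemma Mh_eq (m h : ℕ) : Mh m h = h * (ps m).card + m := by
  unfold Mh
  rw [card_ps, Finset.sum_add_distrib, ← Finset.sum_mul, mul_comm]
  simp

private lemma all_pairs {m : ℕ} (G : Fin m × Fin m → ℤ) (hG : ∀ i j, G (i, j) = G (j, i)) :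
    ∑ p, G p = ∑ p ∈ ps m, G p + ∑ p ∈ pl m, G p := by
  rw [← Finset.sum_filter_add_sum_filter_not Finset.univ (fun p : Fin m × Fin m => p.1 ≤ p.2)]
  congr 1
  refine Finset.sum_nbij' Prod.swap Prod.swap ?_ ?_ ?_ ?_ ?_
  · intro p hp
    unfold pl
    simp only [Finset.mem_filter, Finset.mem_univ, true_and, not_le] at hp ⊢
    exact hp
  · intro p hp
    unfold pl at hp
    simp only [Finset.mem_filter, Finset.mem_univ, true_and, not_le] at hp ⊢
    exact hp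
  · intro p _
    exact Prod.swap_swap p
  · intro p _
    exact Prod.swap_swap p
  · rintro ⟨i, j⟩ _
    exact hG i j

private lemma eA_eq {m : ℕ} (n : Fin m → ℤ) (hn : ∀ i, n i.rev = - n i) :
    (eA n : ℤ) = ∑ p ∈ ps m, ((n p.1 + n p.2 + 1).toNat : ℤ) + ∑ p ∈ pl m, ((n p.1 + n p.2 + 1).toNat : ℤ) := by
  rw [← all_pairs (fun p => ((n p.1 + n p.2 + 1).toNat : ℤ)) (fun i j => by
    show ((n i + n j + 1).toNat : ℤ) = ((n j + n i + 1).toNat : ℤ)
    rw [add_comm (n i)])]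
  unfold eA
  rw [Nat.cast_sum]
  refine Finset.sum_nbij' (fun p => (p.1.rev, p.2)) (fun p => (p.1.rev, p.2)) ?_ ?_ ?_ ?_ ?_
  · intro p _
    exact Finset.mem_univ _
  · intro p _
    exact Finset.mem_univ _
  · intro p _
    simp
  · intro p _
    simp
  · intro p _
    show ((n p.2 - n p.1 + 1).toNat : ℤ) = ((n p.1.rev + n p.2 + 1).toNat : ℤ)
    rw [hn]
    congr 2
    ring

theorem exi {m : ℕ} (n : Fin m → ℤ) (hn : ∀ i, n i.rev = - n i) (h : ℕ) :
    (eG n : ℤ) + eB h n - eA n - Mh m h = Ee h n := by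
  rw [eA_eq n hn, Mh_eq]
  unfold eG eB Ee
  rw [Nat.cast_sum, Nat.cast_sum]
  have h1 : ∑ p ∈ ps m, (((h : ℤ) + n p.1 + n p.2 + 1).toNat : ℤ) =
      ∑ p ∈ ps m, ((h : ℤ) + 1) + ∑ p ∈ ps m, (n p.1 + n p.2) + ∑ p ∈ ps m, ((- n p.1 - n p.2 - h - 1).toNat : ℤ) := by
    rw [← Finset.sum_add_distrib, ← Finset.sum_add_distrib]
    refine Finset.sum_congr rfl fun p _ => ?_
    omega
  have h2 : ∑ p ∈ ps m, (n p.1 + n p.2) = 0 := by
    have h3 := inv_ps n hn (fun x => x)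
    rw [Finset.sum_neg_distrib] at h3
    linarith
  have h4 : ∑ p ∈ pl m, (1 - ((n p.1 + n p.2 + 1).toNat : ℤ) + ((n p.1 + n p.2 - 1).toNat : ℤ)) = 0 := by
    have h3 := inv_pl n hn (fun x => 1 - ((x + 1).toNat : ℤ) + ((x - 1).toNat : ℤ))
    have h5 : ∑ p ∈ pl m, (1 - ((-(n p.1 + n p.2) + 1).toNat : ℤ) + ((-(n p.1 + n p.2) - 1).toNat : ℤ)) =
        - ∑ p ∈ pl m, (1 - ((n p.1 + n p.2 + 1).toNat : ℤ) + ((n p.1 + n p.2 - 1).toNat : ℤ)) := by
      rw [← Finset.sum_neg_distrib]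
      refine Finset.sum_congr rfl fun p _ => ?_
      omega
    have h6 := h3.trans h5
    have h7 : ∑ p ∈ pl m, (1 - ((n p.1 + n p.2 + 1).toNat : ℤ) + ((n p.1 + n p.2 - 1).toNat : ℤ)) =
      - ∑ p ∈ pl m, (1 - ((n p.1 + n p.2 + 1).toNat : ℤ) + ((n p.1 + n p.2 - 1).toNat : ℤ)) := h6
    linarith
  rw [Finset.sum_add_distrib, Finset.sum_sub_distrib] at h4
  rw [h1, h2, Finset.sum_const, card_ps_pl]
  rw [Finset.sum_const] at h4
  simp only [nsmul_eq_mul] at h4 ⊢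
  push_cast at h4 ⊢
  linarith

/-- the second sum with the opposite signs -/
theorem ext {m : ℕ} (n : Fin m → ℤ) (hn : ∀ i, n i.rev = - n i) (h : ℕ) :
    Ee h n = ∑ p ∈ ps m, ((- n p.1 - n p.2 - h - 1).toNat : ℤ) -
      ∑ p ∈ pl m, ((- n p.1 - n p.2 - 1).toNat : ℤ) := by
  unfold Ee
  congr 1
  have h3 := inv_pl n hn (fun x => ((x - 1).toNat : ℤ))
  refine h3.trans ?_
  refine Finset.sum_congr rfl fun p _ => ?_
  show ((-(n p.1 + n p.2) - 1).toNat : ℤ) = _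
  congr 2
  ring

end Pool.Agent.H40.GC
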