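import Pool.Agent.H40.GC.CNP
import Pool.Agent.H40.GC.ACN
import Pool.Agent.H40.GC.EXI

set_option autoImplicit false

/-!
# [H40 GC NUM] THEOREM G (MP_1bad5e_ag), chapter CNT: the share of one type

`nA n` = order of `A_n`.

PROOF.  Let `q = |F| ≥ 3` (odd), `x = q` real.  `acn` (module ACN): `(q - 1) ^ m * q ^ eA ≤ nA * q ^ m`, so
`nA ≥ (1 - 1/q) ^ m * q ^ eA > 0`.  With `exi`: `eG + eB = eA + Mh + Ee` in `ℤ`, so
`q ^ (eG + eB) = q ^ eA * q ^ Mh * q ^ Ee` (`zpow_add₀`, `zpow_natCast`).  Divide `cnp_all`, `cnp` by `nA`.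
-/

namespace Pool.Agent.H40.GC

open Polynomial Matrix
open Pool.Agent.H3.GG (DLe CharEq TrivC IsGB IsA)

/-- order of `A_n` -/
noncomputable def nA (F : Type) [Field F] {m : ℕ} (n : Fin m → ℤ) : ℕ :=
  Nat.card {P : Matrix (Fin m) (Fin m) F[X] // IsA n P}

private theorem q_two (F : Type) [Field F] [Finite F] : 2 ≤ Nat.card F := by
  have := Finite.one_lt_card (α := F)
  omega

theorem nA_pos (F : Type) [Field F] [Finite F] (h2 : (2 : F) ≠ 0) {m : ℕ} (n : Fin m → ℤ) : 0 < nA F n := by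
  have hq := q_two F
  have h1 : (Nat.card F - 1) ^ m * Nat.card F ^ eA n ≤ nA F n * Nat.card F ^ m := acn F n
  have h3 : 0 < (Nat.card F - 1) ^ m * Nat.card F ^ eA n :=
    Nat.mul_pos (pow_pos (by omega) _) (pow_pos (by omega) _)
  rcases Nat.eq_zero_or_pos (nA F n) with h | h
  · rw [h, Nat.zero_mul] at h1
    omega
  · exact h

/-- the division by the order of the group -/
private theorem div_nA (F : Type) [Field F] [Finite F] (h2 : (2 : F) ≠ 0) {m : ℕ} (h : ℕ) (n : Fin m → ℤ)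
    (hn : ∀ i, n i.rev = - n i) {M x : ℝ} (hM : 0 ≤ M)
    (hx : x ≤ M * (Nat.card F : ℝ) ^ (eG n + eB h n)) :
    x / nA F n ≤ (1 - 1 / (Nat.card F : ℝ))⁻¹ ^ m * M * (Nat.card F : ℝ) ^ Mh m h *
      (Nat.card F : ℝ) ^ Ee h n := by
  have hq := q_two F
  have hA := nA_pos F h2 n
  have h1 : (Nat.card F - 1) ^ m * Nat.card F ^ eA n ≤ nA F n * Nat.card F ^ m := acn F n
  obtain ⟨q, hqd⟩ : ∃ q : ℝ, q = (Nat.card F : ℝ) := ⟨_, rfl⟩
  have hq2 : (2 : ℝ) ≤ q := by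
    rw [hqd]
    exact_mod_cast hq
  have hq0 : (0 : ℝ) < q := by linarith
  have h3 : (q - 1) ^ m * q ^ eA n ≤ (nA F n : ℝ) * q ^ m := by
    have h4 : (((Nat.card F - 1) ^ m * Nat.card F ^ eA n : ℕ) : ℝ) ≤ ((nA F n * Nat.card F ^ m : ℕ) : ℝ) := by
      exact_mod_cast h1
    rw [Nat.cast_mul, Nat.cast_mul, Nat.cast_pow, Nat.cast_pow, Nat.cast_pow,
      Nat.cast_sub (by omega), Nat.cast_one, ← hqd] at h4
    exact h4
  rw [← hqd] at hx ⊢
  have hr : (0 : ℝ) < 1 - 1 / q := by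
    have : 1 / q ≤ 1 / 2 := one_div_le_one_div_of_le (by norm_num) hq2
    linarith
  have h5 : (1 - 1 / q) ^ m * q ^ eA n ≤ (nA F n : ℝ) := by
    have h6 : q ^ m * ((1 - 1 / q) ^ m * q ^ eA n) ≤ q ^ m * (nA F n : ℝ) := by
      calc q ^ m * ((1 - 1 / q) ^ m * q ^ eA n) = (q * (1 - 1 / q)) ^ m * q ^ eA n := by
            rw [mul_pow]
            ring
        _ = (q - 1) ^ m * q ^ eA n := by
            congr 2
            field_simp
        _ ≤ (nA F n : ℝ) * q ^ m := h3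
        _ = q ^ m * (nA F n : ℝ) := mul_comm _ _
    exact le_of_mul_le_mul_left h6 (pow_pos hq0 m)
  have hA' : (0 : ℝ) < (nA F n : ℝ) := by exact_mod_cast hA
  have hP : (0 : ℝ) < (1 - 1 / q) ^ m * q ^ eA n := mul_pos (pow_pos hr _) (pow_pos hq0 _)
  have hE : q ^ (eG n + eB h n) = q ^ eA n * q ^ Mh m h * q ^ Ee h n := by
    have h7 := exi n hn h
    rw [← zpow_natCast, ← zpow_natCast, ← zpow_natCast, ← zpow_add₀ hq0.ne', ← zpow_add₀ hq0.ne']
    congr 1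
    push_cast
    linarith
  rw [div_le_iff₀ hA']
  have hZ : (0 : ℝ) < q ^ Ee h n := zpow_pos hq0 _
  calc x ≤ M * q ^ (eG n + eB h n) := hx
    _ = (1 - 1 / q)⁻¹ ^ m * M * q ^ Mh m h * q ^ Ee h n * ((1 - 1 / q) ^ m * q ^ eA n) := by
        rw [hE, inv_pow]
        have h9 := (pow_pos hr m).ne'
        generalize (1 - 1 / q) ^ m = r at h9 ⊢
        field_simp
    _ ≤ (1 - 1 / q)⁻¹ ^ m * M * q ^ Mh m h * q ^ Ee h n * (nA F n : ℝ) := by
        refine mul_le_mul_of_nonneg_left h5 ?_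
        have h8 : (0 : ℝ) ≤ (1 - 1 / q)⁻¹ ^ m := pow_nonneg (inv_nonneg.2 hr.le) _
        positivity

theorem num_all (F : Type) [Field F] [Finite F] (h2 : (2 : F) ≠ 0) {m : ℕ} (hm : Odd m) (h : ℕ)
    (n : Fin m → ℤ) (hn : ∀ i, n i.rev = - n i) :
    2 * (Nat.card {p : Matrix (Fin m) (Fin m) F[X] × Matrix (Fin m) (Fin m) F[X] //
        IsGB h n p.1 p.2} : ℝ) / nA F n ≤
      (1 - 1 / (Nat.card F : ℝ))⁻¹ ^ m * (Nat.card F : ℝ) ^ Mh m h * (Nat.card F : ℝ) ^ Ee h n := by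
  have h1 := cnp_all F h2 hm h n
  have h3 := div_nA F h2 h n hn (M := 1) (x := 2 * (Nat.card {p : Matrix (Fin m) (Fin m) F[X] ×
    Matrix (Fin m) (Fin m) F[X] // IsGB h n p.1 p.2} : ℝ)) zero_le_one (by
      rw [one_mul]
      exact_mod_cast h1)
  rw [mul_one] at h3
  exact h3

theorem num {F : Type} [Field F] [Finite F] (h2 : (2 : F) ≠ 0) {S : Type} [Fintype S] (k : S → Type)
    [∀ s, Field (k s)] [∀ s, Finite (k s)] (φ : ∀ s, F[X] →+* k s) {N : ℕ} (hN : Eqd k φ N)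
    {m h : ℕ} (hm : Odd m) {n : Fin m → ℤ}
    (hn : ∀ i, n i.rev = - n i) (hh : ∀ i j, (N : ℤ) ≤ h + n i + n j)
    (T : ∀ s, Set (k s)[X]) (T' : Set F[X]) (P : Set S) (c : S → ℝ) (c' : ℝ) (hc0 : ∀ s, 0 ≤ c s)
    (hc0' : 0 ≤ c')
    (hc : ∀ s, LocB (k s) m (c s) (T s) (s ∈ P)) (hc' : LocB F m c' T' False) :
    2 * (Nat.card (Prs k φ h n T T' P) : ℝ) / nA F n ≤
      (1 - 1 / (Nat.card F : ℝ))⁻¹ ^ m * ((∏ s, c s) * c') *
        (dens k m T T' * (Nat.card F : ℝ) ^ Mh m h) * (Nat.card F : ℝ) ^ Ee h n := by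
  have h1 := cnp h2 k φ hN hm hn hh T T' P c c' hc0 hc0' hc hc'
  have hd : 0 ≤ dens k m T T' := by
    unfold dens
    refine mul_nonneg (Finset.prod_nonneg fun s _ => ?_) ?_
    · positivity
    · positivity
  have h3 := div_nA F h2 h n hn (M := (∏ s, c s) * c' * dens k m T T')
    (mul_nonneg (mul_nonneg (Finset.prod_nonneg fun s _ => hc0 s) hc0') hd) h1
  refine h3.trans (le_of_eq ?_)
  ring

end Pool.Agent.H40.GC
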