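import Pool.Agent.H40.GC.NDf

set_option autoImplicit false

/-!
# [H40 GC TYS] THEOREM G (MP_1bad5e_ag), chapter CNT: the finite set of the types

PROOF.  `n_g = 0` (`n (rev g) = - n g` and `rev g = g`), `- n_0 = n_g - n_0 = ∑_(i<g) (n_(i+1) - n_i) ≤ g h`
(induction), so `0 ≤ - n_0 ≤ g h`; `n_0 ≤ n_i ≤ n_(2g) = - n_0` (monotone).  So `|n_i| ≤ - n_0 ≤ g h`.
`tys_inj`: `n` is determined by `n_0, …, n_(g-1)`: for `i > g`: `n_i = - n_(rev i)`, `rev i < g`; `n_g = 0`; and
`n_i ≤ 0` for `i < g`, so `n_i = - (toNat (- n_i))`.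
-/

namespace Pool.Agent.H40.GC

/-- the middle entry is zero -/
theorem typ_mid {g h : ℕ} {n : Fin (2 * g + 1) → ℤ} (hn : IsType g h n) : n ⟨g, by omega⟩ = 0 := by
  have := hn.anti ⟨g, by omega⟩
  have hr : Fin.rev (⟨g, by omega⟩ : Fin (2 * g + 1)) = ⟨g, by omega⟩ := by
    ext
    simp only [Fin.val_rev]
    omega
  rw [hr] at this
  omega

theorem typ_zero_le {g h : ℕ} {n : Fin (2 * g + 1) → ℤ} (hn : IsType g h n) (i : Fin (2 * g + 1)) :
    n 0 ≤ n i := hn.mono (Fin.zero_le i)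

theorem typ_le {g h : ℕ} {n : Fin (2 * g + 1) → ℤ} (hn : IsType g h n) (i : Fin (2 * g + 1)) :
    n i ≤ - n 0 := by
  have hlast : n (Fin.last (2 * g)) = - n 0 := by
    have := hn.anti 0
    rwa [Fin.rev_zero] at this
  have := hn.mono (Fin.le_last i)
  rwa [hlast] at this

theorem typ_growth {g h : ℕ} {n : Fin (2 * g + 1) → ℤ} (hn : IsType g h n) (k : ℕ) (hk : k < 2 * g + 1) :
    n ⟨k, hk⟩ - n 0 ≤ (k : ℤ) * h := by
  induction k with
  | zero => simp
  | succ k ih =>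
    have h1 := ih (by omega)
    have h2 := hn.gap ⟨k, by omega⟩
    have e1 : Fin.succ (⟨k, by omega⟩ : Fin (2 * g)) = ⟨k + 1, hk⟩ := rfl
    have e2 : Fin.castSucc (⟨k, by omega⟩ : Fin (2 * g)) = ⟨k, by omega⟩ := rfl
    rw [e1, e2] at h2
    push_cast
    linarith

theorem typ_bd {g h : ℕ} {n : Fin (2 * g + 1) → ℤ} (hn : IsType g h n) :
    (∀ i, |n i| ≤ - n 0) ∧ - n 0 ≤ (g : ℤ) * h := by
  constructor
  · intro i
    rw [abs_le]
    have h1 := typ_zero_le hn i
    have h2 := typ_le hn i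
    constructor <;> omega
  · have h1 := typ_growth hn g (by omega)
    rw [typ_mid hn] at h1
    linarith

theorem mem_tys {g h : ℕ} {n : Fin (2 * g + 1) → ℤ} : n ∈ tys g h ↔ IsType g h n := by
  classical
  unfold tys
  rw [Finset.mem_filter, Fintype.mem_piFinset]
  constructor
  · exact fun h => h.2
  · intro hn
    refine ⟨fun i => ?_, hn⟩
    rw [Finset.mem_Icc]
    have h1 := (typ_bd hn).1 i
    have h2 := (typ_bd hn).2
    rw [abs_le] at h1
    constructor <;> linarith [h1.1, h1.2]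

/-- the absolute values of the first half of the type -/
def ah {g : ℕ} (n : Fin (2 * g + 1) → ℤ) (i : Fin g) : ℕ := (- n ⟨i, by omega⟩).toNat

theorem ah_eq {g h : ℕ} {n : Fin (2 * g + 1) → ℤ} (hn : IsType g h n) (i : ℕ) (hi : i < g) :
    n ⟨i, by omega⟩ = - (ah n ⟨i, hi⟩ : ℤ) := by
  have h1 : n ⟨i, by omega⟩ ≤ n ⟨g, by omega⟩ := by
    apply hn.mono
    rw [Fin.le_def]
    simp only
    omega
  rw [typ_mid hn] at h1
  unfold ah
  simp only
  omega

theorem ah_inj {g h h' : ℕ} {n n' : Fin (2 * g + 1) → ℤ} (hn : IsType g h n) (hn' : IsType g h' n')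
    (he : ah n = ah n') : n = n' := by
  have key : ∀ (i : ℕ) (hi : i < 2 * g + 1), i < g → n ⟨i, hi⟩ = n' ⟨i, hi⟩ := by
    intro i hi hig
    rw [ah_eq hn i hig, ah_eq hn' i hig, he]
  funext i
  obtain ⟨i, hi⟩ := i
  rcases lt_trichotomy i g with h1 | h1 | h1
  · exact key i hi h1
  · subst h1
    rw [typ_mid hn, typ_mid hn']
  · have hr : (⟨i, hi⟩ : Fin (2 * g + 1)) = Fin.rev ⟨2 * g - i, by omega⟩ := by
      ext
      simp only [Fin.val_rev]
      omega
    rw [hr, hn.anti, hn'.anti, key (2 * g - i) (by omega) (by omega)]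

/-- all entries of the first half are at most the first one -/
theorem ah_le {g h : ℕ} {n : Fin (2 * g + 1) → ℤ} (hn : IsType g h n) (i : Fin g) : (ah n i : ℤ) ≤ - n 0 := by
  have h1 := ah_eq hn i i.isLt
  have h2 := typ_zero_le hn ⟨i, by omega⟩
  have h3 : (⟨(i : ℕ), i.isLt⟩ : Fin g) = i := rfl
  rw [h3] at h1
  linarith

/-- number of the types -/
theorem card_tys (g h : ℕ) : (tys g h).card ≤ (g * h + 1) ^ g := by
  classical
  have hc : (Fintype.piFinset fun _ : Fin g => Finset.range (g * h + 1)).card = (g * h + 1) ^ g := by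
    rw [Fintype.card_piFinset]
    simp
  rw [← hc]
  refine Finset.card_le_card_of_injOn ah ?_ ?_
  · intro n hn
    have hn' := mem_tys.1 (Finset.mem_coe.1 hn)
    rw [Finset.mem_coe, Fintype.mem_piFinset]
    intro i
    rw [Finset.mem_range]
    have h1 := ah_le hn' i
    have h2 := (typ_bd hn').2
    have h3 : ((ah n i : ℕ) : ℤ) ≤ ((g * h : ℕ) : ℤ) := by
      push_cast
      linarith
    have h4 : ah n i ≤ g * h := by exact_mod_cast h3
    omega
  · intro n hn n' hn' he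
    exact ah_inj (mem_tys.1 (Finset.mem_coe.1 hn)) (mem_tys.1 (Finset.mem_coe.1 hn')) he

end Pool.Agent.H40.GC
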