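import Pool.Agent.H40.GC.PLC
import Pool.Agent.H40.GC.NUM
import Pool.Agent.H40.GC.TYS

set_option autoImplicit false

/-!
# [H40 GC CLS] THEOREM G (MP_1bad5e_ag), chapter CNT: number of the classes of one polynomial

`LatO g h f` is the output of the chapter LAT for one polynomial `f` (`GBs`, `HasTy`, `IsTy`, `IsA` of `H3/GG/CDefs`).

PROOF of `cls_bd`.  For `x ∈ Cls f Q` choose a unit `δ x` with `x = mk (δ x)` and the properties in `Cls`, and a type
`n x` from `hL.type`; `IsType g h (n x)` (the fields `mono`, `anti`, `gap`, `top`; the last one as `δ x` is not a square), so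
`n x ∈ tys g h` (`mem_tys`).  Let `n` be fixed and `Y` a finite subset of `{x ∈ Cls f Q | n x = n}`.  The map
`x ↦ (δ x : AdjoinRoot (overK f))` is injective on `Y`; for `x ≠ y` in `Y` the product `δ x * δ y` is not a square: if
`δ x * δ y = z * z` then `z` is a unit (`δ x`, `δ y` are units: `isUnit_of_mul_isUnit_left`) and
`δ x = δ y * (z * (δ y)⁻¹) ^ 2`, so `x = y`.  So `hL.count` for `S` = image of `Y` gives
`Y.card * nA F n ≤ 2 * (GBs f h n Q).ncard`, `nA F n > 0` (`nA_pos`).  So the cardinalities of the finite subsets `Y` are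
bounded, the set is finite (`Set.infinite_iff...`: an infinite set has subsets of every cardinality,
`Set.Infinite.exists_subset_card_eq`), and its `ncard` is `≤ 2 * (GBs f h n Q).ncard / nA F n`.  `Cls f Q` is the union over
`n ∈ tys g h` (`Set.Finite.biUnion`, `Finset.card_biUnion_le`, or sum over the fibres).
-/

namespace Pool.Agent.H40.GC

open Polynomial IsDedekindDomain Matrix
open Pool.Agent.H80.CC.Plane (overK overKv toL toLv)
open Pool.Agent.H3.GG (DLe CharEq TrivC IsGB IsA GBs IsTy HasTy)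
open Pool.Agent.H94.GG (Fam lead Special Harmless Smooth IsS0 SqAt)

variable {F : Type} [Field F]

/-- the classes different from the trivial one, with even divisor and norm a square, which are squares at the places in `Q` -/
def Cls (f : F[X][X]) (Q : Set (HeightOneSpectrum F[X])) :
    Set ((AdjoinRoot (overK f))ˣ ⧸
      (powMonoidHom 2 : (AdjoinRoot (overK f))ˣ →* (AdjoinRoot (overK f))ˣ).range) :=
  {x | ∃ δ : (AdjoinRoot (overK f))ˣ, x = QuotientGroup.mk δ ∧ IsS0 f (δ : AdjoinRoot (overK f)) ∧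
    ¬ IsSquare (δ : AdjoinRoot (overK f)) ∧ ∀ v ∈ Q, SqAt f v (δ : AdjoinRoot (overK f))}

/-- the output of the chapter LAT -/
structure LatO (g h : ℕ) (f : F[X][X]) : Prop where
  type : ∀ δ, IsS0 f δ → ∃ n : Fin (2 * g + 1) → ℤ, IsTy n ∧ HasTy f h n δ ∧
    (∀ i : Fin (2 * g), n i.succ - n i.castSucc ≤ h) ∧
    (¬ IsSquare δ → ∀ i : Fin (2 * g + 1), (i : ℕ) + 1 = g → - (h : ℤ) ≤ 2 * n i)
  count : ∀ n : Fin (2 * g + 1) → ℤ, IsTy n → ∀ V : Set (HeightOneSpectrum F[X]),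
    (∀ v ∈ V, Squarefree (f.map (Ideal.Quotient.mk v.asIdeal))) →
    ∀ S : Finset (AdjoinRoot (overK f)),
      (∀ δ ∈ S, IsS0 f δ ∧ HasTy f h n δ ∧ ∀ v ∈ V, SqAt f v δ) →
      (∀ δ ∈ S, ∀ δ' ∈ S, δ ≠ δ' → ¬ IsSquare (δ * δ')) →
      S.card * Nat.card {P : Matrix (Fin (2 * g + 1)) (Fin (2 * g + 1)) F[X] // IsA n P} ≤
        2 * (GBs f h n V).ncard

theorem cls_bd [Finite F] (h2 : (2 : F) ≠ 0) {g h : ℕ} {f : F[X][X]} (hL : LatO g h f)
    (Q : Set (HeightOneSpectrum F[X])) (hQ : ∀ v ∈ Q, Squarefree (f.map (Ideal.Quotient.mk v.asIdeal))) :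
    (Cls f Q).Finite ∧
      ((Cls f Q).ncard : ℝ) ≤ ∑ n ∈ tys g h, 2 * ((GBs f h n Q).ncard : ℝ) / nA F n := by
  classical
  have h1 : ∀ x ∈ Cls f Q, ∃ δ : (AdjoinRoot (overK f))ˣ, x = QuotientGroup.mk δ ∧
      IsS0 f (δ : AdjoinRoot (overK f)) ∧ ¬ IsSquare (δ : AdjoinRoot (overK f)) ∧
      ∀ v ∈ Q, SqAt f v (δ : AdjoinRoot (overK f)) := fun x hx => hx
  choose! δ hδ using h1
  have h3 : ∀ x ∈ Cls f Q, ∃ n : Fin (2 * g + 1) → ℤ, IsTy n ∧ HasTy f h n (δ x : AdjoinRoot (overK f)) ∧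
      IsType g h n := by
    intro x hx
    obtain ⟨n, a1, a2, a3, a4⟩ := hL.type _ (hδ x hx).2.1
    refine ⟨n, a1, a2, ⟨a1.mono, a1.rev, a3, fun i hi => ?_⟩⟩
    have := a4 (hδ x hx).2.2.1 i hi
    linarith
  choose! n hn using h3
  have key : ∀ (ν : Fin (2 * g + 1) → ℤ) (Y : Finset ((AdjoinRoot (overK f))ˣ ⧸
      (powMonoidHom 2 : (AdjoinRoot (overK f))ˣ →* (AdjoinRoot (overK f))ˣ).range)),
      (∀ x ∈ Y, x ∈ Cls f Q ∧ n x = ν) → Y.card * nA F ν ≤ 2 * (GBs f h ν Q).ncard := by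
    intro ν Y hY
    rcases Y.eq_empty_or_nonempty with hYe | ⟨x0, hx0⟩
    · rw [hYe, Finset.card_empty, zero_mul]
      exact Nat.zero_le _
    have hty : IsTy ν := by
      have h4 := (hn x0 (hY x0 hx0).1).1
      rwa [(hY x0 hx0).2] at h4
    have hinj : Set.InjOn (fun x => (δ x : AdjoinRoot (overK f))) (Y : Set ((AdjoinRoot (overK f))ˣ ⧸
      (powMonoidHom 2 : (AdjoinRoot (overK f))ˣ →* (AdjoinRoot (overK f))ˣ).range)) := by
      intro x hx y hy hxy
      have h4 : δ x = δ y := Units.ext hxy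
      rw [(hδ x (hY x hx).1).1, (hδ y (hY y hy).1).1, h4]
    have hcard : (Y.image fun x => (δ x : AdjoinRoot (overK f))).card = Y.card :=
      Finset.card_image_of_injOn hinj
    have h5 := hL.count ν hty Q hQ (Y.image fun x => (δ x : AdjoinRoot (overK f))) ?_ ?_
    · rw [hcard] at h5
      exact h5
    · intro d hd
      obtain ⟨x, hx, rfl⟩ := Finset.mem_image.1 hd
      obtain ⟨hx1, hx2⟩ := hY x hx
      refine ⟨(hδ x hx1).2.1, ?_, (hδ x hx1).2.2.2⟩
      have h4 := (hn x hx1).2.1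
      rwa [hx2] at h4
    · intro d hd d' hd' hne hsq
      obtain ⟨x, hx, rfl⟩ := Finset.mem_image.1 hd
      obtain ⟨y, hy, rfl⟩ := Finset.mem_image.1 hd'
      obtain ⟨z, hz⟩ := hsq
      have hu : IsUnit z := by
        have h6 : IsUnit (z * z) := by
          rw [← hz]
          exact ((δ x) * (δ y)).isUnit
        exact isUnit_of_mul_isUnit_left h6
      obtain ⟨u, rfl⟩ := hu
      have h6 : δ x * δ y = u * u := Units.ext (by rw [Units.val_mul, Units.val_mul]; exact hz)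
      apply hne
      have h7 : x = y := by
        rw [(hδ x (hY x hx).1).1, (hδ y (hY y hy).1).1, QuotientGroup.eq]
        refine ⟨(δ x)⁻¹ * u, ?_⟩
        rw [powMonoidHom_apply, mul_pow, pow_two u, ← h6, pow_two, mul_assoc, inv_mul_cancel_left]
      rw [h7]
  have hpos : ∀ ν : Fin (2 * g + 1) → ℤ, 0 < nA F ν := fun ν => nA_pos F h2 ν
  have hfinν : ∀ ν, {x | x ∈ Cls f Q ∧ n x = ν}.Finite := by
    intro ν
    by_contra hinf
    obtain ⟨Y, hY1, hY2⟩ := Set.Infinite.exists_subset_card_eq hinf (2 * (GBs f h ν Q).ncard + 1)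
    have h4 := key ν Y (fun x hx => hY1 hx)
    rw [hY2] at h4
    have h5 := hpos ν
    nlinarith
  have hmem : ∀ x ∈ Cls f Q, n x ∈ tys g h := fun x hx => mem_tys.2 (hn x hx).2.2
  have hfin : (Cls f Q).Finite := by
    refine ((tys g h).finite_toSet.biUnion (fun ν _ => hfinν ν)).subset ?_
    intro x hx
    exact Set.mem_biUnion (Finset.mem_coe.2 (hmem x hx)) ⟨hx, rfl⟩
  refine ⟨hfin, ?_⟩
  rw [Set.ncard_eq_toFinset_card _ hfin, Finset.card_eq_sum_card_fiberwise (f := n) (t := tys g h)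
    (fun x hx => Finset.mem_coe.2 (hmem x (hfin.mem_toFinset.1 (Finset.mem_coe.1 hx))))]
  push_cast
  refine Finset.sum_le_sum fun ν _ => ?_
  have h4 := key ν (hfin.toFinset.filter fun x => n x = ν) (fun x hx => by
    rw [Finset.mem_filter, Set.Finite.mem_toFinset] at hx
    exact hx)
  have h5 : (0 : ℝ) < nA F ν := by exact_mod_cast hpos ν
  rw [le_div_iff₀ h5]
  exact_mod_cast h4

end Pool.Agent.H40.GC
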