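import Pool.Agent.H40.GC.CNB

set_option autoImplicit false

/-!
# [H40 GC CNP] THEOREM G (MP_1bad5e_ag), chapter CNT: number of the pairs `(G, B)`

PROOF.  `IsGB h n G B` (`H3/GG/CDefs`) means `IsG n G`, `Bᵀ = B`, `DLe (h + n i + n j) (B i j)`.
`cnp_fin`: the set of the pairs is contained in the product of two finite sets (`gcn_fin`, `dlc_sym`).
`cnp_all`: `#{(G, B)} = #{G} * #{B}`, `2 * #{G} ≤ q ^ eG n` (`gcn`), `#{B} = q ^ eB h n` (`dlc_sym` with
`d i j = h + n i + n j`, unfold `eB`; note `(h + n i + n j + 1).toNat`).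
`cnp`: sum over `G`: the set of pairs is the disjoint union over the `G` with `IsG n G` of the sets in `cnb`, each of at most
`M = (∏ c) c' dens q ^ eB` elements (`M ≥ 0`: use `hc0`, `hc0'`), so `#pairs ≤ #{G} * M`, `2 #{G} ≤ q ^ eG n`.
-/

namespace Pool.Agent.H40.GC

open Polynomial Matrix
open Pool.Agent.H3.GG (DLe CharEq TrivC IsGB)

/-- symmetric matrices with bounded degrees -/
private abbrev Bs (F : Type) [Field F] {m : ℕ} (h : ℕ) (n : Fin m → ℤ) : Type :=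
  {B : Matrix (Fin m) (Fin m) F[X] // Bᵀ = B ∧ ∀ i j, DLe (h + n i + n j) (B i j)}

private theorem card_Bs (F : Type) [Field F] [Finite F] {m : ℕ} (h : ℕ) (n : Fin m → ℤ) :
    Nat.card (Bs F h n) = Nat.card F ^ eB h n :=
  dlc_sym F (fun i j => h + n i + n j) (fun i j => by ring)

private theorem fin_Bs (F : Type) [Field F] [Finite F] {m : ℕ} (h : ℕ) (n : Fin m → ℤ) : Finite (Bs F h n) := by
  apply Nat.finite_of_card_ne_zero
  rw [card_Bs]
  exact pow_ne_zero _ Nat.card_pos.ne'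

private def eqv (F : Type) [Field F] {m : ℕ} (h : ℕ) (n : Fin m → ℤ) :
    {p : Matrix (Fin m) (Fin m) F[X] × Matrix (Fin m) (Fin m) F[X] // IsGB h n p.1 p.2} ≃
      {G : Matrix (Fin m) (Fin m) F[X] // IsG n G} × Bs F h n where
  toFun p := (⟨p.1.1, p.2.symG, p.2.degG, p.2.det⟩, ⟨p.1.2, p.2.symB, p.2.degB⟩)
  invFun q := ⟨(q.1.1, q.2.1), ⟨q.1.2.1, q.2.2.1, q.1.2.2.1, q.2.2.2, q.1.2.2.2⟩⟩
  left_inv _ := rfl
  right_inv _ := rfl

/-- the pairs which are counted -/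
def Prs {F : Type} [Field F] {S : Type} (k : S → Type) [∀ s, Field (k s)] (φ : ∀ s, F[X] →+* k s)
    {m : ℕ} (h : ℕ) (n : Fin m → ℤ) (T : ∀ s, Set (k s)[X]) (T' : Set F[X]) (P : Set S) :
    Set (Matrix (Fin m) (Fin m) F[X] × Matrix (Fin m) (Fin m) F[X]) :=
  {p | IsGB h n p.1 p.2 ∧ (∃ f, FamT k φ m h T T' f ∧ CharEq f p.1 p.2) ∧
    ∀ s ∈ P, TrivC (p.1.map (φ s)) (p.2.map (φ s))}

theorem cnp_fin (F : Type) [Field F] [Finite F] {m : ℕ} (h : ℕ) (n : Fin m → ℤ) :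
    {p : Matrix (Fin m) (Fin m) F[X] × Matrix (Fin m) (Fin m) F[X] | IsGB h n p.1 p.2}.Finite := by
  have h1 : Finite {G : Matrix (Fin m) (Fin m) F[X] // IsG n G} := gcn_fin F n
  have h2 := fin_Bs F h n
  have h3 : Finite {p : Matrix (Fin m) (Fin m) F[X] × Matrix (Fin m) (Fin m) F[X] // IsGB h n p.1 p.2} :=
    Finite.of_equiv _ (eqv F h n).symm
  exact h3

theorem cnp_all (F : Type) [Field F] [Finite F] (h2 : (2 : F) ≠ 0) {m : ℕ} (hm : Odd m) (h : ℕ)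
    (n : Fin m → ℤ) :
    2 * Nat.card {p : Matrix (Fin m) (Fin m) F[X] × Matrix (Fin m) (Fin m) F[X] // IsGB h n p.1 p.2} ≤
      Nat.card F ^ (eG n + eB h n) := by
  rw [Nat.card_congr (eqv F h n), Nat.card_prod, card_Bs, ← mul_assoc, pow_add]
  exact Nat.mul_le_mul_right _ (gcn F h2 hm n)

theorem cnp {F : Type} [Field F] [Finite F] (h2 : (2 : F) ≠ 0) {S : Type} [Fintype S] (k : S → Type)
    [∀ s, Field (k s)] [∀ s, Finite (k s)] (φ : ∀ s, F[X] →+* k s) {N : ℕ} (hN : Eqd k φ N)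
    {m h : ℕ} (hm : Odd m) {n : Fin m → ℤ}
    (hn : ∀ i, n i.rev = - n i) (hh : ∀ i j, (N : ℤ) ≤ h + n i + n j)
    (T : ∀ s, Set (k s)[X]) (T' : Set F[X]) (P : Set S) (c : S → ℝ) (c' : ℝ) (hc0 : ∀ s, 0 ≤ c s)
    (hc0' : 0 ≤ c')
    (hc : ∀ s, LocB (k s) m (c s) (T s) (s ∈ P)) (hc' : LocB F m c' T' False) :
    2 * (Nat.card (Prs k φ h n T T' P) : ℝ) ≤
      (∏ s, c s) * c' * dens k m T T' * (Nat.card F : ℝ) ^ (eG n + eB h n) := by
  classical
  have h1 : Finite {G : Matrix (Fin m) (Fin m) F[X] // IsG n G} := gcn_fin F n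
  have h3 := fin_Bs F h n
  let _ : Fintype {G : Matrix (Fin m) (Fin m) F[X] // IsG n G} := Fintype.ofFinite _
  set M : ℝ := (∏ s, c s) * c' * dens k m T T' * (Nat.card F : ℝ) ^ eB h n with hM
  let Y : {G : Matrix (Fin m) (Fin m) F[X] // IsG n G} → Type := fun G =>
    {B : Matrix (Fin m) (Fin m) F[X] // Bᵀ = B ∧ (∀ i j, DLe (h + n i + n j) (B i j)) ∧
        (∃ f, FamT k φ m h T T' f ∧ CharEq f G.1 B) ∧
        ∀ s ∈ P, TrivC (G.1.map (φ s)) (B.map (φ s))}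
  have hY : ∀ G, Finite (Y G) := fun G =>
    Finite.of_injective (fun B : Y G => (⟨B.1, B.2.1, B.2.2.1⟩ : Bs F h n)) (by
      intro B B' hB
      exact Subtype.ext (congrArg (fun z : Bs F h n => z.1) hB))
  have e1 : Nat.card (Prs k φ h n T T' P) = ∑ G, Nat.card (Y G) := by
    rw [← Nat.card_sigma]
    exact Nat.card_congr
      { toFun := fun p => ⟨⟨p.1.1, p.2.1.symG, p.2.1.degG, p.2.1.det⟩,
          ⟨p.1.2, p.2.1.symB, p.2.1.degB, p.2.2.1, p.2.2.2⟩⟩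
        invFun := fun q => ⟨(q.1.1, q.2.1), ⟨q.1.2.1, q.2.2.1, q.1.2.2.1, q.2.2.2.1, q.1.2.2.2⟩,
          q.2.2.2.2.1, q.2.2.2.2.2⟩
        left_inv := fun _ => rfl
        right_inv := fun _ => rfl }
  have e2 : ∀ G, (Nat.card (Y G) : ℝ) ≤ M := fun G => cnb k φ hN hn hh T T' P c c' hc hc' G.2
  have hM0 : 0 ≤ M := by
    refine mul_nonneg (mul_nonneg (mul_nonneg (Finset.prod_nonneg fun s _ => hc0 s) hc0') ?_) (by positivity)
    unfold dens
    exact mul_nonneg (Finset.prod_nonneg fun s _ => by positivity) (by positivity)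
  have e3 : (Nat.card (Prs k φ h n T T' P) : ℝ) ≤
      (Nat.card {G : Matrix (Fin m) (Fin m) F[X] // IsG n G} : ℝ) * M := by
    rw [e1]
    push_cast
    calc ∑ G, (Nat.card (Y G) : ℝ) ≤ ∑ _G : {G : Matrix (Fin m) (Fin m) F[X] // IsG n G}, M :=
          Finset.sum_le_sum fun G _ => e2 G
      _ = _ := by
          rw [Finset.sum_const, Finset.card_univ, nsmul_eq_mul, Nat.card_eq_fintype_card]
  have e4 : 2 * (Nat.card {G : Matrix (Fin m) (Fin m) F[X] // IsG n G} : ℝ) ≤ (Nat.card F : ℝ) ^ eG n := by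
    exact_mod_cast gcn F h2 hm n
  calc 2 * (Nat.card (Prs k φ h n T T' P) : ℝ)
      ≤ 2 * ((Nat.card {G : Matrix (Fin m) (Fin m) F[X] // IsG n G} : ℝ) * M) := by linarith
    _ = (2 * (Nat.card {G : Matrix (Fin m) (Fin m) F[X] // IsG n G} : ℝ)) * M := by ring
    _ ≤ (Nat.card F : ℝ) ^ eG n * M := mul_le_mul_of_nonneg_right e4 hM0
    _ = _ := by rw [hM, pow_add]; ring

end Pool.Agent.H40.GC
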