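import Pool.Agent.H40.GC.EQS

set_option autoImplicit false

/-!
# [H40 GC EQC] THEOREM G (MP_1bad5e_ag), chapter CNT: equidistribution of families of polynomials

PROOF.  Let `A j` be the additive group of the polynomials of degree `≤ d j`
(`Polynomial.degreeLT F (d j + 1)`, a submodule of `F[X]` with `Module.finrank = d j + 1`: `Polynomial.degreeLTEquiv`; so it
has `q ^ (d j + 1)` elements), `A = ∀ j, A j`, and `B = (∀ s, J → k s) × (J → F)`, finite groups.  The map
`Φ : A →+ B`, `p ↦ ((s, j) ↦ φ s (p j), j ↦ (p j).coeff (d j))` is additive, and surjective by `hN` (componentwise in `j`).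
All fibres of a surjective additive map of finite groups have `|A| / |B|` elements (the fibres are cosets of the kernel:
for `Φ a = b` the map `x ↦ x + a` is a bijection from the fibre of `0` onto the fibre of `b`; or
`Nat.card_congr` with `QuotientAddGroup`), so for every subset `R` of `B`:
`#(Φ ⁻¹ R) * |B| = #R * |A|`.  Here `R = {(x, y) | ∀ s, x s ∈ R s, y ∈ R'}`, `#R = (∏ s, #(R s)) * #R'`
(`Nat.card_prod`, `Nat.card_pi`), `|B| = (∏ s, |k s| ^ |J|) * q ^ |J|`, `|A| = q ^ (∑ j, (d j + 1))`.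
The set on the left is in bijection with `Φ ⁻¹ R` (`mem_degreeLT`, `natDegree_le_iff_degree_le`,
`Order.lt_add_one_iff`).
-/

namespace Pool.Agent.H40.GC

open Polynomial

/-- the fibres of a surjective map of finite groups -/
private theorem card_preim {A B : Type} [AddCommGroup A] [AddCommGroup B] (Φ : A →+ B)
    (hΦ : Function.Surjective Φ) (R : Set B) :
    Nat.card {a : A // Φ a ∈ R} = Nat.card R * Nat.card Φ.ker := by
  classical
  rw [← Nat.card_prod]
  refine (Nat.card_congr (Equiv.ofBijective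
    (fun z : R × Φ.ker => (⟨Function.surjInv hΦ z.1.1 + z.2.1, ?_⟩ : {a : A // Φ a ∈ R})) ?_)).symm
  · rw [map_add, Function.surjInv_eq hΦ, show Φ z.2.1 = 0 from z.2.2, add_zero]
    exact z.1.2
  · constructor
    · intro z z' h
      have h1 : Function.surjInv hΦ z.1.1 + z.2.1 = Function.surjInv hΦ z'.1.1 + z'.2.1 :=
        congrArg Subtype.val h
      have h2 : z.1.1 = z'.1.1 := by
        have h3 := congrArg Φ h1
        rwa [map_add, map_add, Function.surjInv_eq hΦ, Function.surjInv_eq hΦ, show Φ z.2.1 = 0 from z.2.2,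
          show Φ z'.2.1 = 0 from z'.2.2, add_zero, add_zero] at h3
      rw [h2] at h1
      exact Prod.ext (Subtype.ext h2) (Subtype.ext (add_left_cancel h1))
    · intro a
      refine ⟨(⟨Φ a.1, a.2⟩, ⟨a.1 - Function.surjInv hΦ (Φ a.1), ?_⟩), ?_⟩
      · rw [AddMonoidHom.mem_ker, map_sub, Function.surjInv_eq hΦ, sub_self]
      · refine Subtype.ext ?_
        change Function.surjInv hΦ (Φ a.1) + (a.1 - Function.surjInv hΦ (Φ a.1)) = a.1
        abel

private theorem card_all {A B : Type} [AddCommGroup A] [AddCommGroup B] (Φ : A →+ B)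
    (hΦ : Function.Surjective Φ) : Nat.card A = Nat.card B * Nat.card Φ.ker := by
  have h := card_preim Φ hΦ Set.univ
  rw [Nat.card_congr (Equiv.Set.univ B)] at h
  rw [← h]
  exact Nat.card_congr (Equiv.subtypeUnivEquiv fun _ => Set.mem_univ _).symm

private theorem mem_lt {F : Type} [Field F] {n : ℕ} {p : F[X]} : p ∈ degreeLT F (n + 1) ↔ p.natDegree ≤ n := by
  rw [mem_degreeLT, degree_lt_iff_coeff_zero, natDegree_le_iff_coeff_eq_zero]
  exact Iff.rfl

private theorem card_deg {F : Type} [Field F] [Finite F] {J : Type} [Fintype J] (d : J → ℕ) :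
    Nat.card (∀ j, degreeLT F (d j + 1)) = Nat.card F ^ ∑ j, (d j + 1) := by
  rw [Nat.card_pi, ← Finset.prod_pow_eq_pow_sum]
  refine Finset.prod_congr rfl fun j _ => ?_
  rw [Nat.card_congr (degreeLTEquiv F (d j + 1)).toEquiv, Nat.card_fun, Nat.card_eq_fintype_card (α := Fin (d j + 1)),
    Fintype.card_fin]

/-- the number of a set of families is (density) * (number of all families) -/
theorem eqc {F : Type} [Field F] [Finite F] {S : Type} [Fintype S] (k : S → Type) [∀ s, Field (k s)]
    [∀ s, Finite (k s)] (φ : ∀ s, F[X] →+* k s) {N : ℕ} (hN : Eqd k φ N) {J : Type} [Fintype J]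
    (d : J → ℕ) (hd : ∀ j, N ≤ d j) (R : ∀ s, Set (J → k s)) (R' : Set (J → F)) :
    (Nat.card {p : J → F[X] // (∀ j, (p j).natDegree ≤ d j) ∧ (∀ s, (fun j => φ s (p j)) ∈ R s) ∧
        (fun j => (p j).coeff (d j)) ∈ R'} : ℝ) =
      (∏ s, ((Nat.card (R s) : ℝ) / (Nat.card (k s) : ℝ) ^ Fintype.card J)) *
        ((Nat.card R' : ℝ) / (Nat.card F : ℝ) ^ Fintype.card J) * (Nat.card F : ℝ) ^ ∑ j, (d j + 1) := by
  classical
  set A := ∀ j, degreeLT F (d j + 1) with hA
  set B := (∀ s, J → k s) × (J → F) with hB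
  let Φ : A →+ B :=
    { toFun := fun p => (fun s j => φ s (p j).1, fun j => (p j).1.coeff (d j))
      map_zero' := by
        refine Prod.ext (funext fun s => funext fun j => ?_) (funext fun j => ?_)
        · exact map_zero (φ s)
        · exact coeff_zero _
      map_add' := fun x y => by
        refine Prod.ext (funext fun s => funext fun j => ?_) (funext fun j => ?_)
        · exact map_add (φ s) _ _
        · exact coeff_add _ _ _ }
  have hΦ : Function.Surjective Φ := by
    intro b
    choose p hp1 hp2 hp3 using fun j => hN (d j) (hd j) (fun s => b.1 s j) (b.2 j)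
    refine ⟨fun j => ⟨p j, mem_lt.2 (hp1 j)⟩, ?_⟩
    exact Prod.ext (funext fun s => funext fun j => hp3 j s) (funext fun j => hp2 j)
  set T : Set B := {b | (∀ s, b.1 s ∈ R s) ∧ b.2 ∈ R'} with hT
  have e1 : Nat.card {p : J → F[X] // (∀ j, (p j).natDegree ≤ d j) ∧ (∀ s, (fun j => φ s (p j)) ∈ R s) ∧
        (fun j => (p j).coeff (d j)) ∈ R'} = Nat.card {a : A // Φ a ∈ T} := by
    refine Nat.card_congr
      { toFun := fun p => ⟨fun j => ⟨p.1 j, mem_lt.2 (p.2.1 j)⟩, p.2.2⟩
        invFun := fun a => ⟨fun j => (a.1 j).1, fun j => mem_lt.1 (a.1 j).2, a.2⟩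
        left_inv := fun p => rfl
        right_inv := fun a => rfl }
  have e2 : Nat.card T = (∏ s, Nat.card (R s)) * Nat.card R' := by
    rw [← Nat.card_pi, ← Nat.card_prod]
    refine Nat.card_congr
      { toFun := fun b => (fun s => ⟨b.1.1 s, b.2.1 s⟩, ⟨b.1.2, b.2.2⟩)
        invFun := fun c => ⟨(fun s => (c.1 s).1, c.2.1), fun s => (c.1 s).2, c.2.2⟩
        left_inv := fun p => rfl
        right_inv := fun a => rfl }
  have e3 : Nat.card B = (∏ s, Nat.card (k s) ^ Fintype.card J) * Nat.card F ^ Fintype.card J := by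
    rw [hB, Nat.card_prod, Nat.card_pi, Nat.card_fun, Nat.card_eq_fintype_card (α := J)]
    congr 1
    exact Finset.prod_congr rfl fun s _ => by rw [Nat.card_fun, Nat.card_eq_fintype_card (α := J)]
  have e4 := card_preim Φ hΦ T
  have e5 := card_all Φ hΦ
  have e6 : Nat.card A = Nat.card F ^ ∑ j, (d j + 1) := card_deg d
  have hF : (Nat.card F : ℝ) ≠ 0 := Nat.cast_ne_zero.2 Nat.card_pos.ne'
  have hk : ∀ s, (Nat.card (k s) : ℝ) ≠ 0 := fun s => Nat.cast_ne_zero.2 Nat.card_pos.ne'
  have e7 : (Nat.card F : ℝ) ^ ∑ j, (d j + 1) =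
      ((∏ s, (Nat.card (k s) : ℝ) ^ Fintype.card J) * (Nat.card F : ℝ) ^ Fintype.card J) * Nat.card Φ.ker := by
    have h := e5
    rw [e6, e3] at h
    exact_mod_cast h
  rw [e1, e4, e2, e7, Finset.prod_div_distrib]
  push_cast
  have hP : (∏ s, (Nat.card (k s) : ℝ) ^ Fintype.card J) ≠ 0 :=
    Finset.prod_ne_zero_iff.2 fun s _ => pow_ne_zero _ (hk s)
  have hQ : (Nat.card F : ℝ) ^ Fintype.card J ≠ 0 := pow_ne_zero _ hF
  field_simp

/-- the number of all families; no condition on `d` -/
theorem eqa {F : Type} [Field F] [Finite F] {J : Type} [Fintype J] (d : J → ℕ) :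
    Nat.card {p : J → F[X] // ∀ j, (p j).natDegree ≤ d j} = Nat.card F ^ ∑ j, (d j + 1) := by
  rw [← card_deg d]
  refine Nat.card_congr
    { toFun := fun p j => ⟨p.1 j, mem_lt.2 (p.2 j)⟩
      invFun := fun a => ⟨fun j => (a j).1, fun j => mem_lt.1 (a j).2⟩
      left_inv := fun p => rfl
      right_inv := fun a => rfl }

end Pool.Agent.H40.GC
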