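import Pool.Agent.H40.GC.TOP
import Pool.Agent.H40.GC.EQC
import Pool.Agent.H40.GC.NDf

set_option autoImplicit false

/-!
# [H40 GC DLC] THEOREM G (MP_1bad5e_ag), chapter CNT: number of the symmetric matrices with bounded degrees

PROOF.
`dlc`: for `d j < 0` only `p j = 0` is allowed, otherwise `natDegree (p j) ≤ (d j).toNat` and `(d j + 1).toNat =
(d j).toNat + 1`.  So the families are in bijection with the families on `{j // 0 ≤ d j}` of degree `≤ (d j).toNat`, apply
`eqa` (module EQC) and `∑ j, (d j + 1).toNat = ∑ over {j // 0 ≤ d j}` (the other terms are `0`).  (Or: `Nat.card` of a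
product, `Nat.card_pi`, and `eqa` with `J = Unit` for each factor.)
`dlc_sym`: a symmetric matrix is determined by its entries `M i j` with `i ≤ j`, which are free: bijection
`M ↦ (p : {p // p ∈ ps m}) ↦ M p.1.1 p.1.2`, inverse `a ↦ of fun i j => if i ≤ j then a (i, j) else a (j, i)`; then `dlc`
and `Finset.sum_coe_sort`/`Finset.sum_attach` for `ps m`.
`dlc_mat`: the same without symmetry: `J = Fin m × Fin m`.
-/

namespace Pool.Agent.H40.GC

open Polynomial Matrix
open Pool.Agent.H3.GG (DLe)

theorem dlc_one (F : Type) [Field F] [Finite F] (d : ℤ) :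
    Nat.card {p : F[X] // DLe d p} = Nat.card F ^ (d + 1).toNat := by
  rcases lt_or_ge d 0 with h | h
  · have h1 : (d + 1).toNat = 0 := by omega
    rw [h1, pow_zero]
    letI : Unique {p : F[X] // DLe d p} :=
      { default := ⟨0, dle_zero d⟩
        uniq := fun a => Subtype.ext (dle_neg a.2 h) }
    exact Nat.card_unique
  · lift d to ℕ using h
    have h1 : ((d : ℤ) + 1).toNat = d + 1 := by omega
    have h2 : ∀ p : F[X], DLe (d : ℤ) p ↔ p ∈ degreeLT F (d + 1) := by
      intro p
      rw [dle_nat, mem_degreeLT, degree_lt_iff_coeff_zero, natDegree_le_iff_coeff_eq_zero]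
      exact Iff.rfl
    rw [h1, Nat.card_congr (Equiv.subtypeEquivRight h2),
      Nat.card_congr (degreeLTEquiv F (d + 1)).toEquiv, Nat.card_fun, Nat.card_eq_fintype_card (α := Fin (d + 1)),
      Fintype.card_fin]

theorem dlc (F : Type) [Field F] [Finite F] {J : Type} [Fintype J] (d : J → ℤ) :
    Nat.card {p : J → F[X] // ∀ j, DLe (d j) (p j)} = Nat.card F ^ ∑ j, (d j + 1).toNat := by
  rw [Nat.card_congr (Equiv.subtypePiEquivPi (p := fun j (x : F[X]) => DLe (d j) x)), Nat.card_pi,
    ← Finset.prod_pow_eq_pow_sum]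
  exact Finset.prod_congr rfl fun j _ => dlc_one F (d j)

theorem dlc_sym (F : Type) [Field F] [Finite F] {m : ℕ} (d : Fin m → Fin m → ℤ) (hd : ∀ i j, d i j = d j i) :
    Nat.card {M : Matrix (Fin m) (Fin m) F[X] // Mᵀ = M ∧ ∀ i j, DLe (d i j) (M i j)} =
      Nat.card F ^ ∑ p ∈ ps m, (d p.1 p.2 + 1).toNat := by
  have hmem : ∀ {i j : Fin m}, i ≤ j → (i, j) ∈ ps m := by
    intro i j hij
    rw [ps, Finset.mem_filter]
    exact ⟨Finset.mem_univ _, hij⟩
  have hle : ∀ p : {p // p ∈ ps m}, p.1.1 ≤ p.1.2 := by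
    intro p
    exact (Finset.mem_filter.1 p.2).2
  have e : {M : Matrix (Fin m) (Fin m) F[X] // Mᵀ = M ∧ ∀ i j, DLe (d i j) (M i j)} ≃
      {a : {p // p ∈ ps m} → F[X] // ∀ p, DLe (d p.1.1 p.1.2) (a p)} :=
    { toFun := fun M => ⟨fun p => M.1 p.1.1 p.1.2, fun p => M.2.2 _ _⟩
      invFun := fun a => ⟨of fun i j =>
        if h : i ≤ j then a.1 ⟨(i, j), hmem h⟩ else a.1 ⟨(j, i), hmem (le_of_not_ge h)⟩, by
          constructor
          · ext1 i j
            rw [transpose_apply, of_apply, of_apply]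
            rcases lt_trichotomy i j with h | h | h
            · rw [dif_neg (not_le_of_gt h), dif_pos h.le]
            · subst h
              rfl
            · rw [dif_pos h.le, dif_neg (not_le_of_gt h)]
          · intro i j
            rw [of_apply]
            split_ifs with h
            · exact a.2 ⟨(i, j), hmem h⟩
            · rw [hd i j]
              exact a.2 ⟨(j, i), hmem (le_of_not_ge h)⟩⟩
      left_inv := fun M => by
        refine Subtype.ext ?_
        ext1 i j
        change (if h : i ≤ j then M.1 i j else M.1 j i) = M.1 i j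
        split_ifs with h
        · rfl
        · exact congrFun (congrFun M.2.1 i) j
      right_inv := fun a => by
        refine Subtype.ext ?_
        funext p
        change (if h : p.1.1 ≤ p.1.2 then a.1 ⟨(p.1.1, p.1.2), hmem h⟩ else _) = a.1 p
        rw [dif_pos (hle p)] }
  rw [Nat.card_congr e, dlc F (fun p : {p // p ∈ ps m} => d p.1.1 p.1.2)]
  congr 1
  exact Finset.sum_coe_sort (ps m) (fun p => (d p.1 p.2 + 1).toNat)

theorem dlc_mat (F : Type) [Field F] [Finite F] {m : ℕ} (d : Fin m → Fin m → ℤ) :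
    Nat.card {M : Matrix (Fin m) (Fin m) F[X] // ∀ i j, DLe (d i j) (M i j)} =
      Nat.card F ^ ∑ p : Fin m × Fin m, (d p.1 p.2 + 1).toNat := by
  have e : {M : Matrix (Fin m) (Fin m) F[X] // ∀ i j, DLe (d i j) (M i j)} ≃
      {a : Fin m × Fin m → F[X] // ∀ p, DLe (d p.1 p.2) (a p)} :=
    { toFun := fun M => ⟨fun p => M.1 p.1 p.2, fun p => M.2 _ _⟩
      invFun := fun a => ⟨of fun i j => a.1 (i, j), fun i j => a.2 (i, j)⟩
      left_inv := fun M => rfl
      right_inv := fun a => rfl }
  rw [Nat.card_congr e, dlc F (fun p : Fin m × Fin m => d p.1 p.2)]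

end Pool.Agent.H40.GC
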