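import Pool.Agent.H40.GC.PLC
import Pool.Agent.H3.GG.CO8

set_option autoImplicit false

/-!
# [H40 GC LCB] THEOREM G (MP_1bad5e_ag), chapter CNT: the local bounds (from the chapter LOC of helper3)
-/

namespace Pool.Agent.H40.GC

open Polynomial

/-- the local constant -/
noncomputable def kap (k : Type) (m : ℕ) : ℝ := (1 - 1 / (Nat.card k : ℝ))⁻¹ ^ m

theorem kap_pos (k : Type) [Field k] [Finite k] (m : ℕ) : 1 ≤ kap k m := by
  have h1 : (1 : ℝ) < Nat.card k := by exact_mod_cast Finite.one_lt_card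
  refine one_le_pow₀ ?_
  rw [one_le_inv₀ (by rw [sub_pos, div_lt_one (by linarith)]; exact h1)]
  have : 0 ≤ 1 / (Nat.card k : ℝ) := by positivity
  linarith

theorem lcb_irr (k : Type) [Field k] [Finite k] (h2 : (2 : k) ≠ 0) {m : ℕ} (hm : Odd m) :
    LocB k m (kap k m) (Tirr k) False := Pool.Agent.H3.GG.loc_irr k h2 hm

theorem lcb_spec (k : Type) [Field k] [Finite k] (h2 : (2 : k) ≠ 0) {m : ℕ} (hm : Odd m) :
    LocB k m (kap k m) (Tspec k) False := Pool.Agent.H3.GG.loc_spec k h2 hm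

theorem lcb_triv (k : Type) [Field k] [Finite k] (h2 : (2 : k) ≠ 0) {m : ℕ} (hm : Odd m) (_ : 3 ≤ m) :
    LocB k m (kap k m / 2) (Tspec k) True := Pool.Agent.H3.GG.loc_trv k h2 hm

end Pool.Agent.H40.GC
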