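import Pool.Agent.H40.GC.EXS
import Pool.Agent.H40.GC.TYS

set_option autoImplicit false

/-!
# [H40 GC SUA] THEOREM G (MP_1bad5e_ag), chapter CNT: the sum over the small types

PROOF.  Choose a real `ρ` with `0 < ρ < 1`, `1 / 3 ≤ ρ ^ g` (for `g = 0`: `ρ = 1/2`; for `g ≥ 1`: `ρ = (1/3) ^ (1/g)`, rpow).
`C = 9 * (1 - ρ)⁻¹ ^ g`.  Let `a = - n 0 ≥ 0` (`typ_bd`).
1. If `n` is in the set and `n ≠ 0`, `n ≠ e1 g`: `Ee ≤ -1`, `Ee ≤ 1 - a` (`exs`), so `q ^ Ee ≤ (9 / q) * (1/3) ^ a.toNat`: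
   for `a ≤ 2`: `q ^ Ee ≤ q⁻¹ ≤ (9 / q) * (1/3) ^ 2`; for `a ≥ 3`: `q ^ Ee ≤ q ^ (1 - a) = q⁻¹ * q ^ (-(a - 2)) ≤
   q⁻¹ * 3 ^ (-(a - 2))` (`zpow_le_zpow_right₀`, `3 ≤ q`).
2. `(1/3) ^ a ≤ (ρ ^ g) ^ a = ∏ i : Fin g, ρ ^ a ≤ ∏ i, ρ ^ (ah n i)` as `ah n i ≤ a` (`ah_le`) and `ρ ≤ 1`.
3. For `n = 0`, `n = e1 g` the term is at most `1` (`Ee ≤ 0`, `q ≥ 1`).  So the sum is at most
   `2 + (9 / q) * ∑ n ∈ tys g h, ∏ i, ρ ^ (ah n i)`, and since `ah` is injective on `tys g h` (`ah_inj`) with values in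
   `Fintype.piFinset (fun _ => Finset.range (g * h + 1))` (`typ_bd`), the last sum is at most
   `∑ a ∈ piFinset (range (g h + 1)), ∏ i, ρ ^ (a i) = ∏ i : Fin g, ∑ j ∈ range (g h + 1), ρ ^ j ≤ ((1 - ρ)⁻¹) ^ g`
   (`Finset.prod_univ_sum`, `Finset.sum_image`, `geom_sum_lt...` / `Summable.sum_le_tsum`, `tsum_geometric_of_lt_one`).
-/

namespace Pool.Agent.H40.GC

private theorem exists_rho (g : ℕ) : ∃ ρ : ℝ, 0 < ρ ∧ ρ < 1 ∧ 1 / 3 ≤ ρ ^ g := by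
  have hg : (0 : ℝ) < 2 * ((g : ℝ) + 1) := by positivity
  have h1 : 1 / (2 * ((g : ℝ) + 1)) ≤ 1 / 2 := by
    apply one_div_le_one_div_of_le (by norm_num)
    have : (0 : ℝ) ≤ g := Nat.cast_nonneg g
    linarith
  have h2 : 0 < 1 / (2 * ((g : ℝ) + 1)) := by positivity
  refine ⟨1 + -(1 / (2 * ((g : ℝ) + 1))), by linarith, by linarith, ?_⟩
  refine le_trans ?_ (one_add_mul_le_pow (by linarith) g)
  have h3 : (g : ℝ) * (1 / (2 * ((g : ℝ) + 1))) ≤ 1 / 2 := by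
    rw [mul_one_div, div_le_div_iff₀ hg (by norm_num)]
    linarith
  linarith

private theorem geo_le {ρ : ℝ} (h0 : 0 < ρ) (h1 : ρ < 1) (N : ℕ) :
    ∑ j ∈ Finset.range N, ρ ^ j ≤ (1 - ρ)⁻¹ := by
  rw [← tsum_geometric_of_lt_one h0.le h1]
  exact Summable.sum_le_tsum (Finset.range N) (fun j _ => pow_nonneg h0.le j)
    (summable_geometric_of_lt_one h0.le h1)

open Classical in
private theorem sum_ah {ρ : ℝ} (h0 : 0 < ρ) (h1 : ρ < 1) (g h : ℕ) :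
    ∑ n ∈ tys g h, ∏ i : Fin g, ρ ^ (ah n i) ≤ ((1 - ρ)⁻¹) ^ g := by
  have hinj : Set.InjOn (fun n : Fin (2 * g + 1) → ℤ => ah n) (tys g h : Set _) := by
    intro n hn n' hn' he
    exact ah_inj (mem_tys.1 (Finset.mem_coe.1 hn)) (mem_tys.1 (Finset.mem_coe.1 hn')) he
  have e1 : ∑ n ∈ tys g h, ∏ i : Fin g, ρ ^ (ah n i) =
      ∑ a ∈ (tys g h).image (fun n => ah n), ∏ i : Fin g, ρ ^ (a i) :=
    (Finset.sum_image (f := fun a : Fin g → ℕ => ∏ i : Fin g, ρ ^ (a i)) hinj).symm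
  rw [e1]
  calc ∑ a ∈ (tys g h).image (fun n => ah n), ∏ i : Fin g, ρ ^ (a i)
      ≤ ∑ a ∈ Fintype.piFinset (fun _ : Fin g => Finset.range (g * h + 1)),
          ∏ i : Fin g, ρ ^ (a i) := by
        refine Finset.sum_le_sum_of_subset_of_nonneg ?_ fun a _ _ =>
          Finset.prod_nonneg fun i _ => pow_nonneg h0.le _
        intro a ha
        obtain ⟨n, hn, rfl⟩ := Finset.mem_image.1 ha
        rw [mem_tys] at hn
        rw [Fintype.mem_piFinset]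
        intro i
        rw [Finset.mem_range, Nat.lt_succ_iff]
        have h2 := ah_le hn i
        have h3 := (typ_bd hn).2
        have h4 : ((ah n i : ℕ) : ℤ) ≤ ((g * h : ℕ) : ℤ) := by
          push_cast
          exact h2.trans h3
        exact_mod_cast h4
    _ = ∏ i : Fin g, ∑ j ∈ Finset.range (g * h + 1), ρ ^ j :=
        (Finset.prod_univ_sum (fun _ : Fin g => Finset.range (g * h + 1))
          (fun _ j => ρ ^ j)).symm
    _ = (∑ j ∈ Finset.range (g * h + 1), ρ ^ j) ^ g := by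
        rw [Finset.prod_const, Finset.card_univ, Fintype.card_fin]
    _ ≤ ((1 - ρ)⁻¹) ^ g :=
        pow_le_pow_left₀ (Finset.sum_nonneg fun j _ => pow_nonneg h0.le j) (geo_le h0 h1 _) g

private theorem term_le {q : ℝ} (hq : 3 ≤ q) {E : ℤ} {a : ℕ} (h1 : E ≤ -1) (h2 : E ≤ 1 - a) :
    q ^ E ≤ 9 / q * (1 / 3) ^ a := by
  have hq0 : 0 < q := by linarith
  obtain ⟨b, hb1, hb2⟩ : ∃ b : ℕ, E ≤ -1 - b ∧ a ≤ b + 2 := ⟨a - 2, by omega, by omega⟩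
  have h3 : q ^ E ≤ q⁻¹ * (1 / 3) ^ b := by
    calc q ^ E ≤ q ^ (-1 - (b : ℤ)) := zpow_le_zpow_right₀ (by linarith) hb1
      _ = q⁻¹ * (q⁻¹) ^ b := by
          rw [zpow_sub₀ hq0.ne', zpow_neg_one, zpow_natCast, inv_pow, div_eq_mul_inv]
      _ ≤ q⁻¹ * (1 / 3) ^ b := by
          refine mul_le_mul_of_nonneg_left ?_ (inv_nonneg.2 hq0.le)
          refine pow_le_pow_left₀ (inv_nonneg.2 hq0.le) ?_ b
          rw [inv_eq_one_div]
          exact one_div_le_one_div_of_le (by norm_num) hq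
  have h4 : ((1 : ℝ) / 3) ^ (b + 2) ≤ (1 / 3) ^ a :=
    pow_le_pow_of_le_one (by norm_num) (by norm_num) hb2
  have h5 : ((1 : ℝ) / 3) ^ b ≤ 9 * (1 / 3) ^ a := by
    rw [pow_add] at h4
    linarith
  calc q ^ E ≤ q⁻¹ * (1 / 3) ^ b := h3
    _ ≤ q⁻¹ * (9 * (1 / 3) ^ a) := mul_le_mul_of_nonneg_left h5 (inv_nonneg.2 hq0.le)
    _ = 9 / q * (1 / 3) ^ a := by
        rw [div_eq_mul_inv]
        ring

open Classical in
theorem sua (g : ℕ) : ∃ C : ℝ, 0 ≤ C ∧ ∀ (h : ℕ) (q : ℝ), 3 ≤ q →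
    ∑ n ∈ (tys g h).filter (fun n => - (2 * n 0) ≤ (h : ℤ)), q ^ (Ee h n) ≤ 2 + C / q := by
  obtain ⟨ρ, h0, h1, h3⟩ := exists_rho g
  have hr : 0 < 1 - ρ := by linarith
  refine ⟨9 * ((1 - ρ)⁻¹) ^ g, by positivity, fun h q hq => ?_⟩
  have hq0 : 0 < q := by linarith
  have hterm : ∀ n ∈ (tys g h).filter (fun n => - (2 * n 0) ≤ (h : ℤ)),
      q ^ (Ee h n) ≤ ((if n = 0 then (1 : ℝ) else 0) + (if n = e1 g then (1 : ℝ) else 0)) +
        9 / q * ∏ i : Fin g, ρ ^ (ah n i) := by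
    intro n hn
    rw [Finset.mem_filter, mem_tys] at hn
    obtain ⟨hn1, hn2⟩ := hn
    obtain ⟨hE0, hE1, hE2⟩ := exs hn1 hn2
    have hP : 0 ≤ 9 / q * ∏ i : Fin g, ρ ^ (ah n i) :=
      mul_nonneg (by positivity) (Finset.prod_nonneg fun i _ => pow_nonneg h0.le _)
    have hone : q ^ (Ee h n) ≤ 1 := by
      calc q ^ (Ee h n) ≤ q ^ (0 : ℤ) := zpow_le_zpow_right₀ (by linarith) hE0
        _ = 1 := zpow_zero q
    have hi1 : (0 : ℝ) ≤ if n = 0 then (1 : ℝ) else 0 := by split_ifs <;> norm_num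
    have hi2 : (0 : ℝ) ≤ if n = e1 g then (1 : ℝ) else 0 := by split_ifs <;> norm_num
    rcases hE2 with hE2 | hE2 | hE2
    · have : (if n = 0 then (1 : ℝ) else 0) = 1 := if_pos hE2
      linarith
    · have : (if n = e1 g then (1 : ℝ) else 0) = 1 := if_pos hE2
      linarith
    · have hn0 : 0 ≤ - n 0 := (abs_nonneg (n 0)).trans ((typ_bd hn1).1 0)
      obtain ⟨a, ha⟩ := Int.eq_ofNat_of_zero_le hn0
      have h4 : q ^ (Ee h n) ≤ 9 / q * (1 / 3) ^ a := term_le hq hE2 (by omega)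
      have h5 : ((1 : ℝ) / 3) ^ a ≤ ∏ i : Fin g, ρ ^ (ah n i) := by
        calc ((1 : ℝ) / 3) ^ a ≤ (ρ ^ g) ^ a := pow_le_pow_left₀ (by norm_num) h3 a
          _ = ∏ _i : Fin g, ρ ^ a := by
              rw [Finset.prod_const, Finset.card_univ, Fintype.card_fin, ← pow_mul, ← pow_mul,
                mul_comm]
          _ ≤ ∏ i : Fin g, ρ ^ (ah n i) := by
              refine Finset.prod_le_prod (fun i _ => pow_nonneg h0.le _) fun i _ => ?_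
              refine pow_le_pow_of_le_one h0.le h1.le ?_
              have := ah_le hn1 i
              omega
      have h6 : 9 / q * (1 / 3) ^ a ≤ 9 / q * ∏ i : Fin g, ρ ^ (ah n i) :=
        mul_le_mul_of_nonneg_left h5 (by positivity)
      linarith
  refine (Finset.sum_le_sum hterm).trans ?_
  rw [Finset.sum_add_distrib, Finset.sum_add_distrib, ← Finset.mul_sum, Finset.sum_ite_eq',
    Finset.sum_ite_eq']
  have h7 : ∑ n ∈ (tys g h).filter (fun n => - (2 * n 0) ≤ (h : ℤ)), ∏ i : Fin g, ρ ^ (ah n i) ≤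
      ((1 - ρ)⁻¹) ^ g :=
    (Finset.sum_le_sum_of_subset_of_nonneg (Finset.filter_subset _ _) fun n _ _ =>
      Finset.prod_nonneg fun i _ => pow_nonneg h0.le _).trans (sum_ah h0 h1 g h)
  have h8 : 9 / q * ∑ n ∈ (tys g h).filter (fun n => - (2 * n 0) ≤ (h : ℤ)),
      ∏ i : Fin g, ρ ^ (ah n i) ≤ 9 / q * ((1 - ρ)⁻¹) ^ g :=
    mul_le_mul_of_nonneg_left h7 (by positivity)
  have h9 : 9 / q * ((1 - ρ)⁻¹) ^ g = 9 * ((1 - ρ)⁻¹) ^ g / q := by ring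
  rw [← h9]
  split_ifs <;> linarith

end Pool.Agent.H40.GC
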