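import Pool.Agent.H40.GC.EXI

set_option autoImplicit false

/-!
# [H40 GC EXL] THEOREM G (MP_1bad5e_ag), chapter CNT: the exponent for large types

PROOF.  `a_i = - n_i` (`i = 0, …, 2g`), antitone, `a_(2g-i) = - a_i`, `a_g = 0`, `a_i - a_(i+1) ≤ h`,
`h < 2 a_0`, `2 a_(g-1) ≤ h` (so `g ≥ 2`).  By `ext` (module EXI), with `T_ij = (a_i + a_j - 1)⁺ - (a_i + a_j - h - 1)⁺
= min (h, (a_i + a_j - 1)⁺) ≥ 0` (as `h ≥ 0`; the diagonal terms of the sum over `i ≤ j` are `(2 a_i - h - 1)⁺`):
`Ee = ∑_i (2 a_i - h - 1)⁺ - ∑_(i<j) T_ij`.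
Let `I = {i | h < 2 a_i}`; `I ⊆ {0, …, g - 2}` (antitone, `2 a_(g-1) ≤ h`), `0 ∈ I`, `#I ≤ g`.  For `i ∉ I` the diagonal term is
`0`.  So `Ee ≤ ∑_(i ∈ I) net_i`, `net_i = 2 a_i - h - 1 - ∑_(i < j < 2g-i) T_ij` (drop the other nonnegative `T_ij`).
(1) every `i ∈ I`: `net_i ≤ 2 g`.  For `i < j < 2g - i`: `a_i + a_j = a_j - a_(2g-i) ≥ a_j - a_(j+1)`, and
    `a_j - a_(j+1) ≤ h`, so `T_ij ≥ a_j - a_(j+1) - 1`; the sum telescopes:
    `∑_(i<j<2g-i) T_ij ≥ a_(i+1) - a_(2g-i) - (2g - 2i - 1) = a_(i+1) + a_i - (2g - 2i - 1) ≥ 2 a_i - h - (2g - 2i - 1)`,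
    `net_i ≤ 2g - 2i - 2 ≤ 2g`.
(2) the largest `i ∈ I` (so `i + 1 ≤ g - 1`, `2 a_(i+1) ≤ h`): `net_i ≤ 2 - h`.  Let `a = a_i`, `b = a_(i+1) ≥ 0`:
    `2 b ≤ h < 2 a`, `a - b ≤ h`.  The three different indices `j = i + 1`, `g`, `2g - (i + 1)` give
    `T = min (h, a + b - 1) + min (h, a - 1) + min (h, a - b - 1) ≥ 2 a - 3` (`a ≥ 1`, `a > b`):
    if `a ≤ h`, `a + b - 1 ≤ h`: `T = 3 a - 3 ≥ 2 a - 3`; if `a ≤ h < a + b - 1`: `T = h + 2 a - b - 2 ≥ 2 a - 2`;
    if `a > h`: `T = 2 h + a - b - 1 ≥ 2 a - 3` as `a ≤ b + h` and `2 b ≤ h` (all this is `omega`).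
So `Ee ≤ g * (2 g) + 2 - h`.
HINT: work with `a : ℕ → ℤ` (`a i = - n ⟨i, _⟩` for `i ≤ 2g`, else `0`) and sums over `Finset.range`, or bound
`∑_(p ∈ pl) T ≥ ∑_(i ∈ I) ∑_(j ∈ Ioo i (rev i)) T_ij` with `Finset.sum_le_sum_of_subset_of_nonneg`
(`Finset.sigma`/`Finset.sum_product'`).
-/

namespace Pool.Agent.H40.GC

/-- telescoping -/
theorem exl_tel (a : ℕ → ℤ) {k l : ℕ} (hkl : k ≤ l) :
    ∑ j ∈ Finset.Ico k l, (a j - a (j + 1) - 1) = a k - a l - ((l : ℤ) - k) := by
  induction l, hkl using Nat.le_induction with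
  | base => simp
  | succ l hl ih =>
    rw [Finset.sum_Ico_succ_top hl, ih]
    push_cast
    ring

/-- the statement for a sequence -/
theorem exl_seq {g h : ℕ} (a : ℕ → ℤ) (han : ∀ i j, i ≤ j → j ≤ 2 * g → a j ≤ a i)
    (hre : ∀ i, i ≤ 2 * g → a (2 * g - i) = - a i) (hga : ∀ i, i < 2 * g → a i - a (i + 1) ≤ h)
    (hto : ∀ i, i + 1 = g → 2 * a i ≤ h) (h0 : (h : ℤ) < 2 * a 0) :
    ∑ i ∈ Finset.range (2 * g + 1), (∑ j ∈ Finset.range (2 * g + 1),
        (if i ≤ j then ((a i + a j - h - 1).toNat : ℤ) else 0) -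
      ∑ j ∈ Finset.range (2 * g + 1), (if i < j then ((a i + a j - 1).toNat : ℤ) else 0)) ≤
    2 * (g : ℤ) ^ 2 + 2 - h := by
  classical
  have hag : a g = 0 := by
    have := hre g (by omega)
    rw [show 2 * g - g = g by omega] at this
    omega
  have hg0 : g ≠ 0 := by
    rintro rfl
    rw [hag] at h0
    omega
  obtain ⟨g', rfl⟩ : ∃ g', g = g' + 1 := ⟨g - 1, by omega⟩
  have htop : 2 * a g' ≤ h := hto g' rfl
  have hnn : ∀ i, i ≤ g' + 1 → 0 ≤ a i := fun i hi => hag ▸ han i (g' + 1) hi (by omega)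
  have hnp : ∀ i, g' + 1 ≤ i → i ≤ 2 * (g' + 1) → a i ≤ 0 := fun i hi hi2 => hag ▸ han (g' + 1) i hi hi2
  -- the terms
  have hterm : ∀ i ∈ Finset.range (2 * (g' + 1) + 1),
      (∑ j ∈ Finset.range (2 * (g' + 1) + 1),
        (if i ≤ j then ((a i + a j - h - 1).toNat : ℤ) else 0) -
      ∑ j ∈ Finset.range (2 * (g' + 1) + 1), (if i < j then ((a i + a j - 1).toNat : ℤ) else 0)) =
      ((2 * a i - h - 1).toNat : ℤ) - ∑ j ∈ Finset.range (2 * (g' + 1) + 1), (if i < j then
        (((a i + a j - 1).toNat : ℤ) - ((a i + a j - h - 1).toNat : ℤ)) else 0) := by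
    intro i hi
    have e1 : ((2 * a i - h - 1).toNat : ℤ) = ∑ j ∈ Finset.range (2 * (g' + 1) + 1),
        (if i = j then ((a i + a j - h - 1).toNat : ℤ) else 0) := by
      rw [Finset.sum_ite_eq, if_pos hi]
      congr 2
      ring
    rw [e1, ← Finset.sum_sub_distrib, ← Finset.sum_sub_distrib]
    refine Finset.sum_congr rfl fun j _ => ?_
    rcases lt_trichotomy i j with hij | hij | hij
    · rw [if_pos hij.le, if_pos hij, if_neg hij.ne, if_pos hij]
      ring
    · subst hij
      simp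
    · rw [if_neg (by omega), if_neg (by omega), if_neg (by omega), if_neg (by omega)]
  rw [Finset.sum_congr rfl hterm]
  -- nonnegativity
  have hT0 : ∀ i j, 0 ≤ (if i < j then
      (((a i + a j - 1).toNat : ℤ) - ((a i + a j - h - 1).toNat : ℤ)) else 0) := by
    intro i j
    split_ifs
    · omega
    · exact le_rfl
  have hS0 : ∀ i, 0 ≤ ∑ j ∈ Finset.range (2 * (g' + 1) + 1), (if i < j then
      (((a i + a j - 1).toNat : ℤ) - ((a i + a j - h - 1).toNat : ℤ)) else 0) :=
    fun i => Finset.sum_nonneg fun j _ => hT0 i j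
  -- the largest index
  have hex : ∃ i0, i0 < g' ∧ (h : ℤ) < 2 * a i0 ∧ 2 * a (i0 + 1) ≤ h := by
    have hlt : ∃ k, 2 * a (k + 1) ≤ h ∧ k < g' := by
      refine ⟨g' - 1, ?_, ?_⟩
      · by_cases hg' : g' = 0
        · subst hg'
          exact absurd htop (by omega)
        · rw [show g' - 1 + 1 = g' by omega]
          exact htop
      · by_contra hc
        have : g' = 0 := by omega
        subst this
        exact absurd htop (by omega)
    classical
    refine ⟨Nat.find hlt, (Nat.find_spec hlt).2, ?_, (Nat.find_spec hlt).1⟩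
    by_contra hc
    push Not at hc
    rcases Nat.eq_zero_or_pos (Nat.find hlt) with hz | hp
    · rw [hz] at hc
      omega
    · refine Nat.find_min hlt (m := Nat.find hlt - 1) (by omega) ⟨?_, ?_⟩
      · rw [show Nat.find hlt - 1 + 1 = Nat.find hlt by omega]
        exact hc
      · have := (Nat.find_spec hlt).2
        omega
  obtain ⟨i0, hi0g, hi0, hi01⟩ := hex
  -- the bound
  have hbd : ∀ i ∈ Finset.range (2 * (g' + 1) + 1),
      ((2 * a i - h - 1).toNat : ℤ) - ∑ j ∈ Finset.range (2 * (g' + 1) + 1), (if i < j then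
        (((a i + a j - 1).toNat : ℤ) - ((a i + a j - h - 1).toNat : ℤ)) else 0) ≤
      (if i0 = i then (2 - (h : ℤ)) else 0) + (if i < g' + 1 then (2 * ((g' + 1 : ℕ) : ℤ)) else 0) := by
    intro i hi
    have hi' : i ≤ 2 * (g' + 1) := by
      have := Finset.mem_range.1 hi
      omega
    by_cases hii : i0 = i
    · subst hii
      rw [if_pos rfl, if_pos (by omega)]
      have hsub : ({i0 + 1, g' + 1, 2 * (g' + 1) - (i0 + 1)} : Finset ℕ) ⊆
          Finset.range (2 * (g' + 1) + 1) := by
        intro j hj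
        simp only [Finset.mem_insert, Finset.mem_singleton] at hj
        rw [Finset.mem_range]
        omega
      have hle := Finset.sum_le_sum_of_subset_of_nonneg hsub (f := fun j => (if i0 < j then
        (((a i0 + a j - 1).toNat : ℤ) - ((a i0 + a j - h - 1).toNat : ℤ)) else 0))
        (fun j _ _ => hT0 i0 j)
      rw [Finset.sum_insert (by
          simp only [Finset.mem_insert, Finset.mem_singleton]
          omega), Finset.sum_insert (by
          simp only [Finset.mem_singleton]
          omega), Finset.sum_singleton, if_pos (by omega), if_pos (by omega), if_pos (by omega)] at hle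
      have h3 := hre (i0 + 1) (by omega)
      have h4 := hga i0 (by omega)
      have h5 := hnn (i0 + 1) (by omega)
      rw [h3, hag] at hle
      omega
    · rw [if_neg hii]
      by_cases hI : (h : ℤ) < 2 * a i
      · -- in the set
        have hig : i ≤ g' := by
          by_contra hc
          have := hnp i (by omega) hi'
          omega
        rw [if_pos (by omega)]
        have hsub : Finset.Ico (i + 1) (2 * (g' + 1) - i) ⊆ Finset.range (2 * (g' + 1) + 1) := by
          intro j hj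
          rw [Finset.mem_Ico] at hj
          rw [Finset.mem_range]
          omega
        have hle := Finset.sum_le_sum_of_subset_of_nonneg hsub (f := fun j => (if i < j then
          (((a i + a j - 1).toNat : ℤ) - ((a i + a j - h - 1).toNat : ℤ)) else 0))
          (fun j _ _ => hT0 i j)
        have hle2 : ∑ j ∈ Finset.Ico (i + 1) (2 * (g' + 1) - i), (a j - a (j + 1) - 1) ≤
            ∑ j ∈ Finset.Ico (i + 1) (2 * (g' + 1) - i), (if i < j then
              (((a i + a j - 1).toNat : ℤ) - ((a i + a j - h - 1).toNat : ℤ)) else 0) := by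
          refine Finset.sum_le_sum fun j hj => ?_
          rw [Finset.mem_Ico] at hj
          rw [if_pos (by omega)]
          have h1 := hre i hi'
          have h2 := han (j + 1) (2 * (g' + 1) - i) (by omega) (by omega)
          have h3 := hga j (by omega)
          omega
        rw [exl_tel a (by omega), hre i hi'] at hle2
        have h4 := hga i (by omega)
        omega
      · have h1 : ((2 * a i - h - 1).toNat : ℤ) = 0 := by omega
        have h2 := hS0 i
        rw [h1]
        split_ifs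
        · omega
        · omega
  refine (Finset.sum_le_sum hbd).trans ?_
  rw [Finset.sum_add_distrib, Finset.sum_ite_eq, if_pos (Finset.mem_range.2 (by omega)),
    ← Finset.sum_filter]
  have hf : (Finset.range (2 * (g' + 1) + 1)).filter (fun i => i < g' + 1) = Finset.range (g' + 1) := by
    ext i
    simp only [Finset.mem_filter, Finset.mem_range]
    omega
  rw [hf, Finset.sum_const, Finset.card_range, nsmul_eq_mul]
  apply le_of_eq
  push_cast
  ring

theorem exl {g h : ℕ} {n : Fin (2 * g + 1) → ℤ} (hn : IsType g h n) (hs : (h : ℤ) < - (2 * n 0)) :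
    Ee h n ≤ 2 * (g : ℤ) ^ 2 + 2 - h := by
  classical
  set a : ℕ → ℤ := fun i => if hi : i < 2 * g + 1 then - n ⟨i, hi⟩ else 0 with ha
  have hav : ∀ i : Fin (2 * g + 1), a (i : ℕ) = - n i := by
    intro i
    simp only [ha]
    rw [dif_pos i.2]
  have key := exl_seq (g := g) (h := h) a ?_ ?_ ?_ ?_ ?_
  · refine le_trans (le_of_eq ?_) key
    rw [ext n hn.anti h, Finset.sum_sub_distrib]
    congr 1
    · rw [ps, Finset.sum_filter, Fintype.sum_prod_type,
        ← Fin.sum_univ_eq_sum_range (fun i => ∑ j ∈ Finset.range (2 * g + 1),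
          (if i ≤ j then ((a i + a j - h - 1).toNat : ℤ) else 0))]
      refine Finset.sum_congr rfl fun i _ => ?_
      rw [← Fin.sum_univ_eq_sum_range (fun j => (if (i : ℕ) ≤ j then
        ((a i + a j - h - 1).toNat : ℤ) else 0))]
      refine Finset.sum_congr rfl fun j _ => ?_
      rw [hav, hav]
      by_cases hij : i ≤ j
      · rw [if_pos hij, if_pos (by exact hij)]
        congr 2
      · rw [if_neg hij, if_neg (by exact hij)]
    · rw [pl, Finset.sum_filter, Fintype.sum_prod_type,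
        ← Fin.sum_univ_eq_sum_range (fun i => ∑ j ∈ Finset.range (2 * g + 1),
          (if i < j then ((a i + a j - 1).toNat : ℤ) else 0))]
      refine Finset.sum_congr rfl fun i _ => ?_
      rw [← Fin.sum_univ_eq_sum_range (fun j => (if (i : ℕ) < j then
        ((a i + a j - 1).toNat : ℤ) else 0))]
      refine Finset.sum_congr rfl fun j _ => ?_
      rw [hav, hav]
      by_cases hij : i < j
      · rw [if_pos hij, if_pos (by exact hij)]
        congr 2
      · rw [if_neg hij, if_neg (by exact hij)]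
  · intro i j hij hj
    have h1 := hn.mono (show (⟨i, by omega⟩ : Fin (2 * g + 1)) ≤ ⟨j, by omega⟩ from hij)
    have h2 := hav ⟨i, by omega⟩
    have h3 := hav ⟨j, by omega⟩
    simp only at h2 h3
    omega
  · intro i hi
    have h1 := hn.anti ⟨i, by omega⟩
    have h2 := hav ⟨i, by omega⟩
    have h3 := hav (Fin.rev ⟨i, by omega⟩)
    have h4 : ((Fin.rev (⟨i, by omega⟩ : Fin (2 * g + 1)) : Fin (2 * g + 1)) : ℕ) = 2 * g - i := by
      rw [Fin.val_rev]
      simp only
      omega
    rw [h4] at h3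
    simp only at h2
    omega
  · intro i hi
    have h1 := hn.gap ⟨i, hi⟩
    have h2 := hav (Fin.succ ⟨i, hi⟩)
    have h3 := hav (Fin.castSucc ⟨i, hi⟩)
    simp only [Fin.val_succ, Fin.val_castSucc] at h2 h3
    omega
  · intro i hi
    have h1 := hn.top ⟨i, by omega⟩ hi
    have h2 := hav ⟨i, by omega⟩
    simp only at h2
    omega
  · have h2 := hav 0
    simp only [Fin.val_zero] at h2
    omega

end Pool.Agent.H40.GC
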