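import Pool.Agent.H40.GC.EXS
import Pool.Agent.H40.GC.EXL
import Pool.Agent.H40.GC.TYS

set_option autoImplicit false

/-!
# [H40 GC SUB] THEOREM G (MP_1bad5e_ag), chapter CNT: the sum over the large types tends to zero

PROOF.  Let `n` be in the set, `a = - n 0`, `h < 2 a + N`.  If `2 a ≤ h`: `Ee ≤ 1 - a` (`exs`), so `2 Ee ≤ 2 - 2 a ≤
2 + N - h`.  If `h < 2 a`: `Ee ≤ 2 g² + 2 - h` (`exl`), so `2 Ee ≤ 4 g² + 4 - 2 h ≤ 4 g² + 4 - h`.  In both cases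
`2 Ee ≤ K - h`, `K = N + 4 g² + 4`.  Let `s = √q`, `s ^ 2 = q`, `1 < s` (as `q ≥ 3`).  Then
`q ^ Ee = s ^ (2 * Ee) ≤ s ^ (K - h) = s ^ K / s ^ h` (`zpow_le_zpow_right₀`).  The sum is at most
`(g h + 1) ^ g * s ^ K / s ^ h` (`card_tys`), which tends to `0` for `h → ∞`: for `h ≥ 1`,
`(g h + 1) ^ g ≤ (g + 1) ^ g * h ^ g`, and `h ^ g / s ^ h → 0` (`tendsto_pow_const_div_const_pow_of_one_lt`).
-/

namespace Pool.Agent.H40.GC

open Classical in
theorem sub (g N : ℕ) (q : ℝ) (hq : 3 ≤ q) (ε : ℝ) (hε : 0 < ε) : ∃ h0 : ℕ, ∀ h : ℕ, h0 ≤ h →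
    ∑ n ∈ (tys g h).filter (fun n => (h : ℤ) < - (2 * n 0) + N), q ^ (Ee h n) ≤ ε := by
  obtain ⟨s, hs2, hs1⟩ : ∃ s : ℝ, s ^ 2 = q ∧ 1 < s :=
    ⟨Real.sqrt q, Real.sq_sqrt (by linarith), by
      rw [Real.lt_sqrt (by norm_num)]
      linarith⟩
  have hs0 : 0 < s := by linarith
  obtain ⟨K, hK⟩ : ∃ K : ℕ, K = N + 4 * g ^ 2 + 4 := ⟨_, rfl⟩
  obtain ⟨C, hC⟩ : ∃ C : ℝ, C = ((g : ℝ) + 1) ^ g * s ^ K := ⟨_, rfl⟩
  have ht := (tendsto_pow_const_div_const_pow_of_one_lt g hs1).const_mul C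
  rw [mul_zero] at ht
  obtain ⟨h1, hh1⟩ := Filter.eventually_atTop.1 (ht.eventually (gt_mem_nhds hε))
  refine ⟨max h1 1, fun h hh => ?_⟩
  have hh2 := hh1 h (le_trans (le_max_left _ _) hh)
  have hh3 : 1 ≤ h := le_trans (le_max_right _ _) hh
  have hterm : ∀ n ∈ (tys g h).filter (fun n => (h : ℤ) < - (2 * n 0) + N),
      q ^ (Ee h n) ≤ s ^ ((K : ℤ) - h) := by
    intro n hn
    rw [Finset.mem_filter, mem_tys] at hn
    obtain ⟨hn1, hn2⟩ := hn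
    have h2 : 2 * Ee h n ≤ (K : ℤ) - h := by
      rw [hK]
      push_cast
      have hg := sq_nonneg (g : ℤ)
      have hh := Int.natCast_nonneg h
      have hN := Int.natCast_nonneg N
      rcases le_or_gt (-(2 * n 0)) (h : ℤ) with h3 | h3
      · have := (exs hn1 h3).2.1
        linarith
      · have := exl hn1 h3
        linarith
    calc q ^ (Ee h n) = s ^ (2 * Ee h n) := by
          rw [zpow_mul, ← hs2]
          norm_cast
      _ ≤ _ := zpow_le_zpow_right₀ hs1.le h2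
  have hcard : (((tys g h).filter (fun n => (h : ℤ) < - (2 * n 0) + N)).card : ℝ) ≤
      ((g : ℝ) + 1) ^ g * (h : ℝ) ^ g := by
    have h4 : ((tys g h).filter (fun n => (h : ℤ) < - (2 * n 0) + N)).card ≤ ((g + 1) * h) ^ g := by
      refine (Finset.card_filter_le _ _).trans ((card_tys g h).trans ?_)
      refine Nat.pow_le_pow_left ?_ g
      rw [add_mul, one_mul]
      omega
    have h5 : (((tys g h).filter (fun n => (h : ℤ) < - (2 * n 0) + N)).card : ℝ) ≤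
        ((((g + 1) * h) ^ g : ℕ) : ℝ) := Nat.cast_le.2 h4
    refine h5.trans (le_of_eq ?_)
    push_cast
    rw [mul_pow]
  have hpos : 0 < s ^ ((K : ℤ) - h) := zpow_pos hs0 _
  calc ∑ n ∈ (tys g h).filter (fun n => (h : ℤ) < - (2 * n 0) + N), q ^ (Ee h n)
      ≤ ∑ n ∈ (tys g h).filter (fun n => (h : ℤ) < - (2 * n 0) + N), s ^ ((K : ℤ) - h) :=
        Finset.sum_le_sum hterm
    _ = (((tys g h).filter (fun n => (h : ℤ) < - (2 * n 0) + N)).card : ℝ) *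
          s ^ ((K : ℤ) - h) := by rw [Finset.sum_const, nsmul_eq_mul]
    _ ≤ ((g : ℝ) + 1) ^ g * (h : ℝ) ^ g * s ^ ((K : ℤ) - h) :=
        mul_le_mul_of_nonneg_right hcard hpos.le
    _ = C * ((h : ℝ) ^ g / s ^ h) := by
        rw [hC, zpow_sub₀ hs0.ne', zpow_natCast, zpow_natCast]
        ring
    _ ≤ ε := hh2.le

end Pool.Agent.H40.GC
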