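import Pool.Agent.H40.GC.NUM
import Pool.Agent.H40.GC.SUA
import Pool.Agent.H40.GC.SUB
import Pool.Agent.H40.GC.IRC

set_option autoImplicit false

/-!
# [H40 GC SMF] THEOREM G (MP_1bad5e_ag), chapter CNT: the sum over all types

PROOF.  Let `q = |F| ≥ 3`, `m = 2 g + 1`, `κ = (1 - 1/q)⁻¹ ^ m ≥ 0`, `K = (∏ c) c' ≥ 0`, `δ = dens k m T T' > 0`
(`hT`, `hT'`: the sets are finite and not empty, `finite_mon` in IRC), `|Fam'| = δ q ^ Mh` for `h ≥ N` (`fmc`; `FamT` unfolds to the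
condition in `fmc`).  Let `ε > 0`, and `h0` from `sub g N q` for `ε δ / κ` (here `κ > 0`), also `h0 ≥ N`.
For `h ≥ h0` split `tys g h` into the `n` with `- (2 n 0) + N ≤ h` (small) and the others (large,
`h < - (2 n 0) + N`).
Small: `h + n i + n j ≥ h + 2 n 0 ≥ N` (`typ_bd`: `n i ≥ n 0`), so `num` applies; the sum of the `q ^ Ee` over the small
`n` is at most `2 + Cg g / q` (`Cg` is the constant of `sua`; a subset of the set in `sua`, all terms are positive).
Large: `Prs ⊆ {IsGB}` and `num_all`: the sum is at most `κ q ^ Mh * (ε δ / κ) = ε δ q ^ Mh = ε |Fam'|`.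
Sum: `(κ K (2 + Cg / q) + ε) |Fam'|`.
-/

namespace Pool.Agent.H40.GC

open Polynomial Matrix
open Pool.Agent.H3.GG (DLe CharEq TrivC IsGB IsA)

/-- the constant of `sua` -/
noncomputable def Cg (g : ℕ) : ℝ := (sua g).choose

theorem Cg_nonneg (g : ℕ) : 0 ≤ Cg g := (sua g).choose_spec.1

private theorem three_le (F : Type) [Field F] [Finite F] (h2 : (2 : F) ≠ 0) : 3 ≤ Nat.card F := by
  have := Fintype.ofFinite F
  have h1 : 1 < Nat.card F := Finite.one_lt_card
  have h3 : ((Nat.card F : ℕ) : F) = 0 := by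
    rw [Nat.card_eq_fintype_card]
    exact Nat.cast_card_eq_zero F
  by_contra hc
  have h4 : Nat.card F = 2 := by omega
  rw [h4] at h3
  exact h2 (by exact_mod_cast h3)

private theorem card_mon_pos {k : Type} [Field k] [Finite k] (m : ℕ) (T : Set k[X])
    (h : (mon m T).Nonempty) : (0 : ℝ) < (Nat.card (mon m T) : ℝ) / (Nat.card k : ℝ) ^ m := by
  have h1 : Finite (mon m T) := (finite_mon m T).to_subtype
  have h2 : Nonempty (mon m T) := h.to_subtype
  have h3 : 0 < Nat.card (mon m T) := Nat.card_pos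
  have h4 : 0 < Nat.card k := Nat.card_pos
  have h3' : (0 : ℝ) < (Nat.card (mon m T) : ℝ) := Nat.cast_pos.2 h3
  have h4' : (0 : ℝ) < (Nat.card k : ℝ) := Nat.cast_pos.2 h4
  exact div_pos h3' (pow_pos h4' m)

private theorem dens_pos {F : Type} [Field F] [Finite F] {S : Type} [Fintype S] (k : S → Type)
    [∀ s, Field (k s)] [∀ s, Finite (k s)] (m : ℕ) (T : ∀ s, Set (k s)[X]) (T' : Set F[X])
    (hT : ∀ s, (mon m (T s)).Nonempty) (hT' : (mon m T').Nonempty) : 0 < dens k m T T' := by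
  unfold dens
  exact mul_pos (Finset.prod_pos fun s _ => card_mon_pos m (T s) (hT s)) (card_mon_pos m T' hT')

theorem smf {F : Type} [Field F] [Finite F] (h2 : (2 : F) ≠ 0) {S : Type} [Fintype S] (k : S → Type)
    [∀ s, Field (k s)] [∀ s, Finite (k s)] (φ : ∀ s, F[X] →+* k s) (hE : ∃ N, Eqd k φ N) (g : ℕ)
    (T : ∀ s, Set (k s)[X]) (T' : Set F[X]) (hT : ∀ s, (mon (2 * g + 1) (T s)).Nonempty)
    (hT' : (mon (2 * g + 1) T').Nonempty) (P : Set S) (c : S → ℝ) (c' : ℝ) (hc0 : ∀ s, 0 ≤ c s)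
    (hc0' : 0 ≤ c') (hc : ∀ s, LocB (k s) (2 * g + 1) (c s) (T s) (s ∈ P))
    (hc' : LocB F (2 * g + 1) c' T' False) (ε : ℝ) (hε : 0 < ε) :
    ∃ h0 : ℕ, ∀ h : ℕ, h0 ≤ h →
      ∑ n ∈ tys g h, 2 * (Nat.card (Prs k φ h n T T' P) : ℝ) / nA F n ≤
        ((1 - 1 / (Nat.card F : ℝ))⁻¹ ^ (2 * g + 1) * ((∏ s, c s) * c') *
          (2 + Cg g / (Nat.card F : ℝ)) + ε) *
        (Nat.card {f : F[X][X] // FamT k φ (2 * g + 1) h T T' f} : ℝ) := by
  classical
  obtain ⟨N, hN⟩ := hE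
  have hq3 : 3 ≤ Nat.card F := three_le F h2
  obtain ⟨q, hq⟩ : ∃ q : ℝ, q = (Nat.card F : ℝ) := ⟨_, rfl⟩
  have hq3' : 3 ≤ q := by
    rw [hq]
    exact_mod_cast hq3
  have hq0 : 0 < q := by linarith
  have hm : Odd (2 * g + 1) := ⟨g, rfl⟩
  obtain ⟨κ, hκ⟩ : ∃ κ : ℝ, κ = (1 - 1 / q)⁻¹ ^ (2 * g + 1) := ⟨_, rfl⟩
  have hκ0 : 0 < κ := by
    rw [hκ]
    refine pow_pos (inv_pos.2 ?_) _
    have : 1 / q ≤ 1 / 3 := one_div_le_one_div_of_le (by norm_num) hq3'
    linarith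
  obtain ⟨K, hK⟩ : ∃ K : ℝ, K = (∏ s, c s) * c' := ⟨_, rfl⟩
  have hK0 : 0 ≤ K := by
    rw [hK]
    exact mul_nonneg (Finset.prod_nonneg fun s _ => hc0 s) hc0'
  obtain ⟨δ, hδ⟩ : ∃ δ : ℝ, δ = dens k (2 * g + 1) T T' := ⟨_, rfl⟩
  have hδ0 : 0 < δ := by
    rw [hδ]
    exact dens_pos k (2 * g + 1) T T' hT hT'
  obtain ⟨h0, hh0⟩ := sub g N q hq3' (ε * δ / κ) (by positivity)
  refine ⟨max h0 N, fun h hh => ?_⟩
  have hl := hh0 h (le_trans (le_max_left _ _) hh)
  have hNh : N ≤ h := le_trans (le_max_right _ _) hh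
  have hfam : (Nat.card {f : F[X][X] // FamT k φ (2 * g + 1) h T T' f} : ℝ) =
      δ * q ^ Mh (2 * g + 1) h := by
    rw [hδ, hq]
    exact fmc k φ hN (2 * g + 1) h hNh T T'
  obtain ⟨Q, hQ⟩ : ∃ Q : ℝ, Q = q ^ Mh (2 * g + 1) h := ⟨_, rfl⟩
  have hQ0 : 0 < Q := by
    rw [hQ]
    positivity
  rw [hfam, ← hq, ← hκ, ← hK, ← hQ]
  rw [← Finset.sum_filter_add_sum_filter_not (tys g h) (fun n => (h : ℤ) < - (2 * n 0) + N)]
  have hlarge : ∑ n ∈ (tys g h).filter (fun n => (h : ℤ) < - (2 * n 0) + N),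
      2 * (Nat.card (Prs k φ h n T T' P) : ℝ) / nA F n ≤ ε * (δ * Q) := by
    calc ∑ n ∈ (tys g h).filter (fun n => (h : ℤ) < - (2 * n 0) + N),
        2 * (Nat.card (Prs k φ h n T T' P) : ℝ) / nA F n
        ≤ ∑ n ∈ (tys g h).filter (fun n => (h : ℤ) < - (2 * n 0) + N), κ * Q * q ^ Ee h n := by
          refine Finset.sum_le_sum fun n hn => ?_
          rw [Finset.mem_filter, mem_tys] at hn
          obtain ⟨hn1, -⟩ := hn
          have h5 := num_all F h2 hm h n hn1.anti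
          rw [← hq, ← hκ, ← hQ] at h5
          refine le_trans ?_ h5
          have h6 : Nat.card (Prs k φ h n T T' P) ≤
              Nat.card {p : Matrix (Fin (2 * g + 1)) (Fin (2 * g + 1)) F[X] ×
                Matrix (Fin (2 * g + 1)) (Fin (2 * g + 1)) F[X] // IsGB h n p.1 p.2} :=
            Nat.card_mono (cnp_fin F h n) (fun p hp => hp.1)
          have h7 : (Nat.card (Prs k φ h n T T' P) : ℝ) ≤
              (Nat.card {p : Matrix (Fin (2 * g + 1)) (Fin (2 * g + 1)) F[X] ×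
                Matrix (Fin (2 * g + 1)) (Fin (2 * g + 1)) F[X] // IsGB h n p.1 p.2} : ℝ) :=
            Nat.cast_le.2 h6
          have h8 : (0 : ℝ) ≤ (nA F n : ℝ) := Nat.cast_nonneg _
          exact div_le_div_of_nonneg_right (by linarith) h8
      _ = κ * Q * ∑ n ∈ (tys g h).filter (fun n => (h : ℤ) < - (2 * n 0) + N), q ^ Ee h n := by
          rw [Finset.mul_sum]
      _ ≤ κ * Q * (ε * δ / κ) := mul_le_mul_of_nonneg_left hl (by positivity)
      _ = ε * (δ * Q) := by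
          field_simp
  have hsmall : ∑ n ∈ (tys g h).filter (fun n => ¬ (h : ℤ) < - (2 * n 0) + N),
      2 * (Nat.card (Prs k φ h n T T' P) : ℝ) / nA F n ≤ κ * K * (δ * Q) * (2 + Cg g / q) := by
    calc ∑ n ∈ (tys g h).filter (fun n => ¬ (h : ℤ) < - (2 * n 0) + N),
        2 * (Nat.card (Prs k φ h n T T' P) : ℝ) / nA F n
        ≤ ∑ n ∈ (tys g h).filter (fun n => ¬ (h : ℤ) < - (2 * n 0) + N),
            κ * K * (δ * Q) * q ^ Ee h n := by
          refine Finset.sum_le_sum fun n hn => ?_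
          rw [Finset.mem_filter, mem_tys] at hn
          obtain ⟨hn1, hn2⟩ := hn
          have h5 := num h2 k φ hN hm (h := h) hn1.anti (fun i j => by
            have h6 := typ_zero_le hn1 i
            have h7 := typ_zero_le hn1 j
            push Not at hn2
            linarith) T T' P c c' hc0 hc0' hc hc'
          rw [← hq, ← hκ, ← hQ, ← hK, ← hδ] at h5
          exact h5
      _ = κ * K * (δ * Q) *
          ∑ n ∈ (tys g h).filter (fun n => ¬ (h : ℤ) < - (2 * n 0) + N), q ^ Ee h n := by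
          rw [Finset.mul_sum]
      _ ≤ κ * K * (δ * Q) *
          ∑ n ∈ (tys g h).filter (fun n => - (2 * n 0) ≤ (h : ℤ)), q ^ Ee h n := by
          refine mul_le_mul_of_nonneg_left ?_ (by positivity)
          refine Finset.sum_le_sum_of_subset_of_nonneg ?_ fun n _ _ => (zpow_pos hq0 _).le
          intro n hn
          rw [Finset.mem_filter] at hn ⊢
          refine ⟨hn.1, ?_⟩
          have h6 := hn.2
          push Not at h6
          have h7 : (0 : ℤ) ≤ (N : ℤ) := Int.natCast_nonneg N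
          linarith
      _ ≤ κ * K * (δ * Q) * (2 + Cg g / q) := by
          refine mul_le_mul_of_nonneg_left ?_ (by positivity)
          exact (sua g).choose_spec.2 h q hq3'
  calc _ ≤ ε * (δ * Q) + κ * K * (δ * Q) * (2 + Cg g / q) := add_le_add hlarge hsmall
    _ = (κ * K * (2 + Cg g / q) + ε) * (δ * Q) := by ring

end Pool.Agent.H40.GC
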