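import Pool.Agent.H40.GC.CLS
import Pool.Agent.H40.GC.LCB
import Pool.Agent.H40.GC.SMF

set_option autoImplicit false

/-!
# [H40 GC ENA] THEOREM G (MP_1bad5e_ag), chapter CNT: the average number of classes

PROOF.
`fams_fin`: `Nat.card {f // Fam m h f} = q ^ Mh m h ≠ 0` (`fmc_all`), so the set is finite; `FamS` is a subset.
`ena_dis`: the sets `GBs f h n Q`, `f ∈ A`, are pairwise disjoint, as `CharEq f G B` determines `f` (`G.det ≠ 0` by
`IsGB.det`; `C G.det * f = C G.det * f'`), and they are contained in the finite set `Prs` (`cnp_fin`) with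
`k s = kv s.1`, `φ s = rv s.1`, `T s = Tv P s.1`, `T' = Tirr F`, `P' = {s | s.1 ∈ Q}`, by `fams_iff`
(`GBs` has `TrivC (md v G) (md v B)` for `v ∈ Q`, `md v G = G.map (Ideal.Quotient.mk v.asIdeal)`).  So the sum of the
numbers is at most the number of the union.
`ena`: for `f ∈ FamS`, `Smooth f`: `LatO g h f` (`hLat`), and for `v ∈ Q ⊆ P` the polynomial `f` is special at `v`, so
`f` modulo `v` is squarefree: `(X - C c) * G`, both factors irreducible, coprime (`G.eval c ≠ 0`)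
(`squarefree_mul_iff`).  So `cls_bd`; exchange the sums (`Finset.sum_comm`), `ena_dis` for each `n`, and `smf` with
`c s = if s.1 ∈ Q then kap (kv s.1) m / 2 else kap (kv s.1) m`, `c' = kap F m`: `LocB`: for `s.1 ∈ Q ⊆ P` the set `Tv P s.1` is
`Tspec` (`lcb_triv`; the condition `s ∈ P'` is `True`: `propext`), for `s.1 ∉ Q` it is `Tspec` or `Tirr` (`lcb_spec`,
`lcb_irr`, `False`).  The sets `mon m (Tv P s)` are not empty by `irc_spec`, `irc_irr`.  The product of the `c s` is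
`(∏ kap) * (1/2) ^ Q.card` (`Finset.prod_ite`, the number of the `s` with `s.1 ∈ Q` is `Q.card` as `Q ⊆ P ∪ Z`;
`Finset.prod_coe_sort`).  `kap F m` is the factor `(1 - 1/q)⁻¹ ^ (2 g + 1)` in `smf`.
-/

namespace Pool.Agent.H40.GC

open Polynomial IsDedekindDomain Matrix
open Pool.Agent.H80.CC.Plane (overK overKv toL toLv)
open Pool.Agent.H3.GG (DLe CharEq TrivC IsGB IsA GBs IsTy HasTy)
open Pool.Agent.H94.GG (Fam lead Special Harmless Smooth IsS0 SqAt)

variable {F : Type} [Field F]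

theorem fams_fin [Finite F] (m h : ℕ) (P Z : Finset (HeightOneSpectrum F[X])) :
    {f : F[X][X] | FamS m h P Z f}.Finite := by
  have h1 : Finite {f : F[X][X] // Fam m h f} := by
    apply Nat.finite_of_card_ne_zero
    rw [fmc_all]
    exact pow_ne_zero _ Nat.card_pos.ne'
  have h2 : {f : F[X][X] | Fam m h f}.Finite := h1
  exact h2.subset fun f hf => hf.1

private theorem charEq_unique {m h : ℕ} {n : Fin m → ℤ} {G B : Matrix (Fin m) (Fin m) F[X]}
    (hGB : IsGB h n G B) {f f' : F[X][X]} (h1 : CharEq f G B) (h2 : CharEq f' G B) : f = f' := by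
  obtain ⟨a, ha, hdet⟩ := hGB.det
  have h3 : (C G.det : F[X][X]) ≠ 0 := by
    rw [Ne, C_eq_zero, hdet, C_eq_zero]
    refine mul_ne_zero (pow_ne_zero _ (neg_ne_zero.2 one_ne_zero)) (pow_ne_zero _ ha)
  unfold CharEq at h1 h2
  rw [h1] at h2
  exact mul_left_cancel₀ h3 h2

open Classical in
theorem ena_dis [Finite F] {m h : ℕ} (n : Fin m → ℤ) {P Z Q : Finset (HeightOneSpectrum F[X])}
    (hPZ : Disjoint P Z) (hQ : Q ⊆ P) (A : Finset F[X][X]) (hA : ∀ f ∈ A, FamS m h P Z f) :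
    ∑ f ∈ A, (GBs f h n (Q : Set (HeightOneSpectrum F[X]))).ncard ≤
      Nat.card (Prs (fun s : {v // v ∈ P ∪ Z} => kv s.1) (fun s => rv s.1) h n
        (fun s => Tv P s.1) (Tirr F) {s | s.1 ∈ Q}) := by
  have hfin : ∀ f, (GBs f h n (Q : Set (HeightOneSpectrum F[X]))).Finite := fun f =>
    (cnp_fin F h n).subset fun p hp => hp.1
  have hPf : (Prs (fun s : {v // v ∈ P ∪ Z} => kv s.1) (fun s => rv s.1) h n
        (fun s => Tv P s.1) (Tirr F) {s | s.1 ∈ Q}).Finite :=
    (cnp_fin F h n).subset fun p hp => hp.1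
  rw [Nat.card_coe_set_eq, Set.ncard_eq_toFinset_card _ hPf]
  calc ∑ f ∈ A, (GBs f h n (Q : Set (HeightOneSpectrum F[X]))).ncard
      = ∑ f ∈ A, (hfin f).toFinset.card :=
        Finset.sum_congr rfl fun f _ => Set.ncard_eq_toFinset_card _ (hfin f)
    _ = (A.biUnion fun f => (hfin f).toFinset).card := by
        rw [Finset.card_biUnion]
        intro f _ f' _ hne
        change Disjoint (hfin f).toFinset (hfin f').toFinset
        rw [Finset.disjoint_left]
        intro p hp hp'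
        rw [Set.Finite.mem_toFinset] at hp hp'
        exact hne (charEq_unique hp.1 hp.2.1 hp'.2.1)
    _ ≤ hPf.toFinset.card := by
        apply Finset.card_le_card
        intro p hp
        rw [Finset.mem_biUnion] at hp
        obtain ⟨f, hf, hp⟩ := hp
        rw [Set.Finite.mem_toFinset] at hp ⊢
        exact ⟨hp.1, ⟨f, (fams_iff hPZ f).1 (hA f hf), hp.2.1⟩,
          fun s hs => hp.2.2 s.1 (Finset.mem_coe.2 hs)⟩

/-- the constant in the bounds -/
noncomputable def Kc (F : Type) [Field F] (g : ℕ) (P Z Q : Finset (HeightOneSpectrum F[X])) : ℝ :=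
  kap F (2 * g + 1) ^ 2 * ((∏ v ∈ P, kap (kv v) (2 * g + 1)) * ∏ v ∈ Z, kap (kv v) (2 * g + 1)) *
    (2 + Cg g / (Nat.card F : ℝ)) * (1 / 2) ^ Q.card

private theorem tspec_sqf {k : Type} [Field k] {p : k[X]} (hp : p ∈ Tspec k) : Squarefree p := by
  obtain ⟨c, G, hG, _, he, rfl⟩ := hp
  have hc : IsRelPrime (X - C c) G := by
    apply IsCoprime.isRelPrime
    rw [(irreducible_X_sub_C c).coprime_iff_not_dvd, dvd_iff_isRoot]
    exact he
  rw [squarefree_mul_iff]
  exact ⟨hc, (irreducible_X_sub_C c).squarefree, hG.squarefree⟩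

private theorem tv_mem {P : Finset (HeightOneSpectrum F[X])} {v : HeightOneSpectrum F[X]}
    (h : v ∈ P) : Tv P v = Tspec (kv v) := by
  ext p
  exact ⟨fun hp => hp.1 h, fun hp => ⟨fun _ => hp, fun h' => absurd h h'⟩⟩

private theorem tv_not_mem {P : Finset (HeightOneSpectrum F[X])} {v : HeightOneSpectrum F[X]}
    (h : v ∉ P) : Tv P v = Tirr (kv v) := by
  ext p
  exact ⟨fun hp => hp.2 h, fun hp => ⟨fun h' => absurd h' h, fun _ => hp⟩⟩

private theorem nonempty_of_card {k : Type} [Field k] [Finite k] {m c : ℕ} {T : Set k[X]}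
    (h : Nat.card k ^ m ≤ c * Nat.card (mon m T)) : (mon m T).Nonempty := by
  by_contra h0
  rw [Set.not_nonempty_iff_eq_empty] at h0
  rw [h0, Nat.card_coe_set_eq, Set.ncard_empty, mul_zero] at h
  exact absurd h (not_le.2 (pow_pos Nat.card_pos m))

open Classical in
private theorem prod_c (m : ℕ) {P Z Q : Finset (HeightOneSpectrum F[X])} (hPZ : Disjoint P Z)
    (hQ : Q ⊆ P) :
    ∏ s : {v // v ∈ P ∪ Z}, (if s.1 ∈ Q then kap (kv s.1) m / 2 else kap (kv s.1) m) =
      ((∏ v ∈ P, kap (kv v) m) * ∏ v ∈ Z, kap (kv v) m) * (1 / 2) ^ Q.card := by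
  rw [Finset.prod_coe_sort (P ∪ Z) (fun v => if v ∈ Q then kap (kv v) m / 2 else kap (kv v) m)]
  have h1 : ∀ v ∈ P ∪ Z, (if v ∈ Q then kap (kv v) m / 2 else kap (kv v) m) =
      kap (kv v) m * (if v ∈ Q then (1 / 2 : ℝ) else 1) := by
    intro v _
    split_ifs
    · ring
    · ring
  rw [Finset.prod_congr rfl h1, Finset.prod_mul_distrib, Finset.prod_union hPZ,
    Finset.prod_ite_mem, Finset.inter_eq_right.2 (hQ.trans Finset.subset_union_left),
    Finset.prod_const]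

open Classical in
theorem ena [Finite F] (h2 : (2 : F) ≠ 0) {g : ℕ} (hg : 1 ≤ g)
    {P Z Q : Finset (HeightOneSpectrum F[X])} (hPZ : Disjoint P Z) (hQ : Q ⊆ P) (ε : ℝ) (hε : 0 < ε)
    (hLat : ∀ (h : ℕ) (f : F[X][X]), 1 ≤ h → Fam (2 * g + 1) h f → Irreducible (lead (2 * g + 1) h f) →
      Smooth f → LatO g h f) :
    ∃ h0 : ℕ, ∀ h : ℕ, h0 ≤ h → ∀ A : Finset F[X][X], (∀ f ∈ A, FamS (2 * g + 1) h P Z f ∧ Smooth f) →
      (∀ f ∈ A, (Cls f (Q : Set (HeightOneSpectrum F[X]))).Finite) ∧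
      ∑ f ∈ A, ((Cls f (Q : Set (HeightOneSpectrum F[X]))).ncard : ℝ) ≤
        (Kc F g P Z Q + ε) * (Nat.card {f : F[X][X] // FamS (2 * g + 1) h P Z f} : ℝ) := by
  have hm : Odd (2 * g + 1) := ⟨g, rfl⟩
  have hm3 : 3 ≤ 2 * g + 1 := by omega
  have hkap : ∀ k : Type, ∀ [Field k] [Finite k], 0 ≤ kap k (2 * g + 1) := fun k _ _ =>
    zero_le_one.trans (kap_pos k _)
  have key := smf h2 (fun s : {v // v ∈ P ∪ Z} => kv s.1) (fun s => rv s.1) (eqd_plc (P ∪ Z)) g
    (fun s => Tv P s.1) (Tirr F) ?_ (nonempty_of_card (irc_irr F (odd_card F h2) hm3))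
    {s | s.1 ∈ Q} (fun s => if s.1 ∈ Q then kap (kv s.1) (2 * g + 1) / 2 else kap (kv s.1) (2 * g + 1))
    (kap F (2 * g + 1)) ?_ (hkap F) ?_ (lcb_irr F h2 hm) ε hε
  · obtain ⟨h0, hh0⟩ := key
    refine ⟨max h0 1, fun h hh A hA => ?_⟩
    have h3 := hh0 h (le_trans (le_max_left _ _) hh)
    have h1h : 1 ≤ h := le_trans (le_max_right _ _) hh
    have hcls : ∀ f ∈ A, (Cls f (Q : Set (HeightOneSpectrum F[X]))).Finite ∧
        ((Cls f (Q : Set (HeightOneSpectrum F[X]))).ncard : ℝ) ≤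
          ∑ n ∈ tys g h, 2 * ((GBs f h n (Q : Set (HeightOneSpectrum F[X]))).ncard : ℝ) / nA F n := by
      intro f hf
      obtain ⟨hf1, hf2⟩ := hA f hf
      refine cls_bd h2 (hLat h f h1h hf1.1 hf1.2.1 hf2) _ fun v hv => ?_
      exact tspec_sqf ((special_iff f v).1 (hf1.2.2.1 v (hQ (Finset.mem_coe.1 hv))))
    refine ⟨fun f hf => (hcls f hf).1, ?_⟩
    have hcard : (Nat.card {f : F[X][X] // FamS (2 * g + 1) h P Z f} : ℝ) =
        (Nat.card {f : F[X][X] // FamT (fun s : {v // v ∈ P ∪ Z} => kv s.1) (fun s => rv s.1)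
          (2 * g + 1) h (fun s => Tv P s.1) (Tirr F) f} : ℝ) := by
      rw [Nat.card_congr (Equiv.subtypeEquivRight fun f => fams_iff hPZ f)]
    rw [hcard]
    have hKc : Kc F g P Z Q = (1 - 1 / (Nat.card F : ℝ))⁻¹ ^ (2 * g + 1) *
        ((∏ s : {v // v ∈ P ∪ Z}, (if s.1 ∈ Q then kap (kv s.1) (2 * g + 1) / 2
          else kap (kv s.1) (2 * g + 1))) * kap F (2 * g + 1)) *
          (2 + Cg g / (Nat.card F : ℝ)) := by
      rw [prod_c (2 * g + 1) hPZ hQ]
      unfold Kc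
      rw [show (1 - 1 / (Nat.card F : ℝ))⁻¹ ^ (2 * g + 1) = kap F (2 * g + 1) from rfl]
      ring
    rw [hKc]
    refine le_trans ?_ h3
    calc ∑ f ∈ A, ((Cls f (Q : Set (HeightOneSpectrum F[X]))).ncard : ℝ)
        ≤ ∑ f ∈ A, ∑ n ∈ tys g h,
            2 * ((GBs f h n (Q : Set (HeightOneSpectrum F[X]))).ncard : ℝ) / nA F n :=
          Finset.sum_le_sum fun f hf => (hcls f hf).2
      _ = ∑ n ∈ tys g h, 2 * ((∑ f ∈ A,
            (GBs f h n (Q : Set (HeightOneSpectrum F[X]))).ncard : ℕ) : ℝ) / nA F n := by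
          rw [Finset.sum_comm]
          refine Finset.sum_congr rfl fun n _ => ?_
          rw [Nat.cast_sum, Finset.mul_sum, Finset.sum_div]
      _ ≤ _ := by
          refine Finset.sum_le_sum fun n _ => ?_
          have h4 := ena_dis (m := 2 * g + 1) (h := h) n hPZ hQ A fun f hf => (hA f hf).1
          refine div_le_div_of_nonneg_right ?_ (Nat.cast_nonneg _)
          have h5 : ((∑ f ∈ A, (GBs f h n (Q : Set (HeightOneSpectrum F[X]))).ncard : ℕ) : ℝ) ≤
              _ := Nat.cast_le.2 h4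
          linarith
  · intro s
    by_cases hs : s.1 ∈ P
    · rw [tv_mem hs]
      exact nonempty_of_card (irc_spec (kv s.1) (odd_card _ (rv_two h2 s.1)) hm3)
    · rw [tv_not_mem hs]
      exact nonempty_of_card (irc_irr (kv s.1) (odd_card _ (rv_two h2 s.1)) hm3)
  · intro s
    have := hkap (kv s.1)
    split_ifs
    · linarith
    · exact this
  · intro s
    by_cases hs : s.1 ∈ Q
    · rw [if_pos hs, tv_mem (hQ hs)]
      have h4 : (s ∈ ({s | s.1 ∈ Q} : Set {v // v ∈ P ∪ Z})) = True := eq_true hs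
      rw [h4]
      exact lcb_triv (kv s.1) (rv_two h2 s.1) hm hm3
    · have h4 : (s ∈ ({s | s.1 ∈ Q} : Set {v // v ∈ P ∪ Z})) = False := eq_false hs
      rw [if_neg hs, h4]
      by_cases hs' : s.1 ∈ P
      · rw [tv_mem hs']
        exact lcb_spec (kv s.1) (rv_two h2 s.1) hm
      · rw [tv_not_mem hs']
        exact lcb_irr (kv s.1) (rv_two h2 s.1) hm

end Pool.Agent.H40.GC
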