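import Pool.Agent.H40.GC.ENA
import Pool.Agent.H13.SM.Smk

set_option autoImplicit false

/-!
# [H40 GC ENB] THEOREM G (MP_1bad5e_ag), chapter CNT: END, general form

PROOF.
`enb_str`: let `A` be the finite set of the `f` on the left (`fams_fin`).  For `f ∈ A` the class of `δ` (a unit: `δ ≠ 0` in
`IsS0`, and `AdjoinRoot (overK f)` is a field: `f` is irreducible, as its leading form is irreducible — use `hirr`)
is in `Cls f Q`, which is finite (`ena`), so its `ncard` is at least `1`.  So `#A ≤ ∑ ncard ≤ (Kc + ε) #FamS`.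
`enb_two`: let `A` be the finite set of the `f` on the left.  For `f ∈ A` the classes of `δ`, `δ'`, `δ * δ'` are in `Cls f ∅`
and different: if the class of `δ` is that of `δ'` then `δ = δ' * z ^ 2`, `δ * δ' = (δ' * z) ^ 2` is a square; if the class
of `δ * δ'` is that of `δ` then `δ'` is a square.  `IsS0 f (δ * δ')`: norm multiplicative; `δ * c ^ 2 = b`,
`δ' * c' ^ 2 = b'`, `(b) = I ^ 2`, `(b') = I' ^ 2` give `δ δ' (c c') ^ 2 = b b'`, `(b b') = (I I') ^ 2`, `c c' ≠ 0`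
(`AdjoinRoot f` is a domain: `f` irreducible, prime).  So `ncard ≥ 3` and `3 #A ≤ (Kc + ε) #FamS` with `Q = ∅`.
-/

namespace Pool.Agent.H40.GC

open Polynomial IsDedekindDomain Matrix
open Pool.Agent.H80.CC.Plane (overK overKv toL toLv)
open Pool.Agent.H94.GG (Fam lead Special Harmless Smooth IsS0 SqAt)

variable {F : Type} [Field F]

/-- `f` is irreducible over `F(t)` if its leading form is irreducible -/
theorem hirr {m h : ℕ} (hm : m ≠ 0) {f : F[X][X]} (hf : Fam m h f) (hl : Irreducible (lead m h f)) :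
    Irreducible f ∧ Irreducible (overK f) := by
  have h1 := H13.SM.irr m h hm f hf hl
  exact ⟨h1, (hf.monic.irreducible_iff_irreducible_map_fraction_map (K := RatFunc F)).1 h1⟩

/-- a class which is not trivial gives an element of `Cls` -/
private theorem mem_cls {f : F[X][X]} (hi : Irreducible (overK f))
    {Q : Set (HeightOneSpectrum F[X])} {δ : AdjoinRoot (overK f)} (h0 : IsS0 f δ)
    (hs : ¬ IsSquare δ) (hQ : ∀ v ∈ Q, SqAt f v δ) :
    ∃ u : (AdjoinRoot (overK f))ˣ, (u : AdjoinRoot (overK f)) = δ ∧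
      (QuotientGroup.mk u : (AdjoinRoot (overK f))ˣ ⧸
        (powMonoidHom 2 : (AdjoinRoot (overK f))ˣ →* (AdjoinRoot (overK f))ˣ).range) ∈
          Cls f Q := by
  have hu : IsUnit δ := by
    let _ : Fact (Irreducible (overK f)) := ⟨hi⟩
    exact isUnit_iff_ne_zero.2 h0.1
  obtain ⟨u, rfl⟩ := hu
  exact ⟨u, rfl, u, rfl, h0, hs, hQ⟩

private theorem s0_mul {f : F[X][X]} (hi : Irreducible f) (hi' : Irreducible (overK f))
    {δ δ' : AdjoinRoot (overK f)} (h : IsS0 f δ) (h' : IsS0 f δ') : IsS0 f (δ * δ') := by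
  have hdom : IsDomain (AdjoinRoot f) := AdjoinRoot.isDomain_of_prime hi.prime
  obtain ⟨h0, ⟨y, hy⟩, I, b, c, hc, hb, hI⟩ := h
  obtain ⟨h0', ⟨y', hy'⟩, I', b', c', hc', hb', hI'⟩ := h'
  refine ⟨?_, ⟨y * y', by rw [map_mul, hy, hy', mul_pow]⟩, I * I', b * b', c * c',
    mul_ne_zero hc hc', ?_, ?_⟩
  · let _ : Fact (Irreducible (overK f)) := ⟨hi'⟩
    exact mul_ne_zero h0 h0'
  · rw [map_mul, map_mul, ← hb, ← hb']
    ring
  · rw [← Ideal.span_singleton_mul_span_singleton, hI, hI', mul_pow]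

private theorem card_sub {α : Type*} (p : α → Prop) {A : Finset α} (hA : ∀ f, f ∈ A ↔ p f) :
    Nat.card {f // p f} = A.card := by
  have h1 : {f | p f} = (A : Set α) := by
    ext f
    rw [Finset.mem_coe, hA]
    rfl
  have h2 : Nat.card {f // p f} = ({f | p f} : Set α).ncard := rfl
  rw [h2, h1, Set.ncard_coe_finset]

private theorem three_le {α : Type*} {s : Set α} (hs : s.Finite) {x y z : α} (hx : x ∈ s)
    (hy : y ∈ s) (hz : z ∈ s) (hxy : x ≠ y) (hxz : x ≠ z) (hyz : y ≠ z) : 3 ≤ s.ncard := by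
  classical
  rw [← Finset.card_eq_three.2 ⟨x, y, z, hxy, hxz, hyz, rfl⟩, ← Set.ncard_coe_finset]
  refine Set.ncard_le_ncard ?_ hs
  intro t ht
  rw [Finset.coe_insert, Finset.coe_insert, Finset.coe_singleton, Set.mem_insert_iff,
    Set.mem_insert_iff, Set.mem_singleton_iff] at ht
  rcases ht with rfl | rfl | rfl
  · exact hx
  · exact hy
  · exact hz

theorem enb_str [Finite F] (h2 : (2 : F) ≠ 0) {g : ℕ} (hg : 1 ≤ g)
    {P Z Q : Finset (HeightOneSpectrum F[X])} (hPZ : Disjoint P Z) (hQ : Q ⊆ P) (ε : ℝ) (hε : 0 < ε)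
    (hLat : ∀ (h : ℕ) (f : F[X][X]), 1 ≤ h → Fam (2 * g + 1) h f → Irreducible (lead (2 * g + 1) h f) →
      Smooth f → LatO g h f) :
    ∃ h0 : ℕ, ∀ h : ℕ, h0 ≤ h →
      (Nat.card {f : F[X][X] // FamS (2 * g + 1) h P Z f ∧ Smooth f ∧
        ∃ δ : AdjoinRoot (overK f), IsS0 f δ ∧ ¬ IsSquare δ ∧ ∀ v ∈ Q, SqAt f v δ} : ℝ) ≤
        (Kc F g P Z Q + ε) * (Nat.card {f : F[X][X] // FamS (2 * g + 1) h P Z f} : ℝ) := by
  classical
  obtain ⟨h0, hh0⟩ := ena h2 hg hPZ hQ ε hε hLat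
  refine ⟨h0, fun h hh => ?_⟩
  have hfin : {f : F[X][X] | FamS (2 * g + 1) h P Z f ∧ Smooth f ∧
      ∃ δ : AdjoinRoot (overK f), IsS0 f δ ∧ ¬ IsSquare δ ∧ ∀ v ∈ Q, SqAt f v δ}.Finite :=
    (fams_fin (2 * g + 1) h P Z).subset fun f hf => hf.1
  have hmem : ∀ f, f ∈ hfin.toFinset ↔ (FamS (2 * g + 1) h P Z f ∧ Smooth f ∧
      ∃ δ : AdjoinRoot (overK f), IsS0 f δ ∧ ¬ IsSquare δ ∧ ∀ v ∈ Q, SqAt f v δ) := fun f => by
    rw [Set.Finite.mem_toFinset]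
    rfl
  obtain ⟨hf1, hf2⟩ := hh0 h hh hfin.toFinset fun f hf => ⟨((hmem f).1 hf).1, ((hmem f).1 hf).2.1⟩
  rw [card_sub _ hmem]
  refine le_trans ?_ hf2
  rw [Finset.card_eq_sum_ones, Nat.cast_sum]
  refine Finset.sum_le_sum fun f hf => ?_
  obtain ⟨hF, hS, δ, h1, h3, h4⟩ := (hmem f).1 hf
  have hi := hirr (by omega) hF.1 hF.2.1
  obtain ⟨u, hu, hu2⟩ := mem_cls (Q := (Q : Set (HeightOneSpectrum F[X]))) hi.2 h1 h3
    fun v hv => h4 v (Finset.mem_coe.1 hv)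
  rw [Nat.cast_le]
  exact (Set.ncard_pos (hf1 f hf)).2 ⟨_, hu2⟩

theorem enb_two [Finite F] (h2 : (2 : F) ≠ 0) {g : ℕ} (hg : 1 ≤ g)
    {P Z : Finset (HeightOneSpectrum F[X])} (hPZ : Disjoint P Z) (ε : ℝ) (hε : 0 < ε)
    (hLat : ∀ (h : ℕ) (f : F[X][X]), 1 ≤ h → Fam (2 * g + 1) h f → Irreducible (lead (2 * g + 1) h f) →
      Smooth f → LatO g h f) :
    ∃ h0 : ℕ, ∀ h : ℕ, h0 ≤ h →
      3 * (Nat.card {f : F[X][X] // FamS (2 * g + 1) h P Z f ∧ Smooth f ∧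
        ∃ δ δ' : AdjoinRoot (overK f), IsS0 f δ ∧ IsS0 f δ' ∧ ¬ IsSquare δ ∧ ¬ IsSquare δ' ∧
          ¬ IsSquare (δ * δ')} : ℝ) ≤
        (Kc F g P Z ∅ + ε) * (Nat.card {f : F[X][X] // FamS (2 * g + 1) h P Z f} : ℝ) := by
  classical
  obtain ⟨h0, hh0⟩ := ena h2 hg hPZ (Finset.empty_subset P) ε hε hLat
  refine ⟨h0, fun h hh => ?_⟩
  have hfin : {f : F[X][X] | FamS (2 * g + 1) h P Z f ∧ Smooth f ∧
      ∃ δ δ' : AdjoinRoot (overK f), IsS0 f δ ∧ IsS0 f δ' ∧ ¬ IsSquare δ ∧ ¬ IsSquare δ' ∧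
          ¬ IsSquare (δ * δ')}.Finite :=
    (fams_fin (2 * g + 1) h P Z).subset fun f hf => hf.1
  have hmem : ∀ f, f ∈ hfin.toFinset ↔ (FamS (2 * g + 1) h P Z f ∧ Smooth f ∧
      ∃ δ δ' : AdjoinRoot (overK f), IsS0 f δ ∧ IsS0 f δ' ∧ ¬ IsSquare δ ∧ ¬ IsSquare δ' ∧
          ¬ IsSquare (δ * δ')) := fun f => by
    rw [Set.Finite.mem_toFinset]
    rfl
  obtain ⟨hf1, hf2⟩ := hh0 h hh hfin.toFinset fun f hf => ⟨((hmem f).1 hf).1, ((hmem f).1 hf).2.1⟩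
  rw [card_sub _ hmem]
  refine le_trans ?_ hf2
  rw [Finset.card_eq_sum_ones, Nat.cast_sum, Finset.mul_sum]
  refine Finset.sum_le_sum fun f hf => ?_
  obtain ⟨hF, hS, δ, δ', h1, h1', h3, h3', h4⟩ := (hmem f).1 hf
  have hi := hirr (by omega) hF.1 hF.2.1
  have hv : ∀ (δ : AdjoinRoot (overK f)), ∀ v ∈ ((∅ : Finset (HeightOneSpectrum F[X])) :
      Set (HeightOneSpectrum F[X])), SqAt f v δ := fun δ v hv => by simp at hv
  obtain ⟨u, rfl, hu2⟩ := mem_cls hi.2 h1 h3 (hv _)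
  obtain ⟨u', rfl, hu2'⟩ := mem_cls hi.2 h1' h3' (hv _)
  obtain ⟨u'', hu, hu2''⟩ := mem_cls hi.2 (s0_mul hi.1 hi.2 h1 h1') h4 (hv _)
  rw [← Units.val_mul, Units.val_inj] at hu
  subst hu
  have key : ∀ a b : (AdjoinRoot (overK f))ˣ,
      (QuotientGroup.mk a : (AdjoinRoot (overK f))ˣ ⧸
        (powMonoidHom 2 : (AdjoinRoot (overK f))ˣ →* (AdjoinRoot (overK f))ˣ).range) =
          QuotientGroup.mk b → ∃ w : (AdjoinRoot (overK f))ˣ, w ^ 2 = a⁻¹ * b := by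
    intro a b hab
    obtain ⟨w, hw⟩ := QuotientGroup.eq.1 hab
    exact ⟨w, hw⟩
  have hsq : ∀ a : (AdjoinRoot (overK f))ˣ, (∃ w, w ^ 2 = a) →
      IsSquare (a : AdjoinRoot (overK f)) := by
    rintro _ ⟨w, rfl⟩
    exact ⟨(w : AdjoinRoot (overK f)), by rw [Units.val_pow_eq_pow_val, sq]⟩
  have hcard : 3 ≤ (Cls f ((∅ : Finset (HeightOneSpectrum F[X])) :
      Set (HeightOneSpectrum F[X]))).ncard := by
    refine three_le (hf1 f hf) hu2 hu2' hu2'' ?_ ?_ ?_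
    · intro hab
      obtain ⟨w, hw⟩ := key _ _ hab
      refine h4 (hsq (u * u') ⟨u * w, ?_⟩)
      rw [mul_pow, hw, sq, mul_assoc, mul_inv_cancel_left]
    · intro hab
      obtain ⟨w, hw⟩ := key _ _ hab
      exact h3' (hsq u' ⟨w, by rw [hw, inv_mul_cancel_left]⟩)
    · intro hab
      obtain ⟨w, hw⟩ := key _ _ hab
      exact h3 (hsq u ⟨w, by rw [hw, mul_comm u u', inv_mul_cancel_left]⟩)
  have : ((3 : ℕ) : ℝ) ≤ ((Cls f ((∅ : Finset (HeightOneSpectrum F[X])) :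
      Set (HeightOneSpectrum F[X]))).ncard : ℝ) := Nat.cast_le.2 hcard
  push_cast at this ⊢
  linarith

end Pool.Agent.H40.GC
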