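import Pool.Agent.H40.GC.ENB

set_option autoImplicit false

/-!
# [H40 GC ENC] THEOREM G (MP_1bad5e_ag), chapter CNT: END, the forms used in FIN

PROOF.
`enc_low`: by `fams_iff`, `fmc` (`Eqd` from `eqd_plc` for `P ∪ Z`) and `fmc_all`, for `h ≥ N`:
`#FamS = (∏ over P ∪ Z of #(mon m (Tv P v)) / |kv v| ^ m) * (#(mon m (Tirr F)) / q ^ m) * #Fam`, and every factor is at least
`1 / (2 m)` (`irc_spec`, `irc_irr`, `odd_card`); the number of the factors is `#P + #Z + 1` (disjoint).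
`enc_g2`: all places have residue field with `q` elements: `kap (kv v) m = kap F m = (1 - 1/q)⁻¹ ^ m`, and
`Kc F g P Z Q = (1 - 1/q)⁻¹ ^ (m (2 + #P + #Z)) * (2 + Cg / q) * (1/2) ^ #Q ≤ (1 - 1/q)⁻¹ ^ (7 m) * (2 + Cg / q) * (1/2) ^ #Q`, and
`(1 - 1/x)⁻¹ ^ (7 m) * (2 + Cg / x) → 2` for `x → ∞`: choose `q0` with value `≤ 2 + η / 2` for all `x ≥ q0`; in `enb_str`
take `ε = (η / 2) * (1/2) ^ #P`.
`enc_g1`: with `C = 2 * kap F m ^ 2 * (2 + Cg / q)`: `(∏ over P, Z of kap (kv v) m) ≤ 2` gives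
`Kc F g P Z P ≤ C * (1/2) ^ #P`.  For the existence of `d0`: `(1 - 1/x)⁻¹ ^ (m a) → 1` for `x → ∞`.
-/

namespace Pool.Agent.H40.GC

open Polynomial IsDedekindDomain Matrix
open Pool.Agent.H80.CC.Plane (overK overKv toL toLv)
open Pool.Agent.H94.GG (Fam lead Special Harmless Smooth IsS0 SqAt)

private theorem tv_pos {F : Type} [Field F] {P : Finset (HeightOneSpectrum F[X])} {v : HeightOneSpectrum F[X]}
    (hv : v ∈ P) : Tv P v = Tspec (kv v) := by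
  ext p
  exact ⟨fun h => h.1 hv, fun h => ⟨fun _ => h, fun h' => absurd hv h'⟩⟩

private theorem tv_neg {F : Type} [Field F] {P : Finset (HeightOneSpectrum F[X])} {v : HeightOneSpectrum F[X]}
    (hv : v ∉ P) : Tv P v = Tirr (kv v) := by
  ext p
  exact ⟨fun h => h.2 hv, fun h => ⟨fun h' => absurd h' hv, fun _ => h⟩⟩

private theorem frac_ge {m a b : ℕ} (hm : 0 < m) (hb : 0 < b) (h : b ≤ 2 * m * a) :
    1 / (2 * (m : ℝ)) ≤ (a : ℝ) / (b : ℝ) := by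
  have h1 : (0 : ℝ) < b := by exact_mod_cast hb
  have h2 : (0 : ℝ) < 2 * m := by positivity
  rw [div_le_div_iff₀ h2 h1, one_mul]
  have h3 : (b : ℝ) ≤ 2 * m * a := by exact_mod_cast h
  linarith

/-- a positive share of the family satisfies the local conditions -/
theorem enc_low {F : Type} [Field F] [Finite F] (h2 : (2 : F) ≠ 0) {g : ℕ} (hg : 1 ≤ g)
    {P Z : Finset (HeightOneSpectrum F[X])} (hPZ : Disjoint P Z) :
    ∃ h0 : ℕ, ∀ h : ℕ, h0 ≤ h →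
      (1 / (2 * (2 * g + 1 : ℝ))) ^ (P.card + Z.card + 1) *
        (Nat.card {f : F[X][X] // Fam (2 * g + 1) h f} : ℝ) ≤
        (Nat.card {f : F[X][X] // FamS (2 * g + 1) h P Z f} : ℝ) := by
  classical
  obtain ⟨N, hN⟩ := eqd_plc (P ∪ Z)
  refine ⟨N, fun h hh => ?_⟩
  have h1 : Nat.card {f : F[X][X] // FamS (2 * g + 1) h P Z f} =
      Nat.card {f : F[X][X] // FamT (fun s : {v // v ∈ P ∪ Z} => kv s.1) (fun s => rv s.1) (2 * g + 1) h
        (fun s => Tv P s.1) (Tirr F) f} :=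
    Nat.card_congr (Equiv.subtypeEquivRight fun f => fams_iff hPZ f)
  have h3 : (Nat.card {f : F[X][X] // FamT (fun s : {v // v ∈ P ∪ Z} => kv s.1) (fun s => rv s.1) (2 * g + 1) h
        (fun s => Tv P s.1) (Tirr F) f} : ℝ) =
      (∏ s : {v // v ∈ P ∪ Z}, ((Nat.card (mon (2 * g + 1) (Tv P s.1)) : ℝ) /
        (Nat.card (kv s.1) : ℝ) ^ (2 * g + 1))) *
        ((Nat.card (mon (2 * g + 1) (Tirr F)) : ℝ) / (Nat.card F : ℝ) ^ (2 * g + 1)) *
          (Nat.card F : ℝ) ^ Mh (2 * g + 1) h :=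
    fmc _ _ hN (2 * g + 1) h hh _ _
  rw [h1, h3, fmc_all]
  push_cast
  refine mul_le_mul_of_nonneg_right ?_ (by positivity)
  have hc : (2 * (2 * (g : ℝ) + 1)) = 2 * ((2 * g + 1 : ℕ) : ℝ) := by push_cast; ring
  rw [hc, pow_succ]
  have hF3 := odd_card F h2
  have h4 : 1 / (2 * ((2 * g + 1 : ℕ) : ℝ)) ≤
      (Nat.card (mon (2 * g + 1) (Tirr F)) : ℝ) / (Nat.card F : ℝ) ^ (2 * g + 1) := by
    have h5 := frac_ge (m := 2 * g + 1) (by omega) (pow_pos (by omega : 0 < Nat.card F) (2 * g + 1))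
      (irc_irr F hF3 (by omega : 3 ≤ 2 * g + 1))
    rwa [Nat.cast_pow] at h5
  have h5 : (1 / (2 * ((2 * g + 1 : ℕ) : ℝ))) ^ (P.card + Z.card) ≤
      ∏ s : {v // v ∈ P ∪ Z}, ((Nat.card (mon (2 * g + 1) (Tv P s.1)) : ℝ) /
        (Nat.card (kv s.1) : ℝ) ^ (2 * g + 1)) := by
    have h6 : (1 / (2 * ((2 * g + 1 : ℕ) : ℝ))) ^ (P.card + Z.card) =
        ∏ _s : {v // v ∈ P ∪ Z}, (1 / (2 * ((2 * g + 1 : ℕ) : ℝ))) := by
      rw [Finset.prod_const, Finset.card_univ, Fintype.card_coe, Finset.card_union_of_disjoint hPZ]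
    rw [h6]
    refine Finset.prod_le_prod (fun _ _ => by positivity) fun s _ => ?_
    have hk3 := odd_card (kv s.1) (rv_two h2 s.1)
    have h7 : Nat.card (kv s.1) ^ (2 * g + 1) ≤ 2 * (2 * g + 1) * Nat.card (mon (2 * g + 1) (Tv P s.1)) := by
      by_cases hs : s.1 ∈ P
      · rw [tv_pos hs]
        exact irc_spec (kv s.1) hk3 (by omega)
      · rw [tv_neg hs]
        exact irc_irr (kv s.1) hk3 (by omega)
    have h8 := frac_ge (m := 2 * g + 1) (by omega) (pow_pos (by omega : 0 < Nat.card (kv s.1)) (2 * g + 1)) h7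
    rwa [Nat.cast_pow] at h8
  exact mul_le_mul h5 h4 (by positivity) (Finset.prod_nonneg fun _ _ => by positivity)

private theorem lim_inv (n : ℕ) : Filter.Tendsto (fun q : ℕ => (1 - 1 / (q : ℝ))⁻¹ ^ n) Filter.atTop (nhds 1) := by
  have h1 : Filter.Tendsto (fun q : ℕ => 1 / (q : ℝ)) Filter.atTop (nhds 0) :=
    tendsto_const_div_atTop_nhds_zero_nat 1
  have h2 : Filter.Tendsto (fun q : ℕ => 1 - 1 / (q : ℝ)) Filter.atTop (nhds (1 - 0)) := tendsto_const_nhds.sub h1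
  rw [sub_zero] at h2
  have h3 := (h2.inv₀ one_ne_zero).pow n
  rwa [inv_one, one_pow] at h3

private theorem kap_one_le (k : Type) [Field k] [Finite k] (m : ℕ) : 0 ≤ kap k m := by
  linarith [kap_pos k m]

theorem enc_g2 {g : ℕ} (hg : 1 ≤ g) (η : ℝ) (hη : 0 < η) : ∃ q0 : ℕ,
    ∀ (F : Type) [Field F] [Finite F], (2 : F) ≠ 0 → q0 ≤ Nat.card F →
    (∀ (h : ℕ) (f : F[X][X]), 1 ≤ h → Fam (2 * g + 1) h f → Irreducible (lead (2 * g + 1) h f) →
      Smooth f → LatO g h f) →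
    ∀ P Z : Finset (HeightOneSpectrum F[X]), Disjoint P Z → P.card ≤ 4 → Z.card ≤ 1 →
    (∀ v ∈ P, Nat.card (kv v) = Nat.card F) → (∀ v ∈ Z, Nat.card (kv v) = Nat.card F) →
    ∃ h0 : ℕ, ∀ h : ℕ, h0 ≤ h →
      3 * (Nat.card {f : F[X][X] // FamS (2 * g + 1) h P Z f ∧ Smooth f ∧
        ∃ δ δ' : AdjoinRoot (overK f), IsS0 f δ ∧ IsS0 f δ' ∧ ¬ IsSquare δ ∧ ¬ IsSquare δ' ∧
          ¬ IsSquare (δ * δ')} : ℝ) ≤
        (2 + η) * (Nat.card {f : F[X][X] // FamS (2 * g + 1) h P Z f} : ℝ) ∧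
      2 ^ P.card * (Nat.card {f : F[X][X] // FamS (2 * g + 1) h P Z f ∧ Smooth f ∧
        ∃ δ : AdjoinRoot (overK f), IsS0 f δ ∧ ¬ IsSquare δ ∧ ∀ v ∈ P, SqAt f v δ} : ℝ) ≤
        (2 + η) * (Nat.card {f : F[X][X] // FamS (2 * g + 1) h P Z f} : ℝ) := by
  have hlim : Filter.Tendsto (fun q : ℕ => (1 - 1 / (q : ℝ))⁻¹ ^ (7 * (2 * g + 1)) * (2 + Cg g / (q : ℝ)))
      Filter.atTop (nhds (1 * (2 + 0))) :=
    (lim_inv _).mul (tendsto_const_nhds.add (tendsto_const_div_atTop_nhds_zero_nat _))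
  have hlt : (1 : ℝ) * (2 + 0) < 2 + η / 2 := by linarith
  obtain ⟨q0, hq0⟩ := Filter.eventually_atTop.1 (hlim.eventually_lt_const hlt)
  refine ⟨q0, ?_⟩
  intro F _ _ h2 hq hLat P Z hPZ hP hZ hkP hkZ
  have hΦ := hq0 (Nat.card F) hq
  have hCg := Cg_nonneg g
  have hq3 : (0 : ℝ) < (Nat.card F : ℝ) := by
    have := odd_card F h2
    exact_mod_cast (by omega : 0 < Nat.card F)
  have hκ := kap_pos F (2 * g + 1)
  have hK : ∀ Q : Finset (HeightOneSpectrum F[X]), Kc F g P Z Q ≤ (2 + η / 2) * (1 / 2) ^ Q.card := by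
    intro Q
    unfold Kc
    have e1 : ∏ v ∈ P, kap (kv v) (2 * g + 1) = kap F (2 * g + 1) ^ P.card := by
      rw [Finset.prod_congr rfl fun v hv => ?_, Finset.prod_const]
      unfold kap
      rw [hkP v hv]
    have e2 : ∏ v ∈ Z, kap (kv v) (2 * g + 1) = kap F (2 * g + 1) ^ Z.card := by
      rw [Finset.prod_congr rfl fun v hv => ?_, Finset.prod_const]
      unfold kap
      rw [hkZ v hv]
    rw [e1, e2]
    refine mul_le_mul_of_nonneg_right ?_ (by positivity)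
    have e3 : kap F (2 * g + 1) ^ 2 * (kap F (2 * g + 1) ^ P.card * kap F (2 * g + 1) ^ Z.card) ≤
        (1 - 1 / (Nat.card F : ℝ))⁻¹ ^ (7 * (2 * g + 1)) := by
      rw [← pow_add, ← pow_add]
      refine (pow_le_pow_right₀ hκ (by omega : 2 + (P.card + Z.card) ≤ 7)).trans (le_of_eq ?_)
      unfold kap
      rw [← pow_mul, mul_comm 7]
    exact (mul_le_mul_of_nonneg_right e3 (by positivity)).trans hΦ.le
  obtain ⟨h1, hh1⟩ := enb_two h2 hg hPZ (η / 2) (by linarith) hLat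
  obtain ⟨h3, hh3⟩ := enb_str h2 hg hPZ (Finset.Subset.refl P) (η / 2 * (1 / 2) ^ P.card) (by positivity) hLat
  refine ⟨max h1 h3, fun h hh => ⟨?_, ?_⟩⟩
  · refine (hh1 h ((le_max_left _ _).trans hh)).trans (mul_le_mul_of_nonneg_right ?_ (Nat.cast_nonneg _))
    have h4 := hK ∅
    rw [Finset.card_empty, pow_zero, mul_one] at h4
    linarith
  · have h4 := hh3 h ((le_max_right _ _).trans hh)
    have h5 := hK P
    have h6 : (2 : ℝ) ^ P.card * (1 / 2) ^ P.card = 1 := by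
      rw [← mul_pow]
      norm_num
    have h7 : (0 : ℝ) < 2 ^ P.card := by positivity
    calc (2 : ℝ) ^ P.card * (Nat.card {f : F[X][X] // FamS (2 * g + 1) h P Z f ∧ Smooth f ∧
          ∃ δ : AdjoinRoot (overK f), IsS0 f δ ∧ ¬ IsSquare δ ∧ ∀ v ∈ P, SqAt f v δ} : ℝ)
        ≤ 2 ^ P.card * ((Kc F g P Z P + η / 2 * (1 / 2) ^ P.card) *
          (Nat.card {f : F[X][X] // FamS (2 * g + 1) h P Z f} : ℝ)) := mul_le_mul_of_nonneg_left h4 h7.le
      _ ≤ 2 ^ P.card * (((2 + η / 2) * (1 / 2) ^ P.card + η / 2 * (1 / 2) ^ P.card) *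
          (Nat.card {f : F[X][X] // FamS (2 * g + 1) h P Z f} : ℝ)) := by
          refine mul_le_mul_of_nonneg_left (mul_le_mul_of_nonneg_right ?_ (Nat.cast_nonneg _)) h7.le
          linarith
      _ = (2 ^ P.card * (1 / 2) ^ P.card) * ((2 + η) *
          (Nat.card {f : F[X][X] // FamS (2 * g + 1) h P Z f} : ℝ)) := by ring
      _ = _ := by rw [h6, one_mul]

theorem enc_g1 (F : Type) [Field F] [Finite F] (h2 : (2 : F) ≠ 0) {g : ℕ} (hg : 1 ≤ g)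
    (hLat : ∀ (h : ℕ) (f : F[X][X]), 1 ≤ h → Fam (2 * g + 1) h f → Irreducible (lead (2 * g + 1) h f) →
      Smooth f → LatO g h f) :
    ∃ C : ℝ, 0 < C ∧ ∀ a : ℕ, ∃ d0 : ℕ, ∀ P Z : Finset (HeightOneSpectrum F[X]), Disjoint P Z →
    P.card + Z.card ≤ a → (∀ v ∈ P, d0 ≤ Nat.card (kv v)) → (∀ v ∈ Z, d0 ≤ Nat.card (kv v)) →
    ∃ h0 : ℕ, ∀ h : ℕ, h0 ≤ h →
      2 ^ P.card * (Nat.card {f : F[X][X] // FamS (2 * g + 1) h P Z f ∧ Smooth f ∧
        ∃ δ : AdjoinRoot (overK f), IsS0 f δ ∧ ¬ IsSquare δ ∧ ∀ v ∈ P, SqAt f v δ} : ℝ) ≤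
        C * (Nat.card {f : F[X][X] // FamS (2 * g + 1) h P Z f} : ℝ) := by
  have hCg := Cg_nonneg g
  have hq3 : (0 : ℝ) < (Nat.card F : ℝ) := by
    have := odd_card F h2
    exact_mod_cast (by omega : 0 < Nat.card F)
  have hκ := kap_pos F (2 * g + 1)
  refine ⟨kap F (2 * g + 1) ^ 2 * 2 * (2 + Cg g / (Nat.card F : ℝ)) + 1, by positivity, fun a => ?_⟩
  obtain ⟨n0, hn0⟩ := Filter.eventually_atTop.1
    ((lim_inv ((2 * g + 1) * a)).eventually_lt_const (by norm_num : (1 : ℝ) < 2))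
  refine ⟨max n0 2, ?_⟩
  intro P Z hPZ ha hkP hkZ
  obtain ⟨κ, hκ'⟩ : ∃ κ : ℝ, κ = (1 - 1 / ((max n0 2 : ℕ) : ℝ))⁻¹ ^ (2 * g + 1) := ⟨_, rfl⟩
  have hd2 : (2 : ℝ) ≤ ((max n0 2 : ℕ) : ℝ) := by exact_mod_cast le_max_right n0 2
  have hdp : (0 : ℝ) < 1 - 1 / ((max n0 2 : ℕ) : ℝ) := by
    have : 1 / ((max n0 2 : ℕ) : ℝ) ≤ 1 / 2 := one_div_le_one_div_of_le (by norm_num) hd2
    linarith
  have hle : ∀ k : Type, max n0 2 ≤ Nat.card k → kap k (2 * g + 1) ≤ κ := by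
    intro k hk
    rw [hκ']
    unfold kap
    have h3 : ((max n0 2 : ℕ) : ℝ) ≤ (Nat.card k : ℝ) := by exact_mod_cast hk
    have h4 : 1 / (Nat.card k : ℝ) ≤ 1 / ((max n0 2 : ℕ) : ℝ) := one_div_le_one_div_of_le (by linarith) h3
    have h5 : (1 - 1 / (Nat.card k : ℝ))⁻¹ ≤ (1 - 1 / ((max n0 2 : ℕ) : ℝ))⁻¹ :=
      inv_anti₀ hdp (by linarith)
    exact pow_le_pow_left₀ (inv_nonneg.2 (by linarith)) h5 _
  have hκ1 : 1 ≤ κ := by
    rw [hκ']
    refine one_le_pow₀ ?_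
    rw [one_le_inv₀ hdp]
    have : 0 ≤ 1 / ((max n0 2 : ℕ) : ℝ) := by positivity
    linarith
  have hprod : (∏ v ∈ P, kap (kv v) (2 * g + 1)) * ∏ v ∈ Z, kap (kv v) (2 * g + 1) ≤ 2 := by
    have e1 : ∏ v ∈ P, kap (kv v) (2 * g + 1) ≤ κ ^ P.card := by
      rw [← Finset.prod_const]
      exact Finset.prod_le_prod (fun v _ => kap_one_le _ _) fun v hv => hle _ (hkP v hv)
    have e2 : ∏ v ∈ Z, kap (kv v) (2 * g + 1) ≤ κ ^ Z.card := by
      rw [← Finset.prod_const]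
      exact Finset.prod_le_prod (fun v _ => kap_one_le _ _) fun v hv => hle _ (hkZ v hv)
    refine (mul_le_mul e1 e2 (Finset.prod_nonneg fun v _ => kap_one_le _ _) (by positivity)).trans ?_
    rw [← pow_add]
    refine (pow_le_pow_right₀ hκ1 ha).trans ?_
    rw [hκ', ← pow_mul]
    exact (hn0 _ (le_max_left _ _)).le
  obtain ⟨h0, hh0⟩ := enb_str h2 hg hPZ (Finset.Subset.refl P) ((1 / 2) ^ P.card) (by positivity) hLat
  refine ⟨h0, fun h hh => ?_⟩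
  have h4 := hh0 h hh
  have h5 : Kc F g P Z P ≤ kap F (2 * g + 1) ^ 2 * 2 * (2 + Cg g / (Nat.card F : ℝ)) * (1 / 2) ^ P.card := by
    unfold Kc
    refine mul_le_mul_of_nonneg_right ?_ (by positivity)
    refine mul_le_mul_of_nonneg_right ?_ (by positivity)
    exact mul_le_mul_of_nonneg_left hprod (by positivity)
  have h6 : (2 : ℝ) ^ P.card * (1 / 2) ^ P.card = 1 := by
    rw [← mul_pow]
    norm_num
  have h7 : (0 : ℝ) < 2 ^ P.card := by positivity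
  calc (2 : ℝ) ^ P.card * (Nat.card {f : F[X][X] // FamS (2 * g + 1) h P Z f ∧ Smooth f ∧
        ∃ δ : AdjoinRoot (overK f), IsS0 f δ ∧ ¬ IsSquare δ ∧ ∀ v ∈ P, SqAt f v δ} : ℝ)
      ≤ 2 ^ P.card * ((Kc F g P Z P + (1 / 2) ^ P.card) *
        (Nat.card {f : F[X][X] // FamS (2 * g + 1) h P Z f} : ℝ)) := mul_le_mul_of_nonneg_left h4 h7.le
    _ ≤ 2 ^ P.card * ((kap F (2 * g + 1) ^ 2 * 2 * (2 + Cg g / (Nat.card F : ℝ)) * (1 / 2) ^ P.card +
        (1 / 2) ^ P.card) * (Nat.card {f : F[X][X] // FamS (2 * g + 1) h P Z f} : ℝ)) := by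
        refine mul_le_mul_of_nonneg_left (mul_le_mul_of_nonneg_right ?_ (Nat.cast_nonneg _)) h7.le
        linarith
    _ = (2 ^ P.card * (1 / 2) ^ P.card) * ((kap F (2 * g + 1) ^ 2 * 2 * (2 + Cg g / (Nat.card F : ℝ)) + 1) *
        (Nat.card {f : F[X][X] // FamS (2 * g + 1) h P Z f} : ℝ)) := by ring
    _ = _ := by rw [h6, one_mul]

end Pool.Agent.H40.GC
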