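import Pool.Agent.H40.GC.ENC

set_option autoImplicit false

/-!
# [H40 GC ENG] THEOREM G (MP_1bad5e_ag), chapter CNT: strict classes with additional harmless places

Generalisation of `enc_g1`: harmless places of any degree are allowed in the fixed set `Z0` (the small places, where
smoothness has to be forced); the constant depends on `Z0`.
-/

namespace Pool.Agent.H40.GC

open Polynomial IsDedekindDomain Matrix
open Pool.Agent.H80.CC.Plane (overK overKv toL toLv)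
open Pool.Agent.H94.GG (Fam lead Special Harmless Smooth IsS0 SqAt)

private theorem lim_inv' (n : ℕ) : Filter.Tendsto (fun q : ℕ => (1 - 1 / (q : ℝ))⁻¹ ^ n) Filter.atTop (nhds 1) := by
  have h1 : Filter.Tendsto (fun q : ℕ => 1 / (q : ℝ)) Filter.atTop (nhds 0) :=
    tendsto_const_div_atTop_nhds_zero_nat 1
  have h2 : Filter.Tendsto (fun q : ℕ => 1 - 1 / (q : ℝ)) Filter.atTop (nhds (1 - 0)) := tendsto_const_nhds.sub h1
  rw [sub_zero] at h2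
  have h3 := (h2.inv₀ one_ne_zero).pow n
  rwa [inv_one, one_pow] at h3

private theorem kap_nn (k : Type) [Field k] [Finite k] (m : ℕ) : 0 ≤ kap k m := by
  linarith [kap_pos k m]

open Classical in
theorem eng (F : Type) [Field F] [Finite F] (h2 : (2 : F) ≠ 0) {g : ℕ} (hg : 1 ≤ g)
    (hLat : ∀ (h : ℕ) (f : F[X][X]), 1 ≤ h → Fam (2 * g + 1) h f → Irreducible (lead (2 * g + 1) h f) →
      Smooth f → LatO g h f) (Z0 : Finset (HeightOneSpectrum F[X])) :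
    ∃ C : ℝ, 0 < C ∧ ∀ a : ℕ, ∃ d0 : ℕ, ∀ P Z : Finset (HeightOneSpectrum F[X]), Disjoint P Z →
    Disjoint P Z0 →
    P.card + Z.card ≤ a → (∀ v ∈ P, d0 ≤ Nat.card (kv v)) → (∀ v ∈ Z, d0 ≤ Nat.card (kv v)) →
    ∃ h0 : ℕ, ∀ h : ℕ, h0 ≤ h →
      2 ^ P.card * (Nat.card {f : F[X][X] // FamS (2 * g + 1) h P (Z0 ∪ Z) f ∧ Smooth f ∧
        ∃ δ : AdjoinRoot (overK f), IsS0 f δ ∧ ¬ IsSquare δ ∧ ∀ v ∈ P, SqAt f v δ} : ℝ) ≤
        C * (Nat.card {f : F[X][X] // FamS (2 * g + 1) h P (Z0 ∪ Z) f} : ℝ) := by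
  have hCg := Cg_nonneg g
  have hq3 : (0 : ℝ) < (Nat.card F : ℝ) := by
    have := odd_card F h2
    exact_mod_cast (by omega : 0 < Nat.card F)
  have hκ := kap_pos F (2 * g + 1)
  obtain ⟨K0, hK0⟩ : ∃ K0 : ℝ, K0 = ∏ v ∈ Z0, kap (kv v) (2 * g + 1) := ⟨_, rfl⟩
  have hK0' : 0 ≤ K0 := by
    rw [hK0]
    exact Finset.prod_nonneg fun v _ => kap_nn _ _
  refine ⟨kap F (2 * g + 1) ^ 2 * (K0 * 2) * (2 + Cg g / (Nat.card F : ℝ)) + 1, by positivity, fun a => ?_⟩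
  obtain ⟨n0, hn0⟩ := Filter.eventually_atTop.1
    ((lim_inv' ((2 * g + 1) * a)).eventually_lt_const (by norm_num : (1 : ℝ) < 2))
  refine ⟨max n0 2, ?_⟩
  intro P Z hPZ hPZ0 ha hkP hkZ
  obtain ⟨κ, hκ'⟩ : ∃ κ : ℝ, κ = (1 - 1 / ((max n0 2 : ℕ) : ℝ))⁻¹ ^ (2 * g + 1) := ⟨_, rfl⟩
  have hd2 : (2 : ℝ) ≤ ((max n0 2 : ℕ) : ℝ) := by exact_mod_cast le_max_right n0 2
  have hdp : (0 : ℝ) < 1 - 1 / ((max n0 2 : ℕ) : ℝ) := by
    have : 1 / ((max n0 2 : ℕ) : ℝ) ≤ 1 / 2 := one_div_le_one_div_of_le (by norm_num) hd2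
    linarith
  have hle : ∀ k : Type, max n0 2 ≤ Nat.card k → kap k (2 * g + 1) ≤ κ := by
    intro k hk
    rw [hκ']
    unfold kap
    have h3 : ((max n0 2 : ℕ) : ℝ) ≤ (Nat.card k : ℝ) := by exact_mod_cast hk
    have h4 : 1 / (Nat.card k : ℝ) ≤ 1 / ((max n0 2 : ℕ) : ℝ) := one_div_le_one_div_of_le (by linarith) h3
    have h5 : (1 - 1 / (Nat.card k : ℝ))⁻¹ ≤ (1 - 1 / ((max n0 2 : ℕ) : ℝ))⁻¹ :=
      inv_anti₀ hdp (by linarith)
    exact pow_le_pow_left₀ (inv_nonneg.2 (by linarith)) h5 _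
  have hκ1 : 1 ≤ κ := by
    rw [hκ']
    refine one_le_pow₀ ?_
    rw [one_le_inv₀ hdp]
    have : 0 ≤ 1 / ((max n0 2 : ℕ) : ℝ) := by positivity
    linarith
  have hprod : (∏ v ∈ P, kap (kv v) (2 * g + 1)) * ∏ v ∈ Z, kap (kv v) (2 * g + 1) ≤ 2 := by
    have e1 : ∏ v ∈ P, kap (kv v) (2 * g + 1) ≤ κ ^ P.card := by
      rw [← Finset.prod_const]
      exact Finset.prod_le_prod (fun v _ => kap_nn _ _) fun v hv => hle _ (hkP v hv)
    have e2 : ∏ v ∈ Z, kap (kv v) (2 * g + 1) ≤ κ ^ Z.card := by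
      rw [← Finset.prod_const]
      exact Finset.prod_le_prod (fun v _ => kap_nn _ _) fun v hv => hle _ (hkZ v hv)
    refine (mul_le_mul e1 e2 (Finset.prod_nonneg fun v _ => kap_nn _ _) (by positivity)).trans ?_
    rw [← pow_add]
    refine (pow_le_pow_right₀ hκ1 ha).trans ?_
    rw [hκ', ← pow_mul]
    exact (hn0 _ (le_max_left _ _)).le
  have hun : ∏ v ∈ Z0 ∪ Z, kap (kv v) (2 * g + 1) ≤ K0 * ∏ v ∈ Z, kap (kv v) (2 * g + 1) := by
    rw [hK0, ← Finset.prod_union_inter]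
    refine le_mul_of_one_le_right (Finset.prod_nonneg fun v _ => kap_nn _ _) ?_
    have h8 : ∏ v ∈ Z0 ∩ Z, (1 : ℝ) ≤ ∏ v ∈ Z0 ∩ Z, kap (kv v) (2 * g + 1) :=
      Finset.prod_le_prod (fun _ _ => zero_le_one) fun v _ => kap_pos (kv v) (2 * g + 1)
    rwa [Finset.prod_const_one] at h8
  have hPZ' : Disjoint P (Z0 ∪ Z) := Finset.disjoint_union_right.2 ⟨hPZ0, hPZ⟩
  have hprod' : (∏ v ∈ P, kap (kv v) (2 * g + 1)) * ∏ v ∈ Z0 ∪ Z, kap (kv v) (2 * g + 1) ≤ K0 * 2 := by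
    refine (mul_le_mul_of_nonneg_left hun (Finset.prod_nonneg fun v _ => kap_nn _ _)).trans ?_
    have e3 := mul_le_mul_of_nonneg_left hprod hK0'
    linarith
  obtain ⟨h0, hh0⟩ := enb_str h2 hg hPZ' (Finset.Subset.refl P) ((1 / 2) ^ P.card) (by positivity) hLat
  refine ⟨h0, fun h hh => ?_⟩
  have h4 := hh0 h hh
  have h5 : Kc F g P (Z0 ∪ Z) P ≤ kap F (2 * g + 1) ^ 2 * (K0 * 2) * (2 + Cg g / (Nat.card F : ℝ)) * (1 / 2) ^ P.card := by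
    unfold Kc
    refine mul_le_mul_of_nonneg_right ?_ (by positivity)
    refine mul_le_mul_of_nonneg_right ?_ (by positivity)
    exact mul_le_mul_of_nonneg_left hprod' (by positivity)
  have h6 : (2 : ℝ) ^ P.card * (1 / 2) ^ P.card = 1 := by
    rw [← mul_pow]
    norm_num
  have h7 : (0 : ℝ) < 2 ^ P.card := by positivity
  calc (2 : ℝ) ^ P.card * (Nat.card {f : F[X][X] // FamS (2 * g + 1) h P (Z0 ∪ Z) f ∧ Smooth f ∧
        ∃ δ : AdjoinRoot (overK f), IsS0 f δ ∧ ¬ IsSquare δ ∧ ∀ v ∈ P, SqAt f v δ} : ℝ)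
      ≤ 2 ^ P.card * ((Kc F g P (Z0 ∪ Z) P + (1 / 2) ^ P.card) *
        (Nat.card {f : F[X][X] // FamS (2 * g + 1) h P (Z0 ∪ Z) f} : ℝ)) := mul_le_mul_of_nonneg_left h4 h7.le
    _ ≤ 2 ^ P.card * ((kap F (2 * g + 1) ^ 2 * (K0 * 2) * (2 + Cg g / (Nat.card F : ℝ)) * (1 / 2) ^ P.card +
        (1 / 2) ^ P.card) * (Nat.card {f : F[X][X] // FamS (2 * g + 1) h P (Z0 ∪ Z) f} : ℝ)) := by
        refine mul_le_mul_of_nonneg_left (mul_le_mul_of_nonneg_right ?_ (Nat.cast_nonneg _)) h7.le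
        linarith
    _ = (2 ^ P.card * (1 / 2) ^ P.card) * ((kap F (2 * g + 1) ^ 2 * (K0 * 2) * (2 + Cg g / (Nat.card F : ℝ)) + 1) *
        (Nat.card {f : F[X][X] // FamS (2 * g + 1) h P (Z0 ∪ Z) f} : ℝ)) := by ring
    _ = _ := by rw [h6, one_mul]

end Pool.Agent.H40.GC
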