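import Mathlib

set_option autoImplicit false

/-!
# [H40 GC EQS] THEOREM G (MP_1bad5e_ag), chapter CNT: polynomials with given residues and given top coefficient

`F` a finite field, `φ s : F[X] → k s` finitely many surjections onto finite fields with different kernels.

PROOF.  The kernels `I s = ker (φ s)` are maximal ideals (`RingHom.ker_isMaximal_of_surjective`), pairwise different, so
pairwise coprime (`Ideal.isCoprime_of_isMaximal` or `Ideal.IsMaximal.coprime_of_ne`).  By the Chinese remainder theorem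
(`Ideal.exists_forall_sub_mem_ideal` or `Ideal.quotientInfRingEquivPiQuotient`) there is for all `r` a polynomial `p₀` with
`φ s p₀ = r s` for all `s` (choose preimages `a s` of `r s`, and `p₀` with `p₀ - a s ∈ I s`).  `F[X]` is infinite and
`k s` finite, so `I s ≠ ⊥` (otherwise `φ s` is injective); choose `P s ∈ I s`, `P s ≠ 0`, and let
`M = ∏ s, P s` divided by its leading coefficient (`M = C (lc)⁻¹ * ∏ P s`, `Polynomial.monic_C_mul_of_mul_leadingCoeff_eq_one`),
monic, `φ s M = 0` for all `s`.  Put `N = M.natDegree`.  For `d ≥ N`, `r`, `c` let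
`p = p₀ %ₘ M + C (c - (p₀ %ₘ M).coeff d) * X ^ (d - N) * M`: `φ s p = φ s p₀ = r s`
(`Polynomial.modByMonic_add_div : p %ₘ q + q * (p /ₘ q) = p`), its degree is `≤ d`
(`natDegree_modByMonic_le : (p %ₘ M).natDegree ≤ M.natDegree`, `natDegree_X_pow_mul`...), and its coefficient at `d` is
`c` (`coeff_C_mul`, `coeff_X_pow_mul' `, `M.coeff N = 1`).
-/

namespace Pool.Agent.H40.GC

open Polynomial

/-- All residues in the fields `k s` and all coefficients at `d` occur for polynomials of degree at most `d` if `d ≥ N`. -/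
def Eqd {F : Type} [Field F] {S : Type} (k : S → Type) [∀ s, Field (k s)] (φ : ∀ s, F[X] →+* k s) (N : ℕ) : Prop :=
  ∀ d, N ≤ d → ∀ (r : ∀ s, k s) (c : F), ∃ p : F[X], p.natDegree ≤ d ∧ p.coeff d = c ∧ ∀ s, φ s p = r s

theorem eqs {F : Type} [Field F] [Finite F] {S : Type} [Finite S] (k : S → Type) [∀ s, Field (k s)]
    [∀ s, Finite (k s)] (φ : ∀ s, F[X] →+* k s) (hφ : ∀ s, Function.Surjective (φ s))
    (hne : ∀ s s', s ≠ s' → RingHom.ker (φ s) ≠ RingHom.ker (φ s')) : ∃ N, Eqd k φ N := by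
  classical
  have hfin : Fintype S := Fintype.ofFinite S
  -- the Chinese remainder theorem
  have hmax : ∀ s, (RingHom.ker (φ s)).IsMaximal := fun s =>
    RingHom.ker_isMaximal_of_surjective (φ s) (hφ s)
  have hco : Pairwise (Function.onFun IsCoprime fun s => RingHom.ker (φ s)) := by
    intro s s' hss
    have := hmax s
    have := hmax s'
    exact Ideal.isCoprime_of_isMaximal (hne s s' hss)
  have hcrt : ∀ r : ∀ s, k s, ∃ p₀ : F[X], ∀ s, φ s p₀ = r s := by
    intro r
    choose a ha using fun s => hφ s (r s)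
    obtain ⟨p₀, hp₀⟩ := Ideal.exists_forall_sub_mem_ideal hco a
    refine ⟨p₀, fun s => ?_⟩
    have h1 := hp₀ s
    rw [RingHom.mem_ker, map_sub, sub_eq_zero] at h1
    rw [h1, ha]
  -- nonzero elements of the kernels
  have hP : ∀ s, ∃ P : F[X], P ≠ 0 ∧ φ s P = 0 := by
    intro s
    by_contra hcon
    push Not at hcon
    have hinj : Function.Injective (φ s) := by
      rw [injective_iff_map_eq_zero]
      intro a ha
      by_contra h0
      exact hcon a h0 ha
    have h1 : Finite F[X] := Finite.of_injective _ hinj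
    exact not_finite F[X]
  choose P hP0 hPφ using hP
  obtain ⟨Q, hQ⟩ : ∃ Q : F[X], Q = ∏ s, P s := ⟨_, rfl⟩
  have hQ0 : Q ≠ 0 := by
    rw [hQ]
    exact Finset.prod_ne_zero_iff.2 fun s _ => hP0 s
  have hQφ : ∀ s, φ s Q = 0 := by
    intro s
    rw [hQ, map_prod]
    exact Finset.prod_eq_zero (Finset.mem_univ s) (hPφ s)
  obtain ⟨M, hM⟩ : ∃ M : F[X], M = C (Q.leadingCoeff)⁻¹ * Q := ⟨_, rfl⟩
  have hMm : M.Monic := by
    rw [hM]
    exact Polynomial.monic_C_mul_of_mul_leadingCoeff_eq_one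
      (inv_mul_cancel₀ (Polynomial.leadingCoeff_ne_zero.2 hQ0))
  have hMφ : ∀ s, φ s M = 0 := by
    intro s
    rw [hM, map_mul, hQφ, mul_zero]
  refine ⟨M.natDegree, fun d hd r c => ?_⟩
  obtain ⟨p₀, hp₀⟩ := hcrt r
  obtain ⟨q, hq⟩ : ∃ q : F[X], q = p₀ %ₘ M := ⟨_, rfl⟩
  have hqd : q.natDegree ≤ M.natDegree := by
    rw [hq]
    exact Polynomial.natDegree_modByMonic_le p₀ hMm
  have hqφ : ∀ s, φ s q = r s := by
    intro s
    have h1 := Polynomial.modByMonic_add_div p₀ M
    have h2 := congrArg (φ s) h1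
    rw [map_add, map_mul, hMφ, zero_mul, add_zero, hp₀] at h2
    rw [hq]
    exact h2
  have hdeg : (X ^ (d - M.natDegree) * M).natDegree = d := by
    rw [(Polynomial.monic_X_pow _).natDegree_mul hMm, Polynomial.natDegree_X_pow]
    omega
  have hcoef : (X ^ (d - M.natDegree) * M).coeff d = 1 := by
    have h1 : (X ^ (d - M.natDegree) * M).Monic := (Polynomial.monic_X_pow _).mul hMm
    have h2 := h1.coeff_natDegree
    rwa [hdeg] at h2
  refine ⟨q + C (c - q.coeff d) * (X ^ (d - M.natDegree) * M), ?_, ?_, ?_⟩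
  · refine (Polynomial.natDegree_add_le _ _).trans (max_le (hqd.trans hd) ?_)
    refine (Polynomial.natDegree_C_mul_le _ _).trans ?_
    rw [hdeg]
  · rw [Polynomial.coeff_add, Polynomial.coeff_C_mul, hcoef]
    ring
  · intro s
    rw [map_add, map_mul, map_mul, hMφ, mul_zero, mul_zero, add_zero, hqφ]

end Pool.Agent.H40.GC
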