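import Pool.Agent.H40.GC.EXI

set_option autoImplicit false

/-!
# [H40 GC EXS] THEOREM G (MP_1bad5e_ag), chapter CNT: the exponent for small types

PROOF.  `a_i = - n_i`, so `a_0 ≥ a_1 ≥ … ≥ a_(g-1) ≥ a_g = 0` (`n (rev g) = n g`), `a_0` is the largest of all the numbers
`|n_i|`.  If `2 a_0 ≤ h` then `- n_i - n_j - h - 1 ≤ 2 a_0 - h - 1 < 0`, and the first sum in `ext` (module EXI) is `0`:
`Ee h n = - ∑_(i<j) (a_i + a_j - 1)⁺ ≤ 0`.
If `g = 0` then `n = 0`.  Let `g ≥ 1`.  The pair `(0, g)` gives `Ee h n ≤ -(a_0 + 0 - 1) = n_0 + 1`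
(`Finset.single_le_sum`).  If `a_0 = 0` then `n = 0` (monotone, `0 = n_0 ≤ n_i ≤ n_(2g) = - n_0 = 0`).  If `a_0 ≥ 2` then
`Ee ≤ 1 - a_0 ≤ -1`.  If `a_0 = 1` and `n_1 = 0` or `g = 1` then `n = e1 g` (for `1 ≤ i ≤ 2 g - 1`:
`0 = n_1 ≤ n_i ≤ n_(2g-1) = - n_1 = 0`; if `g = 1` then `n = (-1, 0, 1)`).  If `a_0 = 1` and `g ≥ 2`, `n_1 ≠ 0` then
`a_1 = 1` (`0 ≤ a_1 ≤ a_0`, as `1 ≤ g`), and the pair `(0, 1)` gives `Ee ≤ -(1 + 1 - 1) = -1`.
-/

namespace Pool.Agent.H40.GC

theorem exs {g h : ℕ} {n : Fin (2 * g + 1) → ℤ} (hn : IsType g h n) (hs : - (2 * n 0) ≤ h) :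
    Ee h n ≤ 0 ∧ Ee h n ≤ n 0 + 1 ∧ (n = 0 ∨ n = e1 g ∨ Ee h n ≤ -1) := by
  have h0 : ∀ i, n 0 ≤ n i := fun i => hn.mono (Fin.zero_le i)
  have hlast : n (Fin.last (2 * g)) = - n 0 := by
    have := hn.anti 0
    rwa [Fin.rev_zero] at this
  have hneg : ∀ i, n i ≤ - n 0 := fun i => by
    have := hn.mono (Fin.le_last i)
    rwa [hlast] at this
  have hn0 : n 0 ≤ 0 := by
    have := h0 (Fin.last (2 * g))
    omega
  have hg0 : n ⟨g, by omega⟩ = 0 := by
    have := hn.anti ⟨g, by omega⟩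
    have hr : Fin.rev (⟨g, by omega⟩ : Fin (2 * g + 1)) = ⟨g, by omega⟩ := by
      ext
      simp only [Fin.val_rev]
      omega
    rw [hr] at this
    omega
  have hE : Ee h n = - ∑ p ∈ pl (2 * g + 1), ((- n p.1 - n p.2 - 1).toNat : ℤ) := by
    rw [ext n hn.anti h]
    have hz : ∑ p ∈ ps (2 * g + 1), ((- n p.1 - n p.2 - h - 1).toNat : ℤ) = 0 := by
      refine Finset.sum_eq_zero fun p _ => ?_
      have h1 := h0 p.1
      have h2 := h0 p.2
      have h3 : (- n p.1 - n p.2 - h - 1).toNat = 0 := by omega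
      rw [h3]
      simp
    rw [hz]
    ring
  have hge : ∀ p ∈ pl (2 * g + 1), (0 : ℤ) ≤ ((- n p.1 - n p.2 - 1).toNat : ℤ) :=
    fun _ _ => Int.natCast_nonneg _
  have hE0 : Ee h n ≤ 0 := by
    rw [hE]
    have := Finset.sum_nonneg hge
    omega
  have hsin : ∀ p ∈ pl (2 * g + 1), Ee h n ≤ - ((- n p.1 - n p.2 - 1).toNat : ℤ) := by
    intro p hp
    rw [hE]
    exact neg_le_neg (Finset.single_le_sum hge hp)
  rcases Nat.eq_zero_or_pos g with hg | hg
  · subst hg
    have hnz : n = 0 := by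
      funext i
      have hi : i = ⟨0, by omega⟩ := by
        ext
        have := i.isLt
        simp only
        omega
      rw [hi]
      exact hg0
    have h00 : n 0 = 0 := by rw [hnz]; rfl
    exact ⟨hE0, by omega, Or.inl hnz⟩
  have hp1 : ((0 : Fin (2 * g + 1)), (⟨g, by omega⟩ : Fin (2 * g + 1))) ∈ pl (2 * g + 1) := by
    simp only [pl, Finset.mem_filter, Finset.mem_univ, true_and, Fin.lt_def]
    simpa using hg
  have hE1 : Ee h n ≤ n 0 + 1 := by
    have := hsin _ hp1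
    simp only [hg0] at this
    omega
  refine ⟨hE0, hE1, ?_⟩
  rcases eq_or_ne (n 0) 0 with hz | hz
  · left
    funext i
    have h1 := h0 i
    have h2 := hneg i
    have : n i = 0 := by omega
    rw [this]
    rfl
  rcases le_or_gt (n 0) (-2) with h2 | h2
  · right; right; omega
  have hm1 : n 0 = -1 := by omega
  rcases eq_or_ne (n ⟨1, by omega⟩) 0 with h1 | h1
  · right; left
    funext i
    unfold e1
    split_ifs with hi hi'
    · rw [hi, hm1]
    · rw [hi', hlast, hm1]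
      rfl
    · have ha : n ⟨1, by omega⟩ ≤ n i := by
        apply hn.mono
        rw [Fin.le_def]
        have : (i : ℕ) ≠ 0 := fun h => hi (by ext; simpa using h)
        simp only
        omega
      have hb : n i ≤ n (Fin.rev ⟨1, by omega⟩) := by
        apply hn.mono
        rw [Fin.le_def, Fin.val_rev]
        have : (i : ℕ) ≠ 2 * g := fun h => hi' (by ext; simpa using h)
        have := i.isLt
        simp only
        omega
      rw [hn.anti] at hb
      omega
  · right; right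
    have hg1 : g ≠ 1 := by
      rintro rfl
      exact h1 hg0
    have ha : n ⟨1, by omega⟩ ≤ n ⟨g, by omega⟩ := by
      apply hn.mono
      rw [Fin.le_def]
      simp only
      omega
    have hb := h0 ⟨1, by omega⟩
    have hp2 : ((0 : Fin (2 * g + 1)), (⟨1, by omega⟩ : Fin (2 * g + 1))) ∈ pl (2 * g + 1) := by
      simp only [pl, Finset.mem_filter, Finset.mem_univ, true_and, Fin.lt_def]
      simp
    have h3 := hsin _ hp2
    simp only at h3
    omega

end Pool.Agent.H40.GC
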