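import Pool.Agent.H40.GC.CLS
import Pool.Agent.H3.GG.LEnd
import Pool.Agent.H13.SM.Smk

set_option autoImplicit false

/-!
# [H40 GC LTO] THEOREM G (MP_1bad5e_ag): the output of the chapter LAT in the form used in CNT
-/

namespace Pool.Agent.H40.GC

open Polynomial IsDedekindDomain Matrix
open Pool.Agent.H94.GG (Fam lead Smooth IsS0 SqAt)

theorem lato {F : Type} [Field F] [Finite F] {g : ℕ} (hg : 1 ≤ g) (h : ℕ) (f : F[X][X])
    (hf : Fam (2 * g + 1) h f) (hl : Irreducible (lead (2 * g + 1) h f)) (hs : Smooth f) :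
    LatO g h f := by
  have hD : IsDedekindDomain (AdjoinRoot f) := H13.SM.ded (2 * g + 1) h (by omega) f hf hl hs
  have e1 : (2 * g + 1) / 2 = g := by omega
  constructor
  · intro δ hδ
    obtain ⟨n, h1, h2, h3, h4⟩ := Pool.Agent.H3.GG.lat_type hf hl (by omega) (by omega) hδ
    refine ⟨n, h1, h2, fun i => ?_, fun hδ' i hi => h4 hδ' i (by rw [e1]; exact hi)⟩
    have h5 := h3 i.castSucc i.succ (by simp)
    linarith
  · intro n hn V hV S h1 h2
    exact Pool.Agent.H3.GG.lat_count hf hl (by omega) (by omega) n V hV S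
      (fun δ hδ => ⟨(h1 δ hδ).1.1, (h1 δ hδ).2⟩) h2

end Pool.Agent.H40.GC
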