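import Pool.Agent.H40.GC.CNB
import Pool.Agent.H40.GC.IRC

set_option autoImplicit false

/-!
# [H40 GC PLC] THEOREM G (MP_1bad5e_ag), chapter CNT: finite places as residue fields

The local conditions of the family: `FamS m h P Z f`: `f` in `Fam m h`, the leading form is irreducible, the places in `P` are
special, the places in `Z` harmless.
-/

namespace Pool.Agent.H40.GC

open Polynomial IsDedekindDomain
open Pool.Agent.H94.GG (Fam lead Special Harmless)

variable {F : Type} [Field F]

/-- residue field -/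
abbrev kv (v : HeightOneSpectrum F[X]) : Type := F[X] ⧸ v.asIdeal

noncomputable instance fieldKv (v : HeightOneSpectrum F[X]) : Field (kv v) :=
  haveI := v.isMaximal
  Ideal.Quotient.field v.asIdeal

/-- reduction -/
noncomputable abbrev rv (v : HeightOneSpectrum F[X]) : F[X] →+* kv v := Ideal.Quotient.mk v.asIdeal

theorem rv_surj (v : HeightOneSpectrum F[X]) : Function.Surjective (rv v) := Ideal.Quotient.mk_surjective

theorem rv_ker {v w : HeightOneSpectrum F[X]} (h : RingHom.ker (rv v) = RingHom.ker (rv w)) : v = w := by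
  rw [Ideal.mk_ker, Ideal.mk_ker] at h
  exact HeightOneSpectrum.ext h

theorem rv_two (h2 : (2 : F) ≠ 0) (v : HeightOneSpectrum F[X]) : (2 : kv v) ≠ 0 := by
  have h1 : ((rv v).comp (C : F →+* F[X])) 2 ≠ 0 := (_root_.map_ne_zero _).2 h2
  rwa [map_ofNat] at h1

/-- the residue field is finite -/
instance finite_kv [Finite F] (v : HeightOneSpectrum F[X]) : Finite (kv v) := by
  obtain ⟨P, hP⟩ : ∃ P : F[X], v.asIdeal = Ideal.span {P} :=
    (IsPrincipalIdealRing.principal v.asIdeal).principal
  have hP0 : P ≠ 0 := by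
    rintro rfl
    apply v.ne_bot
    rw [hP, Ideal.span_singleton_eq_bot]
  have hfin : {p : F[X] | p.natDegree ≤ P.natDegree}.Finite := Pool.Agent.H94.PC.finite_natDegree_le F _
  have hsurj : Function.Surjective
      (fun p : {p : F[X] | p.natDegree ≤ P.natDegree} => rv v (p : F[X])) := by
    intro y
    obtain ⟨p, rfl⟩ := rv_surj v y
    refine ⟨⟨p % P, ?_⟩, ?_⟩
    · exact natDegree_le_natDegree (EuclideanDomain.mod_lt p hP0).le
    · show rv v (p % P) = rv v p
      rw [Ideal.Quotient.eq, hP, Ideal.mem_span_singleton]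
      refine ⟨-(p / P), ?_⟩
      have := EuclideanDomain.div_add_mod p P
      linear_combination this
  haveI := hfin.to_subtype
  exact Finite.of_surjective _ hsurj

theorem odd_card (k : Type) [Field k] [Finite k] (h2 : (2 : k) ≠ 0) : 3 ≤ Nat.card k := by
  have h1 : 1 < Nat.card k := Finite.one_lt_card
  by_contra h
  have h3 : Nat.card k = 2 := by omega
  have h4 : ((Nat.card k : ℕ) : k) = 0 := by
    haveI := Fintype.ofFinite k
    rw [Nat.card_eq_fintype_card]
    exact Nat.cast_card_eq_zero k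
  rw [h3] at h4
  exact h2 (by exact_mod_cast h4)

/-- the local condition at `v` -/
def Tv (P : Finset (HeightOneSpectrum F[X])) (v : HeightOneSpectrum F[X]) : Set (kv v)[X] :=
  {p | (v ∈ P → p ∈ Tspec (kv v)) ∧ (v ∉ P → p ∈ Tirr (kv v))}

/-- the family with the local conditions -/
def FamS (m h : ℕ) (P Z : Finset (HeightOneSpectrum F[X])) (f : F[X][X]) : Prop :=
  Fam m h f ∧ Irreducible (lead m h f) ∧ (∀ v ∈ P, Special f v) ∧ ∀ v ∈ Z, Harmless f v

theorem special_iff (f : F[X][X]) (v : HeightOneSpectrum F[X]) :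
    Special f v ↔ f.map (rv v) ∈ Tspec (kv v) := Iff.rfl

theorem harmless_iff (f : F[X][X]) (v : HeightOneSpectrum F[X]) :
    Harmless f v ↔ f.map (rv v) ∈ Tirr (kv v) := Iff.rfl

open Classical in
theorem fams_iff {m h : ℕ} {P Z : Finset (HeightOneSpectrum F[X])} (hPZ : Disjoint P Z) (f : F[X][X]) :
    FamS m h P Z f ↔ FamT (fun s : {v // v ∈ P ∪ Z} => kv s.1) (fun s => rv s.1) m h
      (fun s => Tv P s.1) (Tirr F) f := by
  constructor
  · rintro ⟨h1, h2, h3, h4⟩
    refine ⟨h1, fun s => ⟨fun hs => (special_iff f s.1).1 (h3 _ hs), fun hs => ?_⟩, h2⟩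
    exact (harmless_iff f s.1).1 (h4 _ ((Finset.mem_union.1 s.2).resolve_left hs))
  · rintro ⟨h1, h2, h3⟩
    refine ⟨h1, h3, fun v hv => ?_, fun v hv => ?_⟩
    · exact (special_iff f v).2 ((h2 ⟨v, Finset.mem_union_left _ hv⟩).1 hv)
    · exact (harmless_iff f v).2 ((h2 ⟨v, Finset.mem_union_right _ hv⟩).2
        fun hv' => Finset.disjoint_left.1 hPZ hv' hv)

open Classical in
theorem eqd_plc [Finite F] (P : Finset (HeightOneSpectrum F[X])) :
    ∃ N, Eqd (fun s : {v // v ∈ P} => kv s.1) (fun s => rv s.1) N := by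
  refine eqs _ _ (fun s => rv_surj s.1) fun s s' hs h => hs (Subtype.ext (rv_ker h))

end Pool.Agent.H40.GC
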