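import Pool.Agent.H40.GC.DLC

set_option autoImplicit false

/-!
# [H40 GC SYE] THEOREM G (MP_1bad5e_ag), chapter CNT: equidistribution of symmetric matrices

PROOF.  `J = {p : Fin m × Fin m // p ∈ ps m}` (`Fintype.card J = (ps m).card`), `d' p = (d p.1 p.2).toNat ≥ N`; for
`d i j ≥ N ≥ 0`: `DLe (d i j) p ↔ p.natDegree ≤ (d i j).toNat` (the zero polynomial has degree 0) and
`tc (d i j) p = p.coeff (d i j).toNat`.  A symmetric matrix over a ring is the same as a family on `J`
(`M ↦ fun p => M p.1.1 p.1.2`, inverse `a ↦ of fun i j => if i ≤ j then a (i, j) else a (j, i)`); this bijection is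
compatible with ring homomorphisms entry by entry, and with taking the coefficients at `(d i j).toNat = (d j i).toNat`.
Apply `eqc` (module EQC) with `R s` = the families of the symmetric matrices in `R s`, `R'` similarly; `(d + 1).toNat =
d.toNat + 1`; sums over `J` are sums over `ps m` (`Finset.sum_coe_sort`).
-/

namespace Pool.Agent.H40.GC

open Polynomial Matrix
open Pool.Agent.H3.GG (DLe)

private abbrev PJ (m : ℕ) : Type := {p : Fin m × Fin m // p ∈ ps m}

private theorem mem_ps' {m : ℕ} {i j : Fin m} (h : i ≤ j) : (i, j) ∈ ps m := by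
  unfold ps
  exact Finset.mem_filter.2 ⟨Finset.mem_univ _, h⟩

private theorem le_of_mem_ps {m : ℕ} {p : Fin m × Fin m} (h : p ∈ ps m) : p.1 ≤ p.2 := by
  unfold ps at h
  exact (Finset.mem_filter.1 h).2

/-- the symmetric matrix with given entries on and above the diagonal -/
private def upm {m : ℕ} {R : Type} (a : PJ m → R) : Matrix (Fin m) (Fin m) R :=
  Matrix.of fun i j => if h : i ≤ j then a ⟨(i, j), mem_ps' h⟩
    else a ⟨(j, i), mem_ps' (le_of_lt (not_le.1 h))⟩

private def rsm {m : ℕ} {R : Type} (M : Matrix (Fin m) (Fin m) R) : PJ m → R :=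
  fun p => M p.1.1 p.1.2

private theorem upm_le {m : ℕ} {R : Type} (a : PJ m → R) {i j : Fin m} (h : i ≤ j) :
    upm a i j = a ⟨(i, j), mem_ps' h⟩ := dif_pos h

private theorem upm_gt {m : ℕ} {R : Type} (a : PJ m → R) {i j : Fin m} (h : ¬ i ≤ j) :
    upm a i j = a ⟨(j, i), mem_ps' (le_of_lt (not_le.1 h))⟩ := dif_neg h

private theorem upm_symm {m : ℕ} {R : Type} (a : PJ m → R) : (upm a)ᵀ = upm a := by
  ext i j
  rw [transpose_apply]
  rcases lt_trichotomy i j with h | h | h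
  · rw [upm_gt a (not_le.2 h), upm_le a h.le]
  · rw [h]
  · rw [upm_le a h.le, upm_gt a (not_le.2 h)]

private theorem rsm_upm {m : ℕ} {R : Type} (a : PJ m → R) : rsm (upm a) = a := by
  funext p
  obtain ⟨⟨i, j⟩, hp⟩ := p
  exact upm_le a (le_of_mem_ps hp)

private theorem upm_rsm {m : ℕ} {R : Type} (M : Matrix (Fin m) (Fin m) R) (hM : Mᵀ = M) :
    upm (rsm M) = M := by
  ext i j
  by_cases h : i ≤ j
  · rw [upm_le _ h]
    rfl
  · rw [upm_gt _ h]
    exact congrFun (congrFun hM i) j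

private theorem upm_map {m : ℕ} {R R' : Type} (φ : R → R') (a : PJ m → R) :
    (upm a).map φ = upm (fun p => φ (a p)) := by
  ext i j
  rw [map_apply]
  by_cases h : i ≤ j
  · rw [upm_le _ h, upm_le _ h]
  · rw [upm_gt _ h, upm_gt _ h]

private theorem card_upm {m : ℕ} {R : Type} (T : Set (Matrix (Fin m) (Fin m) R)) :
    Nat.card {M : Matrix (Fin m) (Fin m) R // Mᵀ = M ∧ M ∈ T} =
      Nat.card {a : PJ m → R | upm a ∈ T} := by
  refine Nat.card_congr
    { toFun := fun M => ⟨rsm M.1, ?_⟩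
      invFun := fun a => ⟨upm a.1, upm_symm a.1, a.2⟩
      left_inv := fun M => ?_
      right_inv := fun a => ?_ }
  · show upm (rsm M.1) ∈ T
    rw [upm_rsm M.1 M.2.1]
    exact M.2.2
  · exact Subtype.ext (upm_rsm M.1 M.2.1)
  · exact Subtype.ext (rsm_upm a.1)

theorem sye {F : Type} [Field F] [Finite F] {S : Type} [Fintype S] (k : S → Type) [∀ s, Field (k s)]
    [∀ s, Finite (k s)] (φ : ∀ s, F[X] →+* k s) {N : ℕ} (hN : Eqd k φ N) {m : ℕ}
    (d : Fin m → Fin m → ℤ) (hd : ∀ i j, d i j = d j i) (hNd : ∀ i j, (N : ℤ) ≤ d i j)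
    (R : ∀ s, Set (Matrix (Fin m) (Fin m) (k s))) (R' : Set (Matrix (Fin m) (Fin m) F)) :
    (Nat.card {B : Matrix (Fin m) (Fin m) F[X] // Bᵀ = B ∧ (∀ i j, DLe (d i j) (B i j)) ∧
        (∀ s, B.map (φ s) ∈ R s) ∧ (Matrix.of fun i j => tc (d i j) (B i j)) ∈ R'} : ℝ) =
      (∏ s, ((Nat.card {M : Matrix (Fin m) (Fin m) (k s) // Mᵀ = M ∧ M ∈ R s} : ℝ) /
          (Nat.card (k s) : ℝ) ^ (ps m).card)) *
        ((Nat.card {M : Matrix (Fin m) (Fin m) F // Mᵀ = M ∧ M ∈ R'} : ℝ) /
          (Nat.card F : ℝ) ^ (ps m).card) *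
        (Nat.card F : ℝ) ^ ∑ p ∈ ps m, (d p.1 p.2 + 1).toNat := by
  classical
  have hd0 : ∀ i j, 0 ≤ d i j := fun i j => le_trans (Int.natCast_nonneg N) (hNd i j)
  have hdn : ∀ i j, ((d i j).toNat : ℤ) = d i j := fun i j => Int.toNat_of_nonneg (hd0 i j)
  have hdle : ∀ i j (p : F[X]), DLe (d i j) p ↔ p.natDegree ≤ (d i j).toNat := by
    intro i j p
    rw [← dle_nat, hdn]
  have htc : ∀ i j (p : F[X]), tc (d i j) p = p.coeff (d i j).toNat := by
    intro i j p
    rw [← tc_nat, hdn]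
  let D : PJ m → ℕ := fun p => (d p.1.1 p.1.2).toNat
  have hD : ∀ p, N ≤ D p := fun p => by
    have := hNd p.1.1 p.1.2
    show N ≤ (d p.1.1 p.1.2).toNat
    omega
  have hcardJ : Fintype.card (PJ m) = (ps m).card := Fintype.card_coe _
  have key := eqc k φ hN D hD (fun s => {a : PJ m → k s | upm a ∈ R s}) {a : PJ m → F | upm a ∈ R'}
  have e1 : Nat.card {B : Matrix (Fin m) (Fin m) F[X] // Bᵀ = B ∧ (∀ i j, DLe (d i j) (B i j)) ∧
        (∀ s, B.map (φ s) ∈ R s) ∧ (Matrix.of fun i j => tc (d i j) (B i j)) ∈ R'} =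
      Nat.card {p : PJ m → F[X] // (∀ j, (p j).natDegree ≤ D j) ∧
        (∀ s, (fun j => φ s (p j)) ∈ {a : PJ m → k s | upm a ∈ R s}) ∧
        (fun j => (p j).coeff (D j)) ∈ {a : PJ m → F | upm a ∈ R'}} := by
    have hof : ∀ a : PJ m → F[X], (Matrix.of fun i j => tc (d i j) (upm a i j)) =
        upm (fun p => (a p).coeff (D p)) := by
      intro a
      ext i j
      rw [of_apply]
      by_cases h : i ≤ j
      · rw [upm_le _ h, upm_le _ h, htc]
      · rw [upm_gt _ h, upm_gt _ h, htc, hd i j]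
    refine Nat.card_congr
      { toFun := fun B => ⟨rsm B.1, ?_, ?_, ?_⟩
        invFun := fun a => ⟨upm a.1, upm_symm a.1, ?_, ?_, ?_⟩
        left_inv := fun B => ?_
        right_inv := fun a => ?_ }
    · intro p
      exact (hdle _ _ _).1 (B.2.2.1 p.1.1 p.1.2)
    · intro s
      show upm (fun p => φ s (rsm B.1 p)) ∈ R s
      rw [← upm_map, upm_rsm B.1 B.2.1]
      exact B.2.2.2.1 s
    · show upm (fun p => (rsm B.1 p).coeff (D p)) ∈ R'
      rw [← hof, upm_rsm B.1 B.2.1]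
      exact B.2.2.2.2
    · intro i j
      rw [hdle]
      by_cases h : i ≤ j
      · rw [upm_le _ h]
        exact a.2.1 _
      · rw [upm_gt _ h, hd i j]
        exact a.2.1 _
    · intro s
      rw [upm_map]
      exact a.2.2.1 s
    · rw [hof]
      exact a.2.2.2
    · exact Subtype.ext (upm_rsm B.1 B.2.1)
    · exact Subtype.ext (rsm_upm a.1)
  have e2 : ∑ j, (D j + 1) = ∑ p ∈ ps m, (d p.1 p.2 + 1).toNat := by
    rw [← Finset.sum_coe_sort (ps m) (fun p => (d p.1 p.2 + 1).toNat)]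
    refine Finset.sum_congr rfl fun p _ => ?_
    have := hd0 p.1.1 p.1.2
    show (d p.1.1 p.1.2).toNat + 1 = (d p.1.1 p.1.2 + 1).toNat
    omega
  rw [e1, key, hcardJ, e2, card_upm R']
  congr 2
  refine Finset.prod_congr rfl fun s _ => ?_
  rw [card_upm (R s)]

theorem card_ps (m : ℕ) : (ps m).card = m * (m - 1) / 2 + m := by
  have h1 : ps m = (Finset.univ : Finset (Fin m)).biUnion fun j => (Finset.Iic j).image fun i => (i, j) := by
    ext ⟨i, j⟩
    unfold ps
    simp
  have h2 : (ps m).card = ∑ j : Fin m, ((j : ℕ) + 1) := by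
    rw [h1, Finset.card_biUnion]
    · refine Finset.sum_congr rfl fun j _ => ?_
      rw [Finset.card_image_of_injective _ (fun a b h => (Prod.ext_iff.1 h).1), Fin.card_Iic]
    · intro j _ j' _ hjj
      rw [Function.onFun, Finset.disjoint_left]
      intro p hp hp'
      obtain ⟨i, _, rfl⟩ := Finset.mem_image.1 hp
      obtain ⟨i', _, h⟩ := Finset.mem_image.1 hp'
      exact hjj (Prod.ext_iff.1 h).2.symm
  rw [h2, Fin.sum_univ_eq_sum_range (fun j => j + 1), Finset.sum_add_distrib, Finset.sum_range_id,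
    Finset.sum_const, Finset.card_range, smul_eq_mul, mul_one]

end Pool.Agent.H40.GC
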