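import Pool.Agent.H3.GG.CDefs

set_option autoImplicit false

/-!
# [H40 GC TOP] THEOREM G (MP_1bad5e_ag), chapter CNT: top coefficients of determinants

`DLe d p` (`p = 0` or `natDegree p ≤ d`) is that of `H3/GG/CDefs`; `tc d p` = coefficient at `d`, `0` if `d < 0`.

PROOF.
`dle_iff`: `DLe d p ↔ ∀ k : ℕ, d < k → p.coeff k = 0` (`Polynomial.natDegree_le_iff_coeff_eq_zero`; if `d < 0` all
coefficients vanish).
`dle_mul`, `tc_mul`: if `d < 0` then `p = 0`, both sides are `0` (also if `e < 0`); otherwise `natDegree_mul_le` and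
`Polynomial.coeff_mul_add_eq_of_natDegree_le` (`(p * q).coeff (d + e) = p.coeff d * q.coeff e` if `natDegree p ≤ d`,
`natDegree q ≤ e`).
`dle_sum`, `tc_sum`: clear (`tc d` is additive).  `dle_prod`, `tc_prod`: induction over the finite set.
`top_det`: `Matrix.det_apply`: `det M = ∑ σ, sign σ • ∏ i, M (σ i) i`; every product has entries with
`DLe (u (σ i) + v i) (M (σ i) i)`, and `∑ i, (u (σ i) + v i) = ∑ u + ∑ v` (`Equiv.sum_comp`).  Apply `dle_prod`, `tc_prod`
and additivity (`sign σ • x = ± x`).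
`top_const`: `DLe 0 p` means that `p` is the constant `C (tc 0 p)` (`eq_C_of_natDegree_le_zero`).
-/

namespace Pool.Agent.H40.GC

open Polynomial Matrix
open Pool.Agent.H3.GG (DLe)

variable {F : Type} [Field F]

/-- coefficient at `d`, zero if `d < 0` -/
def tc (d : ℤ) (p : F[X]) : F := if 0 ≤ d then p.coeff d.toNat else 0

theorem tc_nat (n : ℕ) (p : F[X]) : tc (n : ℤ) p = p.coeff n := by
  unfold tc
  rw [if_pos (Int.natCast_nonneg n), Int.toNat_natCast]

theorem dle_iff {d : ℤ} {p : F[X]} : DLe d p ↔ ∀ k : ℕ, d < k → p.coeff k = 0 := by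
  constructor
  · rintro (h | h) k hk
    · rw [h, coeff_zero]
    · exact coeff_eq_zero_of_natDegree_lt (by omega)
  · intro h
    by_cases hp : p = 0
    · exact Or.inl hp
    · right
      by_contra hc
      rw [not_le] at hc
      exact hp (leadingCoeff_eq_zero.1 (h p.natDegree hc))

theorem dle_neg {d : ℤ} {p : F[X]} (h : DLe d p) (hd : d < 0) : p = 0 := by
  rcases h with h | h
  · exact h
  · omega

theorem dle_nat {n : ℕ} {p : F[X]} : DLe (n : ℤ) p ↔ p.natDegree ≤ n := by
  constructor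
  · rintro (h | h)
    · rw [h, natDegree_zero]
      exact Nat.zero_le n
    · exact_mod_cast h
  · intro h
    exact Or.inr (by exact_mod_cast h)

theorem dle_zero (d : ℤ) : DLe d (0 : F[X]) := Or.inl rfl

theorem tc_zero (d : ℤ) : tc d (0 : F[X]) = 0 := by
  unfold tc
  split_ifs
  · exact coeff_zero _
  · rfl

theorem dle_add {d : ℤ} {p q : F[X]} (hp : DLe d p) (hq : DLe d q) : DLe d (p + q) := by
  rw [dle_iff] at hp hq ⊢
  intro k hk
  rw [coeff_add, hp k hk, hq k hk, add_zero]

theorem dle_negp {d : ℤ} {p : F[X]} (hp : DLe d p) : DLe d (-p) := by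
  rw [dle_iff] at hp ⊢
  intro k hk
  rw [coeff_neg, hp k hk, neg_zero]

theorem tc_add (d : ℤ) (p q : F[X]) : tc d (p + q) = tc d p + tc d q := by
  unfold tc
  split_ifs
  · exact coeff_add _ _ _
  · rw [add_zero]

theorem tc_neg (d : ℤ) (p : F[X]) : tc d (-p) = - tc d p := by
  unfold tc
  split_ifs
  · exact coeff_neg _ _
  · rw [neg_zero]

theorem tc_sub (d : ℤ) (p q : F[X]) : tc d (p - q) = tc d p - tc d q := by
  rw [sub_eq_add_neg, tc_add, tc_neg, sub_eq_add_neg]

theorem dle_mul {d e : ℤ} {p q : F[X]} (hp : DLe d p) (hq : DLe e q) : DLe (d + e) (p * q) := by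
  rcases lt_or_ge d 0 with h | h
  · rw [dle_neg hp h, zero_mul]
    exact dle_zero _
  rcases lt_or_ge e 0 with h' | h'
  · rw [dle_neg hq h', mul_zero]
    exact dle_zero _
  lift d to ℕ using h
  lift e to ℕ using h'
  have h1 := dle_nat.1 hp
  have h2 := dle_nat.1 hq
  rw [← Nat.cast_add, dle_nat]
  exact natDegree_mul_le_of_le h1 h2

theorem tc_mul {d e : ℤ} {p q : F[X]} (hp : DLe d p) (hq : DLe e q) :
    tc (d + e) (p * q) = tc d p * tc e q := by
  rcases lt_or_ge d 0 with h | h
  · rw [dle_neg hp h, zero_mul, tc_zero, tc_zero, zero_mul]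
  rcases lt_or_ge e 0 with h' | h'
  · rw [dle_neg hq h', mul_zero, tc_zero, tc_zero, mul_zero]
  lift d to ℕ using h
  lift e to ℕ using h'
  have h1 := dle_nat.1 hp
  have h2 := dle_nat.1 hq
  rw [← Nat.cast_add, tc_nat, tc_nat, tc_nat]
  exact coeff_mul_add_eq_of_natDegree_le h1 h2

theorem dle_sum {d : ℤ} {ι : Type} (s : Finset ι) (p : ι → F[X]) (hp : ∀ i ∈ s, DLe d (p i)) :
    DLe d (∑ i ∈ s, p i) := by
  rw [dle_iff]
  intro k hk
  rw [finsetSum_coeff]
  exact Finset.sum_eq_zero fun i hi => dle_iff.1 (hp i hi) k hk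

theorem tc_sum (d : ℤ) {ι : Type} (s : Finset ι) (p : ι → F[X]) :
    tc d (∑ i ∈ s, p i) = ∑ i ∈ s, tc d (p i) := by
  classical
  induction s using Finset.induction_on with
  | empty => rw [Finset.sum_empty, Finset.sum_empty, tc_zero]
  | insert a s ha ih => rw [Finset.sum_insert ha, Finset.sum_insert ha, tc_add, ih]

theorem dle_prod {ι : Type} (s : Finset ι) (d : ι → ℤ) (p : ι → F[X]) (hp : ∀ i ∈ s, DLe (d i) (p i)) :
    DLe (∑ i ∈ s, d i) (∏ i ∈ s, p i) := by
  classical
  induction s using Finset.induction_on with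
  | empty =>
    rw [Finset.sum_empty, Finset.prod_empty]
    exact Or.inr (by rw [natDegree_one]; exact le_refl _)
  | insert a s ha ih =>
    rw [Finset.sum_insert ha, Finset.prod_insert ha]
    exact dle_mul (hp a (Finset.mem_insert_self a s)) (ih fun i hi => hp i (Finset.mem_insert_of_mem hi))

theorem tc_prod {ι : Type} (s : Finset ι) (d : ι → ℤ) (p : ι → F[X]) (hp : ∀ i ∈ s, DLe (d i) (p i)) :
    tc (∑ i ∈ s, d i) (∏ i ∈ s, p i) = ∏ i ∈ s, tc (d i) (p i) := by
  classical
  induction s using Finset.induction_on with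
  | empty =>
    rw [Finset.sum_empty, Finset.prod_empty, Finset.prod_empty]
    have := tc_nat 0 (1 : F[X])
    rw [Nat.cast_zero] at this
    rw [this, coeff_one_zero]
  | insert a s ha ih =>
    have h1 : ∀ i ∈ s, DLe (d i) (p i) := fun i hi => hp i (Finset.mem_insert_of_mem hi)
    rw [Finset.sum_insert ha, Finset.prod_insert ha, Finset.prod_insert ha,
      tc_mul (hp a (Finset.mem_insert_self a s)) (dle_prod s d p h1), ih h1]

/-- the determinant has degree at most the sum of the weights, its top coefficient is the determinant of the top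
coefficients -/
theorem top_det {m : ℕ} (u v : Fin m → ℤ) (M : Matrix (Fin m) (Fin m) F[X])
    (hM : ∀ i j, DLe (u i + v j) (M i j)) :
    DLe (∑ i, u i + ∑ i, v i) M.det ∧
      tc (∑ i, u i + ∑ i, v i) M.det = (Matrix.of fun i j => tc (u i + v j) (M i j)).det := by
  classical
  have hD : ∀ σ : Equiv.Perm (Fin m), ∑ i, u i + ∑ i, v i = ∑ i, (u (σ i) + v i) := by
    intro σ
    rw [Finset.sum_add_distrib, Equiv.sum_comp σ u]
  rw [det_apply, det_apply]
  constructor
  · refine dle_sum _ _ fun σ _ => ?_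
    have h1 : DLe (∑ i, u i + ∑ i, v i) (∏ i, M (σ i) i) := by
      rw [hD σ]
      exact dle_prod _ _ _ fun i _ => hM _ _
    rcases Int.units_eq_one_or (Equiv.Perm.sign σ) with h | h
    · rw [h, one_smul]
      exact h1
    · rw [h, Units.neg_smul, one_smul]
      exact dle_negp h1
  · rw [tc_sum]
    refine Finset.sum_congr rfl fun σ _ => ?_
    have h1 : tc (∑ i, u i + ∑ i, v i) (∏ i, M (σ i) i) = ∏ i, tc (u (σ i) + v i) (M (σ i) i) := by
      rw [hD σ]
      exact tc_prod _ _ _ fun i _ => hM _ _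
    rcases Int.units_eq_one_or (Equiv.Perm.sign σ) with h | h
    · rw [h, one_smul, one_smul]
      exact h1
    · rw [h, Units.neg_smul, one_smul, Units.neg_smul, one_smul, tc_neg]
      exact congrArg Neg.neg h1

theorem top_const {p : F[X]} (hp : DLe 0 p) : p = C (tc 0 p) := by
  have h1 : p.natDegree ≤ 0 := dle_nat.1 (by rw [Nat.cast_zero]; exact hp)
  have h2 := tc_nat 0 p
  rw [Nat.cast_zero] at h2
  rw [h2]
  exact eq_C_of_natDegree_le_zero h1

end Pool.Agent.H40.GC
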